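import Mathlib
import Pool.Agent.W595.Bond.Gr

set_option autoImplicit false

/-! BOND-DRAW: the straight line drawing of the graph on 28 vertices has no crossings. -/

namespace Pool.Agent.W91.BondDraw

open Pool.Agent.W595.Bond

/-- orientation determinant of three vertices -/
def c (u v w : Fin 28) : Int :=
  ((coord v).1 - (coord u).1) * ((coord w).2 - (coord u).2)
    - ((coord v).2 - (coord u).2) * ((coord w).1 - (coord u).1)

/-- both `x`, `y` are weakly on one side of the line `u v`, and not both on it -/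
def side (u v x y : Fin 28) : Bool :=
  (decide (0 ≤ c u v x) && decide (0 ≤ c u v y) && decide (0 < c u v x + c u v y)) ||
  (decide (c u v x ≤ 0) && decide (c u v y ≤ 0) && decide (c u v x + c u v y < 0))

theorem chk1 : ∀ u v : Fin 28, u ≠ v → coord u ≠ coord v := by decide +kernel

theorem chk2 : ∀ u v : Fin 28, u ≠ v → em u v ≠ 0 → ∀ w : Fin 28, w ≠ u → w ≠ v →
    c u v w ≠ 0 := by decide +kernel

theorem chk3 : ∀ u v : Fin 28, u ≠ v → em u v ≠ 0 → ∀ x y : Fin 28, x ≠ y → em x y ≠ 0 →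
    ¬ (u = x ∧ v = y) → ¬ (u = y ∧ v = x) → (side u v x y || side x y u v) = true := by
  decide +kernel

/-- the position of a vertex -/
noncomputable def p (v : Fin 28) : ℝ × ℝ := (((coord v).1 : ℝ), ((coord v).2 : ℝ))

/-- straight line path -/
noncomputable def γ (u v : Fin 28) : Path (p u) (p v) where
  toFun := fun t => ((1 - (t : ℝ)) * (p u).1 + (t : ℝ) * (p v).1,
    (1 - (t : ℝ)) * (p u).2 + (t : ℝ) * (p v).2)
  continuous_toFun := by fun_prop
  source' := by simp
  target' := by simp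

lemma γ_apply (u v : Fin 28) (t : unitInterval) :
    γ u v t = ((1 - (t : ℝ)) * (p u).1 + (t : ℝ) * (p v).1,
    (1 - (t : ℝ)) * (p u).2 + (t : ℝ) * (p v).2) := rfl

/-- real orientation determinant -/
noncomputable def cR (a b z : ℝ × ℝ) : ℝ :=
  (b.1 - a.1) * (z.2 - a.2) - (b.2 - a.2) * (z.1 - a.1)

lemma cR_p (u v w : Fin 28) : cR (p u) (p v) (p w) = (c u v w : ℝ) := by
  unfold cR p c
  push_cast
  ring

lemma cR_self (u v : Fin 28) (t : unitInterval) : cR (p u) (p v) (γ u v t) = 0 := by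
  rw [γ_apply]
  unfold cR
  ring

lemma cR_seg (u v x y : Fin 28) (t : unitInterval) :
    cR (p u) (p v) (γ x y t) = (1 - (t : ℝ)) * (c u v x : ℝ) + (t : ℝ) * (c u v y : ℝ) := by
  rw [← cR_p, ← cR_p, γ_apply]
  unfold cR
  ring

lemma p_inj : Function.Injective p := by
  intro u v h
  by_contra hne
  apply chk1 u v hne
  unfold p at h
  rw [Prod.mk.injEq] at h
  obtain ⟨h1, h2⟩ := h
  exact Prod.ext (by exact_mod_cast h1) (by exact_mod_cast h2)

lemma γ_inj (u v : Fin 28) (h : u ≠ v) : Function.Injective (⇑(γ u v)) := by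
  intro s t hst
  rw [γ_apply, γ_apply, Prod.mk.injEq] at hst
  obtain ⟨h1, h2⟩ := hst
  have hp : p u ≠ p v := fun hh => h (p_inj hh)
  have h1' : ((s : ℝ) - t) * ((p v).1 - (p u).1) = 0 := by linarith
  have h2' : ((s : ℝ) - t) * ((p v).2 - (p u).2) = 0 := by linarith
  by_contra hne
  have hst' : (s : ℝ) - t ≠ 0 := by
    intro hh
    apply hne
    apply Subtype.ext
    linarith
  have e1 := (mul_eq_zero.mp h1').resolve_left hst'
  have e2 := (mul_eq_zero.mp h2').resolve_left hst'
  apply hp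
  exact Prod.ext (by linarith) (by linarith)

lemma γ_zero (u v : Fin 28) : γ u v 0 = p u := (γ u v).source

lemma γ_one (u v : Fin 28) : γ u v 1 = p v := (γ u v).target

lemma side_ne (u v x y : Fin 28) (h : side u v x y = true) (b : unitInterval) (h0 : b ≠ 0)
    (h1 : b ≠ 1) : cR (p u) (p v) (γ x y b) ≠ 0 := by
  rw [cR_seg]
  have hb0 : 0 < (b : ℝ) := lt_of_le_of_ne b.2.1 (fun hh => h0 (Subtype.ext hh.symm))
  have hb1 : (b : ℝ) < 1 := lt_of_le_of_ne b.2.2 (fun hh => h1 (Subtype.ext hh))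
  unfold side at h
  simp only [Bool.or_eq_true, Bool.and_eq_true, decide_eq_true_eq] at h
  rcases h with ⟨⟨ha, hb⟩, hc⟩ | ⟨⟨ha, hb⟩, hc⟩
  · have ha' : (0 : ℝ) ≤ (c u v x : ℝ) := by exact_mod_cast ha
    have hb' : (0 : ℝ) ≤ (c u v y : ℝ) := by exact_mod_cast hb
    have hc' : (0 : ℝ) < (c u v x : ℝ) + (c u v y : ℝ) := by exact_mod_cast hc
    have e1 : 0 ≤ (1 - (b : ℝ)) * (c u v x : ℝ) := mul_nonneg (by linarith) ha'
    have e2 : 0 ≤ (b : ℝ) * (c u v y : ℝ) := mul_nonneg hb0.le hb'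
    intro hz
    have z1 : (1 - (b : ℝ)) * (c u v x : ℝ) = 0 := by linarith
    have z2 : (b : ℝ) * (c u v y : ℝ) = 0 := by linarith
    have w1 := (mul_eq_zero.mp z1).resolve_left (by linarith)
    have w2 := (mul_eq_zero.mp z2).resolve_left (by linarith)
    linarith
  · have ha' : (c u v x : ℝ) ≤ 0 := by exact_mod_cast ha
    have hb' : (c u v y : ℝ) ≤ 0 := by exact_mod_cast hb
    have hc' : (c u v x : ℝ) + (c u v y : ℝ) < 0 := by exact_mod_cast hc
    have e1 : (1 - (b : ℝ)) * (c u v x : ℝ) ≤ 0 :=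
      mul_nonpos_of_nonneg_of_nonpos (by linarith) ha'
    have e2 : (b : ℝ) * (c u v y : ℝ) ≤ 0 :=
      mul_nonpos_of_nonneg_of_nonpos hb0.le hb'
    intro hz
    have z1 : (1 - (b : ℝ)) * (c u v x : ℝ) = 0 := by linarith
    have z2 : (b : ℝ) * (c u v y : ℝ) = 0 := by linarith
    have w1 := (mul_eq_zero.mp z1).resolve_left (by linarith)
    have w2 := (mul_eq_zero.mp z2).resolve_left (by linarith)
    linarith

theorem draw : Pool.Agent.W595.Bond.Draw := by
  refine ⟨p, γ, p_inj, ?_, ?_, ?_⟩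
  · intro u v h
    exact γ_inj u v h.1
  · intro u v h t h0 h1 w hw
    by_cases hu : w = u
    · subst hu
      apply h0
      apply γ_inj w v h.1
      rw [hw, γ_zero]
    by_cases hv : w = v
    · subst hv
      apply h1
      apply γ_inj u w h.1
      rw [hw, γ_one]
    have hc := chk2 u v h.1 h.2 w hu hv
    apply hc
    have := cR_self u v t
    rw [hw, cR_p] at this
    exact_mod_cast this
  · intro u v x y h h' hne a b ha0 ha1 hb0 hb1 hab
    have n1 : ¬ (u = x ∧ v = y) := by
      rintro ⟨rfl, rfl⟩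
      exact hne rfl
    have n2 : ¬ (u = y ∧ v = x) := by
      rintro ⟨rfl, rfl⟩
      exact hne Sym2.eq_swap
    have hs := chk3 u v h.1 h.2 x y h'.1 h'.2 n1 n2
    rw [Bool.or_eq_true] at hs
    rcases hs with hs | hs
    · apply side_ne u v x y hs b hb0 hb1
      rw [← hab]
      exact cR_self u v a
    · apply side_ne x y u v hs a ha0 ha1
      rw [hab]
      exact cR_self x y b

end Pool.Agent.W91.BondDraw
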