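import Mathlib

set_option autoImplicit false
open scoped NumberField ComplexConjugate
open NumberField

namespace Pool.Agent.W91.Geo

variable (K : Type) [Field K] [NumberField K]

/-- the index set of an integral basis -/
abbrev Ib : Type := Module.Free.ChooseBasisIndex ℤ (𝓞 K)

omit [NumberField K] in
lemma conj_emb (φ : K →+* ℂ) (x : K) : ComplexEmbedding.conjugate φ x = conj (φ x) := rfl

lemma real_comb (w : (K →+* ℂ) → ℂ) (hw : ∀ φ, w (ComplexEmbedding.conjugate φ) = conj (w φ)) :
    ∃ t : Ib K → ℝ, ∀ φ : K →+* ℂ,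
      w φ = ∑ k, (t k : ℂ) * φ ((RingOfIntegers.basis K k : 𝓞 K) : K) := by
  let B := canonicalEmbedding.latticeBasis K
  have hB : ∀ k φ, B k φ = φ ((RingOfIntegers.basis K k : 𝓞 K) : K) := by
    intro k φ
    rw [canonicalEmbedding.latticeBasis_apply, integralBasis_apply]
    rfl
  have h1 : ∀ φ : K →+* ℂ, w φ = ∑ k, B.repr w k * φ ((RingOfIntegers.basis K k : 𝓞 K) : K) := by
    intro φ
    conv_lhs => rw [← B.sum_repr w]
    rw [Finset.sum_apply]
    refine Finset.sum_congr rfl fun k _ => ?_
    rw [Pi.smul_apply, smul_eq_mul, hB]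
  have h2 : w = ∑ k, conj (B.repr w k) • B k := by
    funext φ
    have h3 := h1 (ComplexEmbedding.conjugate φ)
    rw [hw φ] at h3
    have h4 := congrArg conj h3
    rw [Complex.conj_conj, map_sum] at h4
    rw [h4, Finset.sum_apply]
    refine Finset.sum_congr rfl fun k _ => ?_
    rw [Pi.smul_apply, smul_eq_mul, hB, map_mul, conj_emb, Complex.conj_conj]
  have h5 : ∀ k, B.repr w k = conj (B.repr w k) := by
    intro k
    have h6 := congrArg (fun z => B.repr z k) h2
    rw [B.repr_sum_self (fun k => conj (B.repr w k))] at h6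
    exact h6
  refine ⟨fun k => (B.repr w k).re, fun φ => ?_⟩
  rw [h1 φ]
  refine Finset.sum_congr rfl fun k _ => ?_
  rw [Complex.conj_eq_iff_re.mp (h5 k).symm]

variable {K} {n : ℕ} (a : Fin n → 𝓞 K)

/-- the standard relations -/
noncomputable def vv (i r : Fin n) (m : Fin n × Ib K) : Fin n → 𝓞 K :=
  if m.1 = i ∨ m.1 = r then 0 else
    Pi.single m.1 (a r * RingOfIntegers.basis K m.2) - Pi.single r (a m.1 * RingOfIntegers.basis K m.2)

lemma vv_rel (i r : Fin n) (m : Fin n × Ib K) : ∑ j, a j * vv a i r m j = 0 := by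
  unfold vv
  split_ifs with h
  · simp
  · simp only [Pi.sub_apply, mul_sub, Finset.sum_sub_distrib, Pi.single_apply, mul_ite, mul_zero,
      Finset.sum_ite_eq', Finset.mem_univ, if_true]
    ring

lemma vv_i (i r : Fin n) (hir : r ≠ i) (m : Fin n × Ib K) : vv a i r m i = 0 := by
  unfold vv
  split_ifs with h
  · rfl
  · push Not at h
    rw [Pi.sub_apply, Pi.single_eq_of_ne (Ne.symm h.1), Pi.single_eq_of_ne (Ne.symm hir), sub_zero]

lemma real_comb2 (i r : Fin n) (hir : r ≠ i) (har : a r ≠ 0) (x : Fin n → (K →+* ℂ) → ℂ)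
    (hx : ∀ j φ, x j (ComplexEmbedding.conjugate φ) = conj (x j φ))
    (hsum : ∀ φ : K →+* ℂ, ∑ j, φ (a j : K) * x j φ = 0) (hxi : ∀ φ, x i φ = 0) :
    ∃ t : Fin n × Ib K → ℝ, ∀ j (φ : K →+* ℂ), x j φ = ∑ m, (t m : ℂ) * φ (vv a i r m j : K) := by
  have har' : ∀ φ : K →+* ℂ, φ (a r : K) ≠ 0 := by
    intro φ h
    rw [map_eq_zero] at h
    exact har (RingOfIntegers.coe_eq_zero_iff.mp h)
  have h1 : ∀ k, ∃ t : Ib K → ℝ, ∀ φ : K →+* ℂ, x k φ / φ (a r : K) =
      ∑ m, (t m : ℂ) * φ ((RingOfIntegers.basis K m : 𝓞 K) : K) := by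
    intro k
    refine real_comb K (fun φ => x k φ / φ (a r : K)) fun φ => ?_
    rw [hx, conj_emb, map_div₀]
  choose t ht using h1
  refine ⟨fun m => t m.1 m.2, fun j φ => ?_⟩
  rw [Fintype.sum_prod_type]
  have h2 : ∀ k, ∑ m, (t k m : ℂ) * φ (vv a i r (k, m) j : K) =
      if k = i ∨ k = r then 0 else
        ((if j = k then φ (a r : K) else 0) - (if j = r then φ (a k : K) else 0)) *
          (x k φ / φ (a r : K)) := by
    intro k
    by_cases h : k = i ∨ k = r
    · rw [if_pos h]
      refine Finset.sum_eq_zero fun m _ => ?_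
      unfold vv
      rw [if_pos h]
      simp
    · rw [if_neg h, ht k φ, Finset.mul_sum]
      refine Finset.sum_congr rfl fun m _ => ?_
      have h3 : vv a i r (k, m) j = ((if j = k then a r else 0) - (if j = r then a k else 0)) *
          RingOfIntegers.basis K m := by
        unfold vv
        rw [if_neg h, Pi.sub_apply, Pi.single_apply, Pi.single_apply]
        split_ifs <;> ring
      rw [h3]
      split_ifs <;> simp <;> ring
  simp only [h2]
  by_cases hji : j = i
  · subst hji
    rw [hxi φ]
    symm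
    refine Finset.sum_eq_zero fun k _ => ?_
    split_ifs with h4 h5 h6
    · rfl
    · exact absurd h6.symm hir
    · exact absurd h5.symm (fun h => h4 (Or.inl h))
    · exact absurd (by assumption) (Ne.symm hir)
    · simp
  by_cases hjr : j = r
  · subst hjr
    have h4 : ∀ k, (if k = i ∨ k = j then 0 else
        ((if j = k then φ (a j : K) else 0) - (if j = j then φ (a k : K) else 0)) *
          (x k φ / φ (a j : K))) = (if k = j then x j φ else 0) - φ (a k : K) * x k φ / φ (a j : K) := by
      intro k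
      by_cases hkj : k = j
      · subst hkj
        rw [if_pos (Or.inr rfl), if_pos rfl, mul_div_cancel_left₀ _ (har' φ), sub_self]
      · by_cases hki : k = i
        · subst hki
          rw [if_pos (Or.inl rfl), if_neg hkj, hxi φ]
          simp
        · rw [if_neg (by tauto), if_neg (Ne.symm hkj), if_pos rfl, if_neg hkj]
          ring
    rw [Finset.sum_congr rfl fun k _ => h4 k, Finset.sum_sub_distrib, ← Finset.sum_div, hsum φ]
    simp
  · have h4 : ∀ k, (if k = i ∨ k = r then 0 else
        ((if j = k then φ (a r : K) else 0) - (if j = r then φ (a k : K) else 0)) *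
          (x k φ / φ (a r : K))) = (if k = j then x j φ else 0) := by
      intro k
      by_cases hkj : k = j
      · subst hkj
        rw [if_neg (by tauto), if_pos rfl, if_neg hjr, if_pos rfl, sub_zero,
          mul_div_cancel₀ _ (har' φ)]
      · rw [if_neg hkj, if_neg (Ne.symm hkj), if_neg hjr]
        simp
    rw [Finset.sum_congr rfl fun k _ => h4 k]
    simp

end Pool.Agent.W91.Geo
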