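import Mathlib

set_option autoImplicit false
open scoped InnerProductSpace ComplexConjugate

namespace Pool.Agent.W91.Gram

/-- greedy signs -/
lemma signs {ι : Type} [DecidableEq ι] (S : Finset ι) (β : ι → ℝ) (B : ℝ) (hB : 0 ≤ B)
    (hβ : ∀ j ∈ S, 0 ≤ β j ∧ β j ≤ B) :
    ∃ ε : ι → ℝ, (∀ j, ε j = 1 ∨ ε j = -1) ∧ |∑ j ∈ S, ε j * β j| ≤ B := by
  induction S using Finset.induction_on with
  | empty => exact ⟨fun _ => 1, fun _ => Or.inl rfl, by simpa using hB⟩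
  | insert a S ha ih =>
    obtain ⟨ε, hε, hs⟩ := ih fun j hj => hβ j (Finset.mem_insert_of_mem hj)
    obtain ⟨h0, h1⟩ := hβ a (Finset.mem_insert_self _ _)
    set s := ∑ j ∈ S, ε j * β j with hsdef
    refine ⟨Function.update ε a (if 0 ≤ s then -1 else 1), fun j => ?_, ?_⟩
    · by_cases hj : j = a
      · subst hj
        rw [Function.update_self]
        split_ifs
        · right; rfl
        · left; rfl
      · rw [Function.update_of_ne hj]; exact hε j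
    · rw [Finset.sum_insert ha, Function.update_self]
      have h2 : ∑ j ∈ S, Function.update ε a (if 0 ≤ s then -1 else 1) j * β j = s := by
        rw [hsdef]
        refine Finset.sum_congr rfl fun j hj => ?_
        rw [Function.update_of_ne (fun h => ha (by rw [← h]; exact hj))]
      rw [h2]
      rw [abs_le] at hs ⊢
      split_ifs with h3
      · constructor <;> linarith
      · push Not at h3
        constructor <;> linarith

/-- planar polygons -/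
lemma planar (n : ℕ) (β : Fin n → ℝ) (h0 : ∀ j, 0 ≤ β j)
    (h : ∀ i, β i ≤ ∑ j ∈ Finset.univ.erase i, β j) :
    ∃ e : Fin n → ℂ, (∀ j, ‖e j‖ = 1) ∧ ∑ j, (β j : ℂ) * e j = 0 := by
  classical
  rcases Nat.eq_zero_or_pos n with rfl | hn
  · exact ⟨fun _ => 1, fun j => j.elim0, by simp⟩
  obtain ⟨m, -, hm⟩ := Finset.exists_max_image (Finset.univ : Finset (Fin n)) β ⟨⟨0, hn⟩, Finset.mem_univ _⟩
  obtain ⟨ε, hε, hs⟩ := signs (Finset.univ.erase m) β (β m) (h0 m)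
    (fun j _ => ⟨h0 j, hm j (Finset.mem_univ j)⟩)
  let θ : Fin n → ℝ := fun j => if ε j = 1 then 0 else Real.pi
  let Z : ℝ → ℂ := fun t => ∑ j ∈ Finset.univ.erase m, (β j : ℂ) * Complex.exp ((t * θ j : ℝ) * Complex.I)
  have hcont : Continuous fun t => ‖Z t‖ := by
    apply Continuous.norm
    refine continuous_finsetSum _ fun j _ => ?_
    fun_prop
  have hZ0 : ‖Z 0‖ = ∑ j ∈ Finset.univ.erase m, β j := by
    have : Z 0 = ((∑ j ∈ Finset.univ.erase m, β j : ℝ) : ℂ) := by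
      simp [Z]
    rw [this, Complex.norm_real, Real.norm_of_nonneg (Finset.sum_nonneg fun j _ => h0 j)]
  have hZ1 : ‖Z 1‖ ≤ β m := by
    have : Z 1 = ((∑ j ∈ Finset.univ.erase m, ε j * β j : ℝ) : ℂ) := by
      simp only [Z]
      push_cast
      refine Finset.sum_congr rfl fun j _ => ?_
      by_cases hj : ε j = 1
      · simp [θ, hj]
      · have hj' := (hε j).resolve_left hj
        have hne : (-1 : ℝ) ≠ 1 := by norm_num
        simp [θ, hj', hne, Complex.exp_pi_mul_I]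
    rw [this, Complex.norm_real]
    exact hs
  obtain ⟨t, -, ht⟩ := intermediate_value_Icc' (zero_le_one (α := ℝ)) hcont.continuousOn
    ⟨hZ1, by rw [hZ0]; exact h m⟩
  have ht' : ‖Z t‖ = β m := ht
  by_cases hb : β m = 0
  · refine ⟨fun _ => 1, fun _ => norm_one, ?_⟩
    refine Finset.sum_eq_zero fun j _ => ?_
    have : β j = 0 := le_antisymm (hb ▸ hm j (Finset.mem_univ j)) (h0 j)
    rw [this]; simp
  · refine ⟨fun j => if j = m then -(Z t) / (β m : ℂ) else Complex.exp ((t * θ j : ℝ) * Complex.I),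
      fun j => ?_, ?_⟩
    · dsimp only
      split_ifs with hj
      · rw [norm_div, norm_neg, ht', Complex.norm_real, Real.norm_of_nonneg (h0 m), div_self hb]
      · exact Complex.norm_exp_ofReal_mul_I _
    · rw [← Finset.add_sum_erase _ _ (Finset.mem_univ m)]
      have h1 : ∑ j ∈ Finset.univ.erase m, (β j : ℂ) * (if j = m then -(Z t) / (β m : ℂ)
          else Complex.exp ((t * θ j : ℝ) * Complex.I)) = Z t := by
        refine Finset.sum_congr rfl fun j hj => ?_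
        rw [if_neg (Finset.mem_erase.mp hj).1]
      rw [h1]
      dsimp only
      rw [if_pos rfl, mul_div_cancel₀ _ (by exact_mod_cast hb)]
      ring

/-- the data of a thick polygon -/
lemma data (n : ℕ) (r : Fin n → ℝ) (h0 : ∀ j, 0 ≤ r j)
    (h : ∀ i, r i < ∑ j ∈ Finset.univ.erase i, r j) :
    ∃ (ρ : Fin n → ℝ) (e : Fin n → ℂ) (ε : ℝ), 0 < ε ∧ (∀ j, ‖e j‖ = 1) ∧
      (∀ j, ρ j ^ 2 + ε ^ 2 * (1 - r j ^ 2 / ∑ k, r k ^ 2) = 1) ∧
      ∑ j, ((r j * ρ j : ℝ) : ℂ) * e j = 0 := by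
  classical
  obtain ⟨ε, hε0, hε1, hε⟩ : ∃ ε : ℝ, 0 < ε ∧ ε < 1 ∧
      ∀ i, r i < √(1 - ε ^ 2) * ∑ j ∈ Finset.univ.erase i, r j := by
    have h1 : ∀ i, ∀ᶠ ε : ℝ in nhds 0, r i < √(1 - ε ^ 2) * ∑ j ∈ Finset.univ.erase i, r j := by
      intro i
      have hc : Continuous fun ε : ℝ => √(1 - ε ^ 2) * ∑ j ∈ Finset.univ.erase i, r j := by
        fun_prop
      apply hc.continuousAt.eventually_const_lt
      simpa using h i
    have h2 : ∀ᶠ ε : ℝ in nhds 0, ∀ i, r i < √(1 - ε ^ 2) * ∑ j ∈ Finset.univ.erase i, r j :=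
      Filter.eventually_all.mpr h1
    rw [Metric.eventually_nhds_iff] at h2
    obtain ⟨δ, hδ, h3⟩ := h2
    have hmin : 0 < min δ 1 := lt_min hδ one_pos
    refine ⟨min δ 1 / 2, by positivity, by have := min_le_right δ 1; linarith, fun i => ?_⟩
    apply h3
    rw [Real.dist_eq, sub_zero, abs_of_pos (by positivity)]
    have := min_le_left δ 1
    linarith
  set R2 := ∑ k, r k ^ 2 with hR2
  have hq : ∀ j, 0 ≤ 1 - r j ^ 2 / R2 ∧ 1 - r j ^ 2 / R2 ≤ 1 := by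
    intro j
    have h1 : r j ^ 2 ≤ R2 := Finset.single_le_sum (f := fun k => r k ^ 2)
      (fun k _ => sq_nonneg _) (Finset.mem_univ j)
    have h2 : 0 ≤ R2 := (sq_nonneg _).trans h1
    constructor
    · have := div_le_one_of_le₀ h1 h2
      linarith
    · have : 0 ≤ r j ^ 2 / R2 := by positivity
      linarith
  let ρ : Fin n → ℝ := fun j => √(1 - ε ^ 2 * (1 - r j ^ 2 / R2))
  have hε2 : ε ^ 2 < 1 := by nlinarith
  have hin : ∀ j, 0 ≤ 1 - ε ^ 2 * (1 - r j ^ 2 / R2) := by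
    intro j
    have := (hq j).1
    have := (hq j).2
    nlinarith [sq_nonneg ε]
  have hρ1 : ∀ j, ρ j ≤ 1 := by
    intro j
    have := (hq j).1
    exact Real.sqrt_le_one.mpr (by nlinarith [sq_nonneg ε])
  have hρ2 : ∀ j, √(1 - ε ^ 2) ≤ ρ j := by
    intro j
    apply Real.sqrt_le_sqrt
    have := (hq j).2
    nlinarith [sq_nonneg ε]
  obtain ⟨e, he1, he2⟩ := planar n (fun j => r j * ρ j)
    (fun j => mul_nonneg (h0 j) (Real.sqrt_nonneg _)) (fun i => by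
      calc r i * ρ i ≤ r i * 1 := mul_le_mul_of_nonneg_left (hρ1 i) (h0 i)
        _ = r i := mul_one _
        _ ≤ √(1 - ε ^ 2) * ∑ j ∈ Finset.univ.erase i, r j := (hε i).le
        _ = ∑ j ∈ Finset.univ.erase i, r j * √(1 - ε ^ 2) := by
            rw [Finset.mul_sum]; exact Finset.sum_congr rfl fun j _ => mul_comm _ _
        _ ≤ ∑ j ∈ Finset.univ.erase i, r j * ρ j :=
            Finset.sum_le_sum fun j _ => mul_le_mul_of_nonneg_left (hρ2 j) (h0 j))
  refine ⟨ρ, e, ε, hε0, he1, fun j => ?_, he2⟩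
  rw [Real.sq_sqrt (hin j)]
  ring

/-- the abstract decomposition -/
lemma abstract_gram {n : ℕ} {E : Type} [NormedAddCommGroup E] [InnerProductSpace ℂ E]
    [FiniteDimensional ℂ E] (α : Fin n → ℂ) (U : Fin n → E) (hU : ∀ i, ‖U i‖ = 1)
    (J : (Fin n → ℂ) →ₗ[ℂ] E) (hJ : ∀ z, ∑ j, α j * z j = 0 → ∀ j, ⟪U j, J z⟫_ℂ = z j)
    (c : Fin n → Fin n → ℂ) (hc : ∀ i j, c i j = ⟪U j, U i⟫_ℂ)
    (hcV : ∀ i, ∑ j, α j * c i j = 0) :
    ∃ T : (Fin n → ℂ) →ₗ[ℂ] E, ∀ z, ∑ j, α j * z j = 0 → ∀ i,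
      ‖T z‖ ^ 2 = ‖z i‖ ^ 2 + ‖T (z - z i • c i)‖ ^ 2 := by
  let S : Submodule ℂ E := Submodule.span ℂ (Set.range U)
  let T : (Fin n → ℂ) →ₗ[ℂ] E := (S.starProjection : E →ₗ[ℂ] E).comp J
  have hT : ∀ z, T z = S.starProjection (J z) := fun z => rfl
  have hUS : ∀ i, U i ∈ S := fun i => Submodule.subset_span ⟨i, rfl⟩
  have h1 : ∀ z, ∑ j, α j * z j = 0 → ∀ j, ⟪U j, T z⟫_ℂ = z j := by
    intro z hz j
    rw [hT, ← Submodule.inner_starProjection_left_eq_right,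
      Submodule.starProjection_eq_self_iff.mpr (hUS j), hJ z hz j]
  have h2 : ∀ i, T (c i) = U i := by
    intro i
    rw [hT]
    have h3 : S.starProjection (J (c i) - U i) = 0 := by
      rw [Submodule.starProjection_apply_eq_zero_iff, Submodule.mem_orthogonal]
      intro u hu
      induction hu using Submodule.span_induction with
      | mem x hx =>
        obtain ⟨j, rfl⟩ := hx
        rw [inner_sub_right, hJ _ (hcV i), hc, sub_self]
      | zero => exact inner_zero_left _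
      | add x y _ _ hx hy => rw [inner_add_left, hx, hy, add_zero]
      | smul a x _ hx => rw [inner_smul_left, hx, mul_zero]
    rw [map_sub, sub_eq_zero] at h3
    rw [h3, Submodule.starProjection_eq_self_iff.mpr (hUS i)]
  refine ⟨T, fun z hz i => ?_⟩
  rw [map_sub, map_smul, h2]
  have h4 := norm_sub_sq (𝕜 := ℂ) (T z) (z i • U i)
  rw [h4, inner_smul_right, ← inner_conj_symm, h1 z hz i, norm_smul, hU, mul_one]
  have h5 : RCLike.re (z i * (starRingEnd ℂ) (z i)) = ‖z i‖ ^ 2 := by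
    rw [Complex.mul_conj, Complex.normSq_eq_norm_sq]
    exact Complex.ofReal_re _
  rw [h5]
  ring

/-- the phase -/
noncomputable def ph (z : ℂ) : ℂ := if z = 0 then 1 else conj z / (‖z‖ : ℂ)

lemma ph_norm (z : ℂ) : ‖ph z‖ = 1 := by
  unfold ph
  split_ifs with h
  · exact norm_one
  · rw [norm_div, RCLike.norm_conj, Complex.norm_real, norm_norm, div_self (norm_ne_zero_iff.mpr h)]

lemma mul_ph (z : ℂ) : z * ph z = (‖z‖ : ℂ) := by
  unfold ph
  split_ifs with h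
  · simp [h]
  · have h1 : (‖z‖ : ℂ) ≠ 0 := by exact_mod_cast norm_ne_zero_iff.mpr h
    rw [mul_div_assoc', div_eq_iff h1, Complex.mul_conj, Complex.normSq_eq_norm_sq]
    push_cast
    ring

lemma ph_conj (z : ℂ) : ph (conj z) = conj (ph z) := by
  unfold ph
  by_cases h : z = 0
  · simp [h]
  · rw [if_neg h, if_neg (by simpa using h), map_div₀, Complex.conj_ofReal, RCLike.norm_conj]

lemma exists_dat {n : ℕ} (r : Fin n → ℝ) :
    ∃ p : (Fin n → ℝ) × (Fin n → ℂ) × ℝ, (∀ j, 0 ≤ r j) →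
      (∀ i, r i < ∑ j ∈ Finset.univ.erase i, r j) → 0 < p.2.2 ∧ (∀ j, ‖p.2.1 j‖ = 1) ∧
      (∀ j, p.1 j ^ 2 + p.2.2 ^ 2 * (1 - r j ^ 2 / ∑ k, r k ^ 2) = 1) ∧
      ∑ j, ((r j * p.1 j : ℝ) : ℂ) * p.2.1 j = 0 := by
  by_cases h : (∀ j, 0 ≤ r j) ∧ ∀ i, r i < ∑ j ∈ Finset.univ.erase i, r j
  · obtain ⟨ρ, e, ε, h1, h2, h3, h4⟩ := data n r h.1 h.2
    exact ⟨(ρ, e, ε), fun _ _ => ⟨h1, h2, h3, h4⟩⟩
  · exact ⟨(0, 0, 0), fun h1 h2 => absurd ⟨h1, h2⟩ h⟩

/-- a choice of the data -/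
noncomputable def P {n : ℕ} (r : Fin n → ℝ) : (Fin n → ℝ) × (Fin n → ℂ) × ℝ := (exists_dat r).choose

/-- the Gram matrix -/
noncomputable def gm {n : ℕ} (α : Fin n → ℂ) (i j : Fin n) : ℂ :=
  ((P fun k => ‖α k‖).1 j : ℂ) * ((P fun k => ‖α k‖).1 i : ℂ) * (ph (α j) * conj (ph (α i))) *
      ((((P fun k => ‖α k‖).2.1 j * conj ((P fun k => ‖α k‖).2.1 i)).re : ℝ) : ℂ) +
    ((P fun k => ‖α k‖).2.2 : ℂ) ^ 2 *
      ((if i = j then 1 else 0) - conj (α j) * α i / ((∑ k, ‖α k‖ ^ 2 : ℝ) : ℂ))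

lemma gm_conj {n : ℕ} (α : Fin n → ℂ) (i j : Fin n) :
    gm (fun k => conj (α k)) i j = conj (gm α i j) := by
  unfold gm
  simp only [RCLike.norm_conj, ph_conj, map_add, map_mul, map_pow, Complex.conj_ofReal, map_sub,
    map_div₀, Complex.conj_conj]
  congr 3
  split_ifs <;> simp

section main

variable {n : ℕ} (α : Fin n → ℂ) (h : ∀ i, ‖α i‖ < ∑ j ∈ Finset.univ.erase i, ‖α j‖)

include h in
lemma gm_spec : 0 < (P fun k => ‖α k‖).2.2 ∧ (∀ j, ‖(P fun k => ‖α k‖).2.1 j‖ = 1) ∧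
      (∀ j, (P fun k => ‖α k‖).1 j ^ 2 + (P fun k => ‖α k‖).2.2 ^ 2 *
        (1 - ‖α j‖ ^ 2 / ∑ k, ‖α k‖ ^ 2) = 1) ∧
      ∑ j, ((‖α j‖ * (P fun k => ‖α k‖).1 j : ℝ) : ℂ) * (P fun k => ‖α k‖).2.1 j = 0 :=
  (exists_dat fun k => ‖α k‖).choose_spec (fun _ => norm_nonneg _) h

include h in
lemma R2_pos (i : Fin n) : 0 < ∑ k, ‖α k‖ ^ 2 := by
  have h1 : 0 < ∑ j ∈ Finset.univ.erase i, ‖α j‖ := (norm_nonneg _).trans_lt (h i)
  obtain ⟨j, -, hj⟩ := Finset.exists_lt_of_sum_lt (s := Finset.univ.erase i)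
    (f := fun _ => (0 : ℝ)) (g := fun j => ‖α j‖) (by simpa using h1)
  exact Finset.sum_pos' (fun k _ => sq_nonneg _) ⟨j, Finset.mem_univ j, by positivity⟩

include h in
lemma gm_sum (i : Fin n) : ∑ j, α j * gm α i j = 0 := by
  obtain ⟨-, -, -, h4⟩ := gm_spec α h
  have hR := R2_pos α h i
  unfold gm
  simp only [mul_add, Finset.sum_add_distrib]
  have h1 : ∑ j, α j * (((P fun k => ‖α k‖).1 j : ℂ) * ((P fun k => ‖α k‖).1 i : ℂ) *
      (ph (α j) * conj (ph (α i))) *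
      ((((P fun k => ‖α k‖).2.1 j * conj ((P fun k => ‖α k‖).2.1 i)).re : ℝ) : ℂ)) = 0 := by
    have h2 : ∀ j, α j * (((P fun k => ‖α k‖).1 j : ℂ) * ((P fun k => ‖α k‖).1 i : ℂ) *
        (ph (α j) * conj (ph (α i))) *
        ((((P fun k => ‖α k‖).2.1 j * conj ((P fun k => ‖α k‖).2.1 i)).re : ℝ) : ℂ)) =
        ((P fun k => ‖α k‖).1 i : ℂ) * conj (ph (α i)) *
        (((((‖α j‖ * (P fun k => ‖α k‖).1 j : ℝ) : ℂ) * (P fun k => ‖α k‖).2.1 j *
          conj ((P fun k => ‖α k‖).2.1 i)).re : ℝ) : ℂ) := by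
      intro j
      rw [mul_assoc ((‖α j‖ * (P fun k => ‖α k‖).1 j : ℝ) : ℂ), Complex.re_ofReal_mul]
      push_cast
      rw [← mul_ph (α j)]
      ring
    simp only [h2]
    rw [← Finset.mul_sum, ← Complex.ofReal_sum, ← Complex.re_sum, ← Finset.sum_mul, h4]
    simp
  rw [h1, zero_add]
  have h3 : ∀ j, α j * (((P fun k => ‖α k‖).2.2 : ℂ) ^ 2 *
      ((if i = j then 1 else 0) - conj (α j) * α i / ((∑ k, ‖α k‖ ^ 2 : ℝ) : ℂ))) =
      ((P fun k => ‖α k‖).2.2 : ℂ) ^ 2 * ((if i = j then α j else 0) -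
        ((‖α j‖ ^ 2 : ℝ) : ℂ) * (α i / ((∑ k, ‖α k‖ ^ 2 : ℝ) : ℂ))) := by
    intro j
    have : ((‖α j‖ ^ 2 : ℝ) : ℂ) = α j * conj (α j) := by
      rw [Complex.mul_conj, Complex.normSq_eq_norm_sq]
    rw [this]
    split_ifs <;> ring
  simp only [h3]
  rw [← Finset.mul_sum, Finset.sum_sub_distrib, ← Finset.sum_mul, ← Complex.ofReal_sum,
    Finset.sum_ite_eq, if_pos (Finset.mem_univ i), mul_div_cancel₀, sub_self, mul_zero]
  exact_mod_cast hR.ne'

include h in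
lemma gm_diag (i : Fin n) : gm α i i = 1 := by
  obtain ⟨-, h2, h3, -⟩ := gm_spec α h
  unfold gm
  rw [Complex.mul_conj, Complex.mul_conj, Complex.normSq_eq_norm_sq, Complex.normSq_eq_norm_sq,
    ph_norm, h2, if_pos rfl, mul_comm (conj (α i)), Complex.mul_conj, Complex.normSq_eq_norm_sq]
  have := h3 i
  have h5 := congrArg (fun x : ℝ => (x : ℂ)) this
  push_cast at h5 ⊢
  rw [one_pow, Complex.one_re, Complex.ofReal_one]
  linear_combination h5

/-- the vectors -/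
noncomputable def U (i : Fin n) : EuclideanSpace ℂ (Fin 2 ⊕ Fin n) :=
  WithLp.toLp 2 (Sum.elim
    ![((P fun k => ‖α k‖).1 i : ℂ) * conj (ph (α i) * (P fun k => ‖α k‖).2.1 i) / (√2 : ℝ),
      ((P fun k => ‖α k‖).1 i : ℂ) * conj (ph (α i) * conj ((P fun k => ‖α k‖).2.1 i)) / (√2 : ℝ)]
    (fun m => ((P fun k => ‖α k‖).2.2 : ℂ) *
      ((if i = m then 1 else 0) - conj (α m) * α i / ((∑ k, ‖α k‖ ^ 2 : ℝ) : ℂ))))

include h in
lemma gm_inner (i j : Fin n) : gm α i j = ⟪U α j, U α i⟫_ℂ := by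
  have hR := R2_pos α h i
  have hR' : ((∑ k, ‖α k‖ ^ 2 : ℝ) : ℂ) ≠ 0 := by exact_mod_cast hR.ne'
  have hs : ((√2 : ℝ) : ℂ) * ((√2 : ℝ) : ℂ) = 2 := by
    rw [← Complex.ofReal_mul, Real.mul_self_sqrt (by norm_num)]; norm_num
  have hs0 : ((√2 : ℝ) : ℂ) ≠ 0 := by
    intro h0; rw [h0] at hs; norm_num at hs
  rw [PiLp.inner_apply, Fintype.sum_sum_type, Fin.sum_univ_two]
  unfold gm U
  simp only [RCLike.inner_apply, Sum.elim_inl, Sum.elim_inr, Matrix.cons_val_zero,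
    Matrix.cons_val_one]
  congr 1
  · simp only [map_div₀, map_mul, Complex.conj_ofReal, Complex.conj_conj]
    have h1 : ((((P fun k => ‖α k‖).2.1 j * conj ((P fun k => ‖α k‖).2.1 i)).re : ℝ) : ℂ) =
        ((P fun k => ‖α k‖).2.1 j * conj ((P fun k => ‖α k‖).2.1 i) +
          conj ((P fun k => ‖α k‖).2.1 j) * (P fun k => ‖α k‖).2.1 i) / 2 := by
      rw [Complex.re_eq_add_conj]
      simp
    rw [h1, ← hs]
    field_simp
  · simp only [map_mul, Complex.conj_ofReal, map_sub, map_div₀, Complex.conj_conj]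
    have h2 : ∀ m : Fin n, ((P fun k => ‖α k‖).2.2 : ℂ) *
        ((if i = m then 1 else 0) - conj (α m) * α i / ((∑ k, ‖α k‖ ^ 2 : ℝ) : ℂ)) *
        (((P fun k => ‖α k‖).2.2 : ℂ) *
        (conj (if j = m then (1 : ℂ) else 0) - α m * conj (α j) / ((∑ k, ‖α k‖ ^ 2 : ℝ) : ℂ))) =
        ((P fun k => ‖α k‖).2.2 : ℂ) ^ 2 *
        ((if i = m then (if j = m then 1 else 0) else 0) -
         (if i = m then α m * conj (α j) / ((∑ k, ‖α k‖ ^ 2 : ℝ) : ℂ) else 0) -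
         (if j = m then conj (α m) * α i / ((∑ k, ‖α k‖ ^ 2 : ℝ) : ℂ) else 0) +
         ((‖α m‖ ^ 2 : ℝ) : ℂ) * (conj (α j) * α i / ((∑ k, ‖α k‖ ^ 2 : ℝ) : ℂ) ^ 2)) := by
      intro m
      have : ((‖α m‖ ^ 2 : ℝ) : ℂ) = α m * conj (α m) := by
        rw [Complex.mul_conj, Complex.normSq_eq_norm_sq]
      rw [this]
      split_ifs <;> simp <;> ring
    rw [Finset.sum_congr rfl fun m _ => h2 m, ← Finset.mul_sum]
    congr 1
    rw [Finset.sum_add_distrib, Finset.sum_sub_distrib, Finset.sum_sub_distrib, ← Finset.sum_mul,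
      ← Complex.ofReal_sum, Finset.sum_ite_eq, Finset.sum_ite_eq, Finset.sum_ite_eq,
      if_pos (Finset.mem_univ i), if_pos (Finset.mem_univ i), if_pos (Finset.mem_univ j)]
    have h3 : (if j = i then (1 : ℂ) else 0) = if i = j then 1 else 0 := by
      simp only [eq_comm]
    rw [h3]
    field_simp
    ring

/-- the embedding of the constraint space -/
noncomputable def J : (Fin n → ℂ) →ₗ[ℂ] EuclideanSpace ℂ (Fin 2 ⊕ Fin n) where
  toFun z := WithLp.toLp 2 (Sum.elim 0 fun m => z m / ((P fun k => ‖α k‖).2.2 : ℂ))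
  map_add' z z' := by
    ext m
    rcases m with m | m
    · simp
    · simp [add_div]
  map_smul' t z := by
    ext m
    rcases m with m | m
    · simp
    · simp [mul_div_assoc]

include h in
lemma inner_J (z : Fin n → ℂ) (hz : ∑ j, α j * z j = 0) (j : Fin n) : ⟪U α j, J α z⟫_ℂ = z j := by
  have hR := R2_pos α h j
  have hR' : ((∑ k, ‖α k‖ ^ 2 : ℝ) : ℂ) ≠ 0 := by exact_mod_cast hR.ne'
  obtain ⟨h1, -⟩ := gm_spec α h
  have h1' : ((P fun k => ‖α k‖).2.2 : ℂ) ≠ 0 := by exact_mod_cast h1.ne'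
  rw [PiLp.inner_apply, Fintype.sum_sum_type, Fin.sum_univ_two]
  unfold U J
  simp only [LinearMap.coe_mk, AddHom.coe_mk, RCLike.inner_apply, Sum.elim_inl, Sum.elim_inr,
    Pi.zero_apply, zero_mul, zero_add, add_zero]
  have h2 : ∀ m : Fin n, z m / ((P fun k => ‖α k‖).2.2 : ℂ) *
      conj (((P fun k => ‖α k‖).2.2 : ℂ) *
      ((if j = m then 1 else 0) - conj (α m) * α j / ((∑ k, ‖α k‖ ^ 2 : ℝ) : ℂ))) =
      (if j = m then z m else 0) - α m * z m * (conj (α j) / ((∑ k, ‖α k‖ ^ 2 : ℝ) : ℂ)) := by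
    intro m
    simp only [map_mul, Complex.conj_ofReal, map_sub, map_div₀, Complex.conj_conj]
    split_ifs <;> simp <;> field_simp
  rw [Finset.sum_congr rfl fun m _ => h2 m, Finset.sum_sub_distrib, ← Finset.sum_mul, hz,
    Finset.sum_ite_eq, if_pos (Finset.mem_univ j)]
  ring

include h in
/-- the main decomposition -/
theorem decomp : ∃ T : (Fin n → ℂ) →ₗ[ℂ] EuclideanSpace ℂ (Fin 2 ⊕ Fin n),
    ∀ z, ∑ j, α j * z j = 0 → ∀ i, ‖T z‖ ^ 2 = ‖z i‖ ^ 2 + ‖T (z - z i • gm α i)‖ ^ 2 := by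
  refine abstract_gram α (U α) (fun i => ?_) (J α) (inner_J α h) (gm α) (gm_inner α h) (gm_sum α h)
  have h1 := gm_inner α h i i
  rw [gm_diag α h, inner_self_eq_norm_sq_to_K] at h1
  have h2 : ‖U α i‖ ^ 2 = 1 := by
    have h1' := h1.symm
    simp only [RCLike.ofReal_eq_complex_ofReal] at h1'
    exact_mod_cast h1'
  have h3 := norm_nonneg (U α i)
  nlinarith

end main

end Pool.Agent.W91.Gram
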