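import Mathlib
import Pool.Agent.W91.Geo1
import Pool.Agent.W91.Gram

set_option autoImplicit false
open scoped NumberField ComplexConjugate
open NumberField

namespace Pool.Agent.W91.Geo

variable {K : Type} [Field K] [NumberField K] {n : ℕ} (a : Fin n → 𝓞 K)

omit [NumberField K] in
/-- the archimedean criterion, with embeddings -/
lemma arch_emb (hA : ∀ v : NumberField.InfinitePlace K, ∀ i : Fin n,
      v (a i : K) < ∑ j ∈ Finset.univ.erase i, v (a j : K)) (φ : K →+* ℂ) (i : Fin n) :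
    ‖φ (a i : K)‖ < ∑ j ∈ Finset.univ.erase i, ‖φ (a j : K)‖ := by
  have := hA (InfinitePlace.mk φ) i
  simpa only [InfinitePlace.apply] using this

lemma exists_pivot (hA : ∀ v : NumberField.InfinitePlace K, ∀ i : Fin n,
      v (a i : K) < ∑ j ∈ Finset.univ.erase i, v (a j : K)) (i : Fin n) :
    ∃ r, r ≠ i ∧ a r ≠ 0 := by
  obtain ⟨φ⟩ : Nonempty (K →+* ℂ) := inferInstance
  have h1 := arch_emb a hA φ i
  have h2 : 0 < ∑ j ∈ Finset.univ.erase i, ‖φ (a j : K)‖ := (norm_nonneg _).trans_lt h1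
  by_contra h
  push Not at h
  have h3 : ∑ j ∈ Finset.univ.erase i, ‖φ (a j : K)‖ = 0 := by
    refine Finset.sum_eq_zero fun j hj => ?_
    rw [h j (Finset.mem_erase.mp hj).1]
    simp
  linarith

lemma mem_span (i : Fin n) (r : Fin n) (hr : r ≠ i) (har : a r ≠ 0)
    (hN : ∀ v : IsDedekindDomain.HeightOneSpectrum (𝓞 K), ∀ i : Fin n,
      ∃ j : Fin n, j ≠ i ∧ v.valuation K (a i : K) ≤ v.valuation K (a j : K)) :
    a i ∈ Ideal.span (Set.range fun j : {j // j ≠ i} => a j) := by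
  classical
  set I := Ideal.span (Set.range fun j : {j // j ≠ i} => a j) with hI
  have hmem : ∀ j, j ≠ i → a j ∈ I := fun j hj => Ideal.subset_span ⟨⟨j, hj⟩, rfl⟩
  let J : Ideal (𝓞 K) :=
    { carrier := {c | c * a i ∈ I}
      add_mem' := fun {x y} hx hy => by
        show (x + y) * a i ∈ I
        rw [add_mul]; exact I.add_mem hx hy
      zero_mem' := by
        show 0 * a i ∈ I
        rw [zero_mul]; exact I.zero_mem
      smul_mem' := fun c x hx => by
        show (c • x) * a i ∈ I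
        rw [smul_eq_mul, mul_assoc]; exact I.mul_mem_left c hx }
  have hJ : ∀ c, c ∈ J ↔ c * a i ∈ I := fun c => Iff.rfl
  by_contra hcon
  have hJtop : J ≠ ⊤ := by
    intro h
    have : (1 : 𝓞 K) ∈ J := by rw [h]; trivial
    rw [hJ, one_mul] at this
    exact hcon this
  obtain ⟨P, hP, hJP⟩ := Ideal.exists_le_maximal J hJtop
  have hP0 : P ≠ ⊥ := by
    intro h
    have h1 : a r ∈ J := by rw [hJ]; exact I.mul_mem_right _ (hmem r hr)
    have h2 := hJP h1
    rw [h, Ideal.mem_bot] at h2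
    exact har h2
  let v : IsDedekindDomain.HeightOneSpectrum (𝓞 K) := ⟨P, hP.isPrime, hP0⟩
  obtain ⟨j, hj, hv⟩ := hN v i
  rw [v.valuation_of_algebraMap, v.valuation_of_algebraMap] at hv
  by_cases haj : a j = 0
  · rw [haj, map_zero, le_zero_iff] at hv
    by_cases hai : a i = 0
    · exact hcon (by rw [hai]; exact I.zero_mem)
    · exact v.intValuation_ne_zero (a i) hai hv
  have hspan : Ideal.span {a j} ≠ 0 := by
    rw [Ne, Ideal.zero_eq_bot, Ideal.span_singleton_eq_bot]; exact haj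
  have hPu : ¬ IsUnit P := by
    rw [Ideal.isUnit_iff]; exact hP.ne_top
  obtain ⟨k, Q, hQ, hk⟩ := WfDvdMonoid.max_power_factor' hspan hPu
  have h1 : v.intValuation (a j) ≤ WithZero.exp (-(k : ℤ)) := by
    rw [v.intValuation_le_pow_iff_dvd]
    exact ⟨Q, hk⟩
  have h2 := (v.intValuation_le_pow_iff_mem _ _).mp (hv.trans h1)
  have h3 : ¬ Q ≤ P := fun h => hQ (Ideal.dvd_iff_le.mpr h)
  obtain ⟨d, hdQ, hdP⟩ := Set.not_subset.mp h3
  have h4 : d * a i ∈ Ideal.span {a j} := by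
    rw [hk, mul_comm d]
    exact Ideal.mul_mem_mul h2 hdQ
  have h5 : d ∈ J := by
    rw [hJ]
    refine (Ideal.span_le.mpr ?_) h4
    rw [Set.singleton_subset_iff]
    exact hmem j hj
  exact hdP (hJP h5)

lemma surj (i : Fin n) (r : Fin n) (hr : r ≠ i) (har : a r ≠ 0)
    (hN : ∀ v : IsDedekindDomain.HeightOneSpectrum (𝓞 K), ∀ i : Fin n,
      ∃ j : Fin n, j ≠ i ∧ v.valuation K (a i : K) ≤ v.valuation K (a j : K)) (y : 𝓞 K) :
    ∃ l : Fin n → 𝓞 K, ∑ j, a j * l j = 0 ∧ l i = y := by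
  classical
  obtain ⟨c, hc⟩ := Ideal.mem_span_range_iff_exists_fun.mp (mem_span a i r hr har hN)
  refine ⟨fun j => if h : j = i then y else - (c ⟨j, h⟩ * y), ?_, by simp⟩
  rw [← Finset.add_sum_erase _ _ (Finset.mem_univ i)]
  have h1 : ∑ j ∈ Finset.univ.erase i, a j * (if h : j = i then y else - (c ⟨j, h⟩ * y)) =
      ∑ j : {j // j ≠ i}, - ((c j * a j) * y) := by
    rw [Finset.sum_subtype (Finset.univ.erase i) (p := fun j => j ≠ i) (fun j => by simp)]
    refine Finset.sum_congr rfl fun j _ => ?_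
    rw [dif_neg j.2]
    ring
  rw [h1, Finset.sum_neg_distrib, ← Finset.sum_mul, hc]
  dsimp only
  rw [dif_pos rfl]
  ring

end Pool.Agent.W91.Geo
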