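import Mathlib
import Pool.Agent.W91.Geo2

set_option autoImplicit false
open scoped NumberField ComplexConjugate
open NumberField

namespace Pool.Agent.W91.Geo

variable {K : Type} [Field K] [NumberField K]

/-- the size of an integer -/
noncomputable def N1 (y : 𝓞 K) : ℝ := ‖(fun φ : K →+* ℂ => φ (y : K))‖

lemma N1_nonneg (y : 𝓞 K) : 0 ≤ N1 y := norm_nonneg _

lemma norm_le_N1 (y : 𝓞 K) (φ : K →+* ℂ) : ‖φ (y : K)‖ ≤ N1 y :=
  norm_le_pi_norm (fun φ : K →+* ℂ => φ (y : K)) φ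

variable {n : ℕ} (a : Fin n → 𝓞 K)

lemma descent (hn : 0 < n) (hA : ∀ v : NumberField.InfinitePlace K, ∀ i : Fin n,
      v (a i : K) < ∑ j ∈ Finset.univ.erase i, v (a j : K))
    (hN : ∀ v : IsDedekindDomain.HeightOneSpectrum (𝓞 K), ∀ i : Fin n,
      ∃ j : Fin n, j ≠ i ∧ v.valuation K (a i : K) ≤ v.valuation K (a j : K)) :
    ∃ θ C : ℝ, 0 ≤ θ ∧ θ < 1 ∧ 0 ≤ C ∧ ∀ (i : Fin n) (y : 𝓞 K), ∃ l : Fin n → 𝓞 K,
      ∑ j, a j * l j = 0 ∧ l i = y ∧ ∀ j, j ≠ i → N1 (l j) ≤ θ * N1 y + C := by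
  classical
  have hD : ∀ (i : Fin n) (φ : K →+* ℂ), 0 < ∑ k ∈ Finset.univ.erase i, ‖φ (a k : K)‖ :=
    fun i φ => (norm_nonneg _).trans_lt (arch_emb a hA φ i)
  obtain ⟨θ, hθ0, hθ1, hθ⟩ : ∃ θ : ℝ, 0 ≤ θ ∧ θ < 1 ∧ ∀ (i : Fin n) (φ : K →+* ℂ),
      ‖φ (a i : K)‖ / ∑ k ∈ Finset.univ.erase i, ‖φ (a k : K)‖ ≤ θ := by
    have : Nonempty (Fin n × (K →+* ℂ)) := ⟨⟨⟨0, hn⟩, Classical.arbitrary _⟩⟩
    obtain ⟨p, hp⟩ := Finite.exists_max (fun p : Fin n × (K →+* ℂ) =>
      ‖p.2 (a p.1 : K)‖ / ∑ k ∈ Finset.univ.erase p.1, ‖p.2 (a k : K)‖)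
    refine ⟨_, ?_, ?_, fun i φ => hp (i, φ)⟩
    · exact div_nonneg (norm_nonneg _) (hD _ _).le
    · rw [div_lt_one (hD _ _)]
      exact arch_emb a hA p.2 p.1
  choose r hr har using exists_pivot a hA
  refine ⟨θ, ∑ i, ∑ m, ∑ j, N1 (vv a i (r i) m j), hθ0, hθ1,
    Finset.sum_nonneg fun i _ => Finset.sum_nonneg fun m _ => Finset.sum_nonneg fun j _ =>
      N1_nonneg _, fun i y => ?_⟩
  obtain ⟨l0, hl0, hl0i⟩ := surj a i (r i) (hr i) (har i) hN y
  let z : Fin n → (K →+* ℂ) → ℂ := fun j φ => if j = i then φ (y : K) else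
    - (Gram.ph (φ (a j : K)) * φ (a i : K) * φ (y : K) /
      ((∑ k ∈ Finset.univ.erase i, ‖φ (a k : K)‖ : ℝ) : ℂ))
  obtain ⟨t, ht⟩ := real_comb2 a i (r i) (hr i) (har i) (fun j φ => z j φ - φ (l0 j : K))
    (by
      intro j φ
      simp only [z]
      rw [map_sub]
      simp only [conj_emb, RCLike.norm_conj, Gram.ph_conj]
      congr 1
      split_ifs
      · rfl
      · simp only [map_neg, map_div₀, map_mul, Complex.conj_ofReal])
    (by
      intro φ
      simp only [mul_sub, Finset.sum_sub_distrib]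
      have h1 : ∑ j, φ (a j : K) * φ (l0 j : K) = 0 := by
        have := congrArg (fun w : 𝓞 K => φ (w : K)) hl0
        simpa using this
      rw [h1, sub_zero, ← Finset.add_sum_erase _ _ (Finset.mem_univ i)]
      have h2 : ∑ j ∈ Finset.univ.erase i, φ (a j : K) * z j φ =
          ∑ j ∈ Finset.univ.erase i, -(((‖φ (a j : K)‖ : ℝ) : ℂ) * (φ (a i : K) * φ (y : K) /
      ((∑ k ∈ Finset.univ.erase i, ‖φ (a k : K)‖ : ℝ) : ℂ))) := by
        refine Finset.sum_congr rfl fun j hj => ?_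
        simp only [z]
        rw [if_neg (Finset.mem_erase.mp hj).1, ← Gram.mul_ph]
        ring
      rw [h2, Finset.sum_neg_distrib, ← Finset.sum_mul, ← Complex.ofReal_sum, mul_div_cancel₀]
      · simp [z]
      · exact_mod_cast (hD i φ).ne')
    (by
      intro φ
      simp only [z]
      rw [if_pos trivial, hl0i, sub_self])
  have hl : ∀ j, (l0 + ∑ m, round (t m) • vv a i (r i) m) j =
      l0 j + ∑ m, round (t m) • vv a i (r i) m j := by
    intro j
    rw [Pi.add_apply, Finset.sum_apply]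
    rfl
  refine ⟨l0 + ∑ m, round (t m) • vv a i (r i) m, ?_, ?_, fun j hj => ?_⟩
  · simp only [hl, mul_add, Finset.sum_add_distrib, hl0, zero_add, Finset.mul_sum]
    rw [Finset.sum_comm]
    refine Finset.sum_eq_zero fun m _ => ?_
    have : ∑ j, a j * round (t m) • vv a i (r i) m j =
        round (t m) • ∑ j, a j * vv a i (r i) m j := by
      rw [Finset.smul_sum]
      exact Finset.sum_congr rfl fun j _ => mul_smul_comm _ _ _
    rw [this, vv_rel, smul_zero]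
  · rw [hl, hl0i]
    simp [vv_i a i (r i) (hr i)]
  · rw [hl]
    have hC : (0 : ℝ) ≤ ∑ i, ∑ m, ∑ j, N1 (vv a i (r i) m j) :=
      Finset.sum_nonneg fun i _ => Finset.sum_nonneg fun m _ => Finset.sum_nonneg fun j _ =>
        N1_nonneg _
    refine (pi_norm_le_iff_of_nonneg (add_nonneg (mul_nonneg hθ0 (N1_nonneg _)) hC)).mpr fun φ => ?_
    have h3 : φ ((l0 j + ∑ m, round (t m) • vv a i (r i) m j : 𝓞 K) : K) =
        z j φ + ∑ m, ((round (t m) - t m : ℝ) : ℂ) * φ (vv a i (r i) m j : K) := by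
      have h4 : φ ((l0 j + ∑ m, round (t m) • vv a i (r i) m j : 𝓞 K) : K) =
          φ (l0 j : K) + ∑ m, (round (t m) : ℂ) * φ (vv a i (r i) m j : K) := by
        simp
      rw [h4]
      have h5 := ht j φ
      rw [sub_eq_iff_eq_add] at h5
      rw [h5]
      push_cast
      simp only [sub_mul, Finset.sum_sub_distrib]
      ring
    rw [h3]
    refine (norm_add_le _ _).trans (add_le_add ?_ ?_)
    · simp only [z]
      rw [if_neg hj, norm_neg, norm_div, norm_mul, norm_mul, Gram.ph_norm, one_mul,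
        Complex.norm_real, Real.norm_of_nonneg (hD i φ).le]
      calc ‖φ (a i : K)‖ * ‖φ (y : K)‖ / ∑ k ∈ Finset.univ.erase i, ‖φ (a k : K)‖
          = ‖φ (a i : K)‖ / (∑ k ∈ Finset.univ.erase i, ‖φ (a k : K)‖) * ‖φ (y : K)‖ := by ring
        _ ≤ θ * N1 y := mul_le_mul (hθ i φ) (norm_le_N1 y φ) (norm_nonneg _) hθ0
    · calc ‖∑ m, ((round (t m) - t m : ℝ) : ℂ) * φ (vv a i (r i) m j : K)‖
          ≤ ∑ m, ‖((round (t m) - t m : ℝ) : ℂ) * φ (vv a i (r i) m j : K)‖ := norm_sum_le _ _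
        _ ≤ ∑ m, N1 (vv a i (r i) m j) := by
            refine Finset.sum_le_sum fun m _ => ?_
            rw [norm_mul, Complex.norm_real, Real.norm_eq_abs]
            calc |(round (t m) : ℝ) - t m| * ‖φ (vv a i (r i) m j : K)‖
                ≤ 1 * N1 (vv a i (r i) m j) := by
                  refine mul_le_mul ?_ (norm_le_N1 _ φ) (norm_nonneg _) zero_le_one
                  rw [abs_sub_comm]
                  exact (abs_sub_round (t m)).trans (by norm_num)
              _ = _ := one_mul _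
        _ ≤ ∑ m, ∑ j, N1 (vv a i (r i) m j) := by
            refine Finset.sum_le_sum fun m _ => ?_
            exact Finset.single_le_sum (f := fun j => N1 (vv a i (r i) m j))
              (fun j _ => N1_nonneg _) (Finset.mem_univ j)
        _ ≤ ∑ i, ∑ m, ∑ j, N1 (vv a i (r i) m j) :=
            Finset.single_le_sum (f := fun i => ∑ m, ∑ j, N1 (vv a i (r i) m j))
              (fun i _ => Finset.sum_nonneg fun m _ => Finset.sum_nonneg fun j _ => N1_nonneg _)
              (Finset.mem_univ i)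

/-- the height -/
lemma exists_height {X : Type} (N : X → ℝ) (hN0 : ∀ y, 0 ≤ N y) (θ C : ℝ) (hθ0 : 0 ≤ θ)
    (hθ1 : θ < 1) (hC : 0 ≤ C) (n : ℕ) :
    ∃ (ht : X → ℕ) (R0 C1 : ℝ) (p : ℕ), 0 ≤ C1 ∧
      (∀ y z, 0 < ht y → N z ≤ θ * N y + C → ht z < ht y) ∧
      (∀ y, ht y = 0 → N y ≤ R0) ∧ (∀ y, ((n : ℝ) ^ 2) ^ ht y ≤ C1 * (1 + N y) ^ p) := by
  classical
  set γ : ℝ := 2 / (1 + θ) with hγ
  have hγ1 : 1 < γ := by rw [hγ, one_lt_div (by linarith)]; linarith
  have hγθ : θ * γ < 1 := by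
    rw [hγ, mul_div_assoc', div_lt_one (by linarith)]; linarith
  set R0 : ℝ := C / (1 - θ * γ) + 1 with hR0
  have hR01 : 1 ≤ R0 := by
    have : 0 ≤ C / (1 - θ * γ) := div_nonneg hC (by linarith)
    linarith
  have hRC : C ≤ (1 - θ * γ) * R0 := by
    rw [hR0, mul_add, mul_div_cancel₀ _ (by linarith)]
    linarith
  have hex : ∀ y, ∃ r : ℕ, N y ≤ R0 * γ ^ r := by
    intro y
    obtain ⟨r, hr⟩ := pow_unbounded_of_one_lt (N y) hγ1
    refine ⟨r, hr.le.trans ?_⟩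
    have : 0 < γ ^ r := by positivity
    nlinarith
  obtain ⟨p, hp⟩ := pow_unbounded_of_one_lt ((n : ℝ) ^ 2) hγ1
  have hle : ∀ y, N y ≤ R0 * γ ^ (Nat.find (hex y)) := fun y => Nat.find_spec (hex y)
  refine ⟨fun y => Nat.find (hex y), R0, γ ^ p, p, by positivity, fun y z hy hz => ?_,
    fun y hy => ?_, fun y => ?_⟩
  · have hy' : 0 < Nat.find (hex y) := hy
    obtain ⟨r, hr⟩ : ∃ r, Nat.find (hex y) = r + 1 := ⟨Nat.find (hex y) - 1, by omega⟩
    have h1 := hle y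
    rw [hr] at h1
    have h2 : N z ≤ R0 * γ ^ r := by
      have h3 : (1 : ℝ) ≤ γ ^ r := one_le_pow₀ hγ1.le
      calc N z ≤ θ * (R0 * γ ^ (r + 1)) + C := hz.trans (by gcongr)
        _ = (θ * γ) * (R0 * γ ^ r) + C := by ring
        _ ≤ (θ * γ) * (R0 * γ ^ r) + (1 - θ * γ) * R0 * γ ^ r := by
            have : C * 1 ≤ (1 - θ * γ) * R0 * γ ^ r :=
              mul_le_mul hRC h3 zero_le_one (by
                refine mul_nonneg (by linarith) (by linarith))
            linarith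
        _ = R0 * γ ^ r := by ring
    have h4 := Nat.find_min' (hex z) h2
    show Nat.find (hex z) < Nat.find (hex y)
    omega
  · have h1 := hle y
    have h2 : Nat.find (hex y) = 0 := hy
    rw [h2] at h1
    simpa using h1
  · show ((n : ℝ) ^ 2) ^ (Nat.find (hex y)) ≤ _
    have hN := hN0 y
    rcases Nat.eq_zero_or_pos (Nat.find (hex y)) with h0 | h0
    · rw [h0, pow_zero]
      have h1 : (1 : ℝ) ≤ γ ^ p := one_le_pow₀ hγ1.le
      have h2 : (1 : ℝ) ≤ (1 + N y) ^ p := one_le_pow₀ (by linarith)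
      nlinarith
    · obtain ⟨r, hr⟩ : ∃ r, Nat.find (hex y) = r + 1 := ⟨Nat.find (hex y) - 1, by omega⟩
      have h1 : ¬ N y ≤ R0 * γ ^ r := Nat.find_min (hex y) (by omega)
      push Not at h1
      have h2 : γ ^ r ≤ 1 + N y := by
        have h3 : 0 < γ ^ r := by positivity
        nlinarith
      rw [hr]
      calc ((n : ℝ) ^ 2) ^ (r + 1) ≤ (γ ^ p) ^ (r + 1) := by gcongr
        _ = γ ^ p * (γ ^ r) ^ p := by ring
        _ ≤ γ ^ p * (1 + N y) ^ p := by gcongr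

end Pool.Agent.W91.Geo
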