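import Mathlib

set_option autoImplicit false
open Real

namespace Pool.Agent.W91.Theta

lemma summable_gauss (s : ℝ) (hs : 0 < s) (b : ℝ) :
    Summable fun k : ℤ => rexp (-π * s * (k + b) ^ 2) := by
  have h := (summable_jacobiTheta₂_term_iff (Complex.I * s * b) (Complex.I * s)).mpr (by simpa using hs)
  have h2 := (h.mul_left (Complex.exp (-π * s * b ^ 2))).norm
  refine h2.congr fun k => ?_
  rw [jacobiTheta₂_term, ← Complex.exp_add, Complex.norm_exp]
  congr 1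
  have : (-(π : ℂ) * s * b ^ 2 + (2 * π * Complex.I * k * (Complex.I * s * b)
      + π * Complex.I * k ^ 2 * (Complex.I * s))) = ((-π * s * (k + b) ^ 2 : ℝ) : ℂ) := by
    push_cast
    have h3 := Complex.I_sq
    linear_combination (2 * (π : ℂ) * k * s * b + π * k ^ 2 * s) * h3
  rw [this, Complex.ofReal_re]

lemma poisson (s : ℝ) (hs : 0 < s) (b : ℝ) :
    ((√s * ∑' k : ℤ, rexp (-π * s * (k + b) ^ 2) : ℝ) : ℂ)
      = ∑' n : ℤ, Complex.exp (-π * (1 / s : ℝ) * n ^ 2 + 2 * π * (-Complex.I * b) * n) := by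
  have h := Complex.tsum_exp_neg_quadratic (a := ((1 / s : ℝ) : ℂ)) (by
    rw [Complex.ofReal_re]; positivity) (-Complex.I * b)
  rw [h]
  push_cast
  congr 1
  · have h1 : ((1 / (s : ℂ)) ^ (1 / 2 : ℂ)) = ((√(1 / s) : ℝ) : ℂ) := by
      rw [Real.sqrt_eq_rpow, Complex.ofReal_cpow (by positivity)]
      push_cast
      rfl
    rw [h1, ← Complex.ofReal_one, ← Complex.ofReal_div]
    congr 1
    rw [Real.sqrt_div zero_le_one, Real.sqrt_one]
    field_simp
  · refine tsum_congr fun k => ?_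
    congr 1
    have h3 := Complex.I_mul_I
    have hs' : (s : ℂ) ≠ 0 := by exact_mod_cast hs.ne'
    have : Complex.I * (-Complex.I * (b : ℂ)) = b := by linear_combination (-(b : ℂ)) * h3
    rw [this]
    field_simp

lemma theta_bound (s : ℝ) (hs : 0 < s) (hs1 : s ≤ 1) (b : ℝ) :
    |√s * ∑' k : ℤ, rexp (-π * s * (k + b) ^ 2) - 1| ≤ 4 * rexp (-π / s) := by
  set f : ℤ → ℂ := fun n =>
    Complex.exp (-π * (1 / s : ℝ) * n ^ 2 + 2 * π * (-Complex.I * b) * n) with hf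
  have hnorm : ∀ n, ‖f n‖ = rexp (-π * (1 / s) * (n + 0) ^ 2) := by
    intro n
    rw [hf, Complex.norm_exp]
    congr 1
    simp [pow_two]
  have hsumm : Summable f := by
    apply Summable.of_norm
    simp only [hnorm]
    exact_mod_cast summable_gauss (1 / s) (by positivity) 0
  -- split off `0`
  have h0 : f 0 = 1 := by simp [hf]
  set u := rexp (-π / s) with hu
  have hu0 : 0 < u := Real.exp_pos _
  have hu1 : u ≤ 1 / 2 := by
    have h1 : -π / s ≤ -3 := by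
      rw [div_le_iff₀ hs]
      nlinarith [Real.pi_gt_three]
    have h2 : u ≤ rexp (-3) := Real.exp_le_exp.mpr h1
    have h3 : (4 : ℝ) ≤ rexp 3 := by
      have := Real.add_one_le_exp (3 : ℝ)
      linarith
    have h4 : rexp (-3) = (rexp 3)⁻¹ := Real.exp_neg 3
    have h5 : (rexp 3)⁻¹ ≤ 4⁻¹ := inv_anti₀ (by norm_num) h3
    linarith
  have hpos : ∀ n : ℕ, ‖f (n + 1)‖ ≤ u ^ (n + 1) := by
    intro n
    rw [hnorm, hu, ← Real.exp_nat_mul]
    apply Real.exp_le_exp.mpr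
    push_cast
    have h1 : (1 : ℝ) ≤ n + 1 := by have := Nat.cast_nonneg (α := ℝ) n; linarith
    have h2 : ((n : ℝ) + 1) ≤ ((n : ℝ) + 1 + 0) ^ 2 := by nlinarith
    have h3 : 0 < π * (1 / s) := by positivity
    have e : ((n : ℝ) + 1) * (-π / s) = -(π * (1 / s)) * (n + 1) := by ring
    rw [e]
    nlinarith
  have hneg : ∀ n : ℕ, ‖f (-(n + 1 : ℤ))‖ ≤ u ^ (n + 1) := by
    intro n
    have := hpos n
    rw [hnorm] at this ⊢
    convert this using 3
    push_cast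
    ring
  have hgeo : Summable fun n : ℕ => u ^ (n + 1) := by
    have := (summable_geometric_of_lt_one hu0.le (by linarith : u < 1)).mul_left u
    refine this.congr fun n => ?_
    rw [pow_succ']
  have hgeo2 : ∑' n : ℕ, u ^ (n + 1) ≤ 2 * u := by
    have h1 : ∑' n : ℕ, u ^ (n + 1) = u * (1 - u)⁻¹ := by
      rw [← tsum_geometric_of_lt_one hu0.le (by linarith : u < 1), ← tsum_mul_left]
      exact tsum_congr fun n => pow_succ' _ _
    rw [h1]
    have h2 : (1 - u)⁻¹ ≤ 2 := by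
      rw [inv_le_comm₀ (by linarith) (by norm_num)]
      linarith
    nlinarith
  have hsplit : ∑' n : ℤ, f n = 1 + ∑' n : ℕ, f (n + 1) + ∑' n : ℕ, f (-(n + 1 : ℤ)) := by
    rw [tsum_of_add_one_of_neg_add_one
      (hsumm.comp_injective (i := fun n : ℕ => ((n : ℤ) + 1)) (fun a b h => by simpa using h))
      (hsumm.comp_injective (i := fun n : ℕ => (-((n : ℤ) + 1))) (fun a b h => by simpa using h)), h0]
    ring
  have hfin : ‖(∑' n : ℤ, f n) - 1‖ ≤ 4 * u := by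
    rw [hsplit]
    have e : (1 + ∑' n : ℕ, f (n + 1) + ∑' n : ℕ, f (-(n + 1 : ℤ)) - 1 : ℂ)
        = ∑' n : ℕ, f (n + 1) + ∑' n : ℕ, f (-(n + 1 : ℤ)) := by ring
    rw [e]
    have h1 : ‖∑' n : ℕ, f (n + 1)‖ ≤ 2 * u :=
      (tsum_of_norm_bounded hgeo.hasSum hpos).trans hgeo2
    have h2 : ‖∑' n : ℕ, f (-(n + 1 : ℤ))‖ ≤ 2 * u :=
      (tsum_of_norm_bounded hgeo.hasSum hneg).trans hgeo2
    refine (norm_add_le _ _).trans ?_
    linarith
  have h3 : ((√s * ∑' k : ℤ, rexp (-π * s * (k + b) ^ 2) - 1 : ℝ) : ℂ) = (∑' n : ℤ, f n) - 1 := by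
    rw [Complex.ofReal_sub, poisson s hs b, Complex.ofReal_one]
  rw [← h3, Complex.norm_real] at hfin
  exact hfin

/-- the ratio bound -/
lemma theta_ratio (s : ℝ) (hs : 0 < s) (hs1 : s ≤ 1) (b b' : ℝ) :
    ∑' k : ℤ, rexp (-π * s * (k + b) ^ 2)
      ≤ (1 + 16 * rexp (-π / s)) * ∑' k : ℤ, rexp (-π * s * (k + b') ^ 2) := by
  have h1 := abs_le.mp (theta_bound s hs hs1 b)
  have h2 := abs_le.mp (theta_bound s hs hs1 b')
  set u := rexp (-π / s)
  set A := ∑' k : ℤ, rexp (-π * s * (k + b) ^ 2)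
  set B := ∑' k : ℤ, rexp (-π * s * (k + b') ^ 2)
  have hu0 : 0 < u := Real.exp_pos _
  have hu1 : u ≤ 1 / 19 := by
    have h1 : -π / s ≤ -3 := by
      rw [div_le_iff₀ hs]
      nlinarith [Real.pi_gt_three]
    have h2 : u ≤ rexp (-3) := Real.exp_le_exp.mpr h1
    have h3 : (19 : ℝ) ≤ rexp 3 := by
      have h := Real.exp_one_gt_d9
      have : rexp 3 = rexp 1 ^ 3 := by rw [← Real.exp_nat_mul]; norm_num
      rw [this]
      calc (19 : ℝ) ≤ 2.7182818283 ^ 3 := by norm_num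
        _ ≤ rexp 1 ^ 3 := by gcongr
    have h4 : rexp (-3) = (rexp 3)⁻¹ := Real.exp_neg 3
    have h5 : (rexp 3)⁻¹ ≤ 19⁻¹ := inv_anti₀ (by norm_num) h3
    linarith
  have hs2 : 0 < √s := Real.sqrt_pos.mpr hs
  have h3 : √s * A ≤ √s * ((1 + 16 * u) * B) := by
    have e : √s * ((1 + 16 * u) * B) = (1 + 16 * u) * (√s * B) := by ring
    rw [e]
    nlinarith
  exact le_of_mul_le_mul_left h3 hs2

end Pool.Agent.W91.Theta
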