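import Mathlib
import Pool.Agent.W91.Theta1

set_option autoImplicit false
open Real
open scoped InnerProductSpace

namespace Pool.Agent.W91.Theta

variable {L E : Type} [AddCommGroup L] [NormedAddCommGroup E] [InnerProductSpace ℝ E]

/-- the theta function of a lattice -/
noncomputable def Th (τ : L →+ E) (s : ℝ) (z : E) : ENNReal :=
  ∑' μ : L, ENNReal.ofReal (rexp (-π * s * ‖τ μ + z‖ ^ 2))

/-- one direction of the decomposition of `L` along `v` -/
noncomputable def lineEquiv (τ : L →+ E) (v : L) (hv : τ v ≠ 0) :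
    ((L ⧸ AddSubgroup.zmultiples v) × ℤ) ≃ L :=
  Equiv.ofBijective (fun p => Quotient.out p.1 + p.2 • v) (by
    constructor
    · rintro ⟨q, k⟩ ⟨q', k'⟩ h
      have h' : Quotient.out q + k • v = Quotient.out q' + k' • v := h
      have hq : q = q' := by
        have h1 : ((Quotient.out q + k • v : L) : L ⧸ AddSubgroup.zmultiples v)
            = ((Quotient.out q' + k' • v : L) : L ⧸ AddSubgroup.zmultiples v) := by rw [h']
        have h2 : ∀ m : ℤ, ((m • v : L) : L ⧸ AddSubgroup.zmultiples v) = 0 := fun m => by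
          rw [QuotientAddGroup.eq_zero_iff]
          exact AddSubgroup.zsmul_mem_zmultiples v m
        rw [QuotientAddGroup.mk_add, QuotientAddGroup.mk_add, h2, h2, add_zero, add_zero] at h1
        have h3 : ∀ q : L ⧸ AddSubgroup.zmultiples v, ((Quotient.out q : L) : L ⧸ AddSubgroup.zmultiples v) = q :=
          fun q => QuotientAddGroup.out_eq' q
        rwa [h3, h3] at h1
      subst hq
      have h4 : k • v = k' • v := add_left_cancel h'
      have h5 : k = k' := by
        by_contra hne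
        have h6 : (k - k') • v = 0 := by rw [sub_smul, h4, sub_self]
        have h7 : ((k - k' : ℤ) : ℝ) • τ v = 0 := by
          rw [Int.cast_smul_eq_zsmul, ← map_zsmul, h6, map_zero]
        rcases smul_eq_zero.mp h7 with h8 | h8
        · exact hne (by have : k - k' = 0 := by exact_mod_cast h8
                        omega)
        · exact hv h8
      rw [h5]
    · intro μ
      have h3 : ((Quotient.out (μ : L ⧸ AddSubgroup.zmultiples v) : L) : L ⧸ AddSubgroup.zmultiples v) = μ :=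
        QuotientAddGroup.out_eq' _
      rw [QuotientAddGroup.eq] at h3
      obtain ⟨k, hk⟩ := AddSubgroup.mem_zmultiples_iff.mp h3
      refine ⟨((μ : L ⧸ AddSubgroup.zmultiples v), k), ?_⟩
      simp only [hk]
      abel)

lemma line_id (w u : E) (hu : u ≠ 0) (x : ℝ) :
    ‖w + x • u‖ ^ 2 = ‖u‖ ^ 2 * (x + ⟪w, u⟫_ℝ / ‖u‖ ^ 2) ^ 2
      + (‖w‖ ^ 2 - ⟪w, u⟫_ℝ ^ 2 / ‖u‖ ^ 2) := by
  have hu' : ‖u‖ ≠ 0 := norm_ne_zero_iff.mpr hu
  rw [norm_add_sq_real, norm_smul, inner_smul_right, mul_pow, Real.norm_eq_abs, sq_abs]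
  field_simp
  ring

theorem translate (τ : L →+ E) (s : ℝ) (hs : 0 < s) (v : L) (hv : τ v ≠ 0)
    (hs1 : s * ‖τ v‖ ^ 2 ≤ 1) (z : E) (t : ℝ) :
    Th τ s (z + t • τ v) ≤ ENNReal.ofReal (1 + 16 * rexp (-π / (s * ‖τ v‖ ^ 2))) * Th τ s z := by
  unfold Th
  rw [← (lineEquiv τ v hv).tsum_eq, ← (lineEquiv τ v hv).tsum_eq (fun μ => ENNReal.ofReal
    (rexp (-π * s * ‖τ μ + z‖ ^ 2))), ENNReal.tsum_prod', ENNReal.tsum_prod', ← ENNReal.tsum_mul_left]
  refine ENNReal.tsum_le_tsum fun q => ?_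
  set u := τ v with hu
  set w := τ (Quotient.out q) + z with hw
  have hu0 : 0 < ‖u‖ ^ 2 := by positivity
  have hs' : 0 < s * ‖u‖ ^ 2 := by positivity
  set A := ‖w‖ ^ 2 - ⟪w, u⟫_ℝ ^ 2 / ‖u‖ ^ 2
  set b := ⟪w, u⟫_ℝ / ‖u‖ ^ 2
  have e1 : ∀ k : ℤ, rexp (-π * s * ‖τ (lineEquiv τ v hv (q, k)) + (z + t • u)‖ ^ 2)
      = rexp (-π * s * A) * rexp (-π * (s * ‖u‖ ^ 2) * (k + (t + b)) ^ 2) := by
    intro k
    have h1 : τ (lineEquiv τ v hv (q, k)) + (z + t • u) = w + ((k : ℝ) + t) • u := by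
      have h2 : lineEquiv τ v hv (q, k) = Quotient.out q + k • v := rfl
      rw [h2, map_add, map_zsmul, ← hu, hw, add_smul, Int.cast_smul_eq_zsmul]
      abel
    rw [h1, line_id w u hv, ← Real.exp_add]
    congr 1
    ring
  have e2 : ∀ k : ℤ, rexp (-π * s * ‖τ (lineEquiv τ v hv (q, k)) + z‖ ^ 2)
      = rexp (-π * s * A) * rexp (-π * (s * ‖u‖ ^ 2) * (k + b) ^ 2) := by
    intro k
    have h1 : τ (lineEquiv τ v hv (q, k)) + z = w + (k : ℝ) • u := by
      have h2 : lineEquiv τ v hv (q, k) = Quotient.out q + k • v := rfl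
      rw [h2, map_add, map_zsmul, ← hu, hw, Int.cast_smul_eq_zsmul]
      abel
    rw [h1, line_id w u hv, ← Real.exp_add]
    congr 1
    ring
  have s1 := (summable_gauss (s * ‖u‖ ^ 2) hs' (t + b)).mul_left (rexp (-π * s * A))
  have s2 := (summable_gauss (s * ‖u‖ ^ 2) hs' b).mul_left (rexp (-π * s * A))
  simp only [e1, e2]
  rw [← ENNReal.ofReal_tsum_of_nonneg (fun k => by positivity) s1,
    ← ENNReal.ofReal_tsum_of_nonneg (fun k => by positivity) s2, ← ENNReal.ofReal_mul (by positivity)]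
  apply ENNReal.ofReal_le_ofReal
  rw [tsum_mul_left, tsum_mul_left]
  have := theta_ratio (s * ‖u‖ ^ 2) hs' hs1 (t + b) b
  calc rexp (-π * s * A) * ∑' k : ℤ, rexp (-π * (s * ‖u‖ ^ 2) * (k + (t + b)) ^ 2)
      ≤ rexp (-π * s * A) * ((1 + 16 * rexp (-π / (s * ‖u‖ ^ 2))) *
          ∑' k : ℤ, rexp (-π * (s * ‖u‖ ^ 2) * (k + b) ^ 2)) :=
        mul_le_mul_of_nonneg_left this (Real.exp_pos _).le
    _ = _ := by ring

/-- translation by real combinations of lattice vectors -/
theorem translate_sum (τ : L →+ E) {M : Type} (F : Finset M) (v : M → L) (R s : ℝ) (hR : 0 < R)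
    (hs : 0 < s) (hv : ∀ m ∈ F, ‖τ (v m)‖ ^ 2 ≤ R) (hs1 : s * R ≤ 1) (t : M → ℝ) (z : E) :
    Th τ s (z + ∑ m ∈ F, t m • τ (v m)) ≤
      ENNReal.ofReal (1 + 16 * rexp (-π / (s * R))) ^ F.card * Th τ s z := by
  classical
  induction F using Finset.induction_on with
  | empty => simp
  | insert a F ha ih =>
    rw [Finset.sum_insert ha, Finset.card_insert_of_notMem ha, pow_succ']
    have e : z + (t a • τ (v a) + ∑ m ∈ F, t m • τ (v m))
        = (z + ∑ m ∈ F, t m • τ (v m)) + t a • τ (v a) := by abel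
    rw [e]
    have ih' := ih fun m hm => hv m (Finset.mem_insert_of_mem hm)
    have h1 : Th τ s ((z + ∑ m ∈ F, t m • τ (v m)) + t a • τ (v a))
        ≤ ENNReal.ofReal (1 + 16 * rexp (-π / (s * R))) * Th τ s (z + ∑ m ∈ F, t m • τ (v m)) := by
      by_cases h0 : τ (v a) = 0
      · rw [h0, smul_zero, add_zero]
        refine le_mul_of_one_le_left' ?_
        rw [ENNReal.one_le_ofReal]
        have := Real.exp_pos (-π / (s * R))
        linarith
      · have hva := hv a (Finset.mem_insert_self _ _)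
        have hpos : 0 < ‖τ (v a)‖ ^ 2 := by positivity
        refine (translate τ s hs (v a) h0 ?_ _ _).trans ?_
        · refine le_trans ?_ hs1
          exact mul_le_mul_of_nonneg_left hva hs.le
        · have h2 : -π / (s * ‖τ (v a)‖ ^ 2) ≤ -π / (s * R) := by
            rw [neg_div, neg_div, neg_le_neg_iff]
            apply div_le_div_of_nonneg_left Real.pi_pos.le (by positivity)
            exact mul_le_mul_of_nonneg_left hva hs.le
          have h3 := Real.exp_le_exp.mpr h2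
          have h4 : ENNReal.ofReal (1 + 16 * rexp (-π / (s * ‖τ (v a)‖ ^ 2)))
              ≤ ENNReal.ofReal (1 + 16 * rexp (-π / (s * R))) :=
            ENNReal.ofReal_le_ofReal (by linarith)
          exact mul_le_mul' h4 le_rfl
    refine h1.trans ?_
    rw [mul_assoc]
    gcongr

end Pool.Agent.W91.Theta
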