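import Mathlib
import Pool.Agent.W91.ThetaL

set_option autoImplicit false
open scoped InnerProductSpace

namespace Pool.Agent.W91.Cmp

open Pool.Agent.W91.Theta

lemma cmp_abstract {X : Type} {n : ℕ} (m : Fin n → X → ENNReal) (e : X → ENNReal) (κ W : ENNReal)
    (hS0 : ∑' y, e y ≠ 0) (hS : ∑' y, e y ≠ ⊤)
    (hc : ∀ i y y', m i y * e y' ≤ κ * (m i y' * e y)) (hW : ∀ i, ∑' y, m i y = W)
    (i k : Fin n) (y : X) : m i y ≤ κ ^ 2 * m k y := by
  have h1 : m i y * ∑' y, e y ≤ κ * (W * e y) := by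
    calc m i y * ∑' y', e y' = ∑' y', m i y * e y' := ENNReal.tsum_mul_left.symm
      _ ≤ ∑' y', κ * (m i y' * e y) := ENNReal.tsum_le_tsum (fun y' => hc i y y')
      _ = κ * (W * e y) := by rw [ENNReal.tsum_mul_left, ENNReal.tsum_mul_right, hW]
  have h2 : W * e y ≤ κ * (m k y * ∑' y, e y) := by
    calc W * e y = ∑' y', m k y' * e y := by rw [ENNReal.tsum_mul_right, hW]
      _ ≤ ∑' y', κ * (m k y * e y') := ENNReal.tsum_le_tsum (fun y' => hc k y' y)
      _ = κ * (m k y * ∑' y, e y) := by rw [ENNReal.tsum_mul_left, ENNReal.tsum_mul_left]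
  have h3 : m i y * ∑' y, e y ≤ (κ ^ 2 * m k y) * ∑' y, e y := by
    calc m i y * ∑' y, e y ≤ κ * (W * e y) := h1
      _ ≤ κ * (κ * (m k y * ∑' y, e y)) := by gcongr
      _ = (κ ^ 2 * m k y) * ∑' y, e y := by ring
  exact (ENNReal.mul_le_mul_iff_left hS0 hS).mp h3

variable {n : ℕ} {X L E : Type} [AddCommGroup X] [DecidableEq X] [AddCommGroup L]
  [NormedAddCommGroup E] [InnerProductSpace ℝ E] (π : Fin n → L →+ X) (τ : L →+ E)

/-- the marginals -/
noncomputable def mg (w : L → ENNReal) (i : Fin n) (y : X) : ENNReal :=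
  ∑' l, if π i l = y then w l else 0

lemma sum_mg (w : L → ENNReal) (i : Fin n) : ∑' y, mg π w i y = ∑' l, w l := by
  unfold mg
  rw [ENNReal.tsum_comm]
  refine tsum_congr fun l => ?_
  rw [tsum_eq_single (π i l)]
  · rw [if_pos rfl]
  · intro y hy
    rw [if_neg (Ne.symm hy)]

/-- the fibre of `π i` over `y` -/
lemma mg_eq (w : L → ENNReal) (i : Fin n) (y : X) (l0 : L) (h0 : π i l0 = y) :
    mg π w i y = ∑' μ : (π i).ker, w (l0 + μ) := by
  unfold mg
  have h1 : (∑' l, if π i l = y then w l else 0) = ∑' l : {l // π i l = y}, w l := by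
    have h2 : (∑' l : {l // π i l = y}, w l) = ∑' l, {l | π i l = y}.indicator w l :=
      tsum_subtype {l | π i l = y} w
    rw [h2]
    refine tsum_congr fun l => ?_
    simp [Set.indicator_apply]
  rw [h1]
  let f : (π i).ker ≃ {l // π i l = y} :=
    { toFun := fun μ => ⟨l0 + μ, by rw [map_add, h0, μ.2, add_zero]⟩
      invFun := fun l => ⟨l - l0, by rw [AddMonoidHom.mem_ker, map_sub, h0, l.2, sub_self]⟩
      left_inv := fun μ => by ext; simp
      right_inv := fun l => by ext; simp }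
  rw [← f.tsum_eq]
  rfl

theorem cmp {M : Type} [Fintype M] (v : Fin n → M → L) (hv0 : ∀ i m, π i (v i m) = 0)
    (R s : ℝ) (hR : 0 < R) (hs : 0 < s) (hs1 : s * R ≤ 1) (hv : ∀ i m, ‖τ (v i m)‖ ^ 2 ≤ R)
    (Q : X → ℝ) (hQ : ∀ i y, ∃ l0, π i l0 = y ∧ ∃ t : M → ℝ, ∀ μ, π i μ = 0 →
      ‖τ (l0 + μ)‖ ^ 2 = Q y + ‖τ μ + ∑ m, t m • τ (v i m)‖ ^ 2)
    (hfin : ∑' l, ENNReal.ofReal (Real.exp (-Real.pi * s * ‖τ l‖ ^ 2)) ≠ ⊤)
    (i k : Fin n) (y : X) :
    mg π (fun l => ENNReal.ofReal (Real.exp (-Real.pi * s * ‖τ l‖ ^ 2))) i y ≤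
      (ENNReal.ofReal (1 + 16 * Real.exp (-Real.pi / (s * R))) ^ (Fintype.card M)) ^ 2 *
      mg π (fun l => ENNReal.ofReal (Real.exp (-Real.pi * s * ‖τ l‖ ^ 2))) k y := by
  classical
  set κ : ENNReal := ENNReal.ofReal (1 + 16 * Real.exp (-Real.pi / (s * R))) ^ (Fintype.card M) with hκ
  set w : L → ENNReal := fun l => ENNReal.ofReal (Real.exp (-Real.pi * s * ‖τ l‖ ^ 2)) with hw
  let e : X → ENNReal := fun y => ENNReal.ofReal (Real.exp (-Real.pi * s * Q y))
  -- theta functions of the kernels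
  let τk : ∀ i, (π i).ker →+ E := fun i => τ.comp (π i).ker.subtype
  have hcmp : ∀ i (t t' : M → ℝ), Th (τk i) s (∑ m, t m • τ (v i m)) ≤
      κ * Th (τk i) s (∑ m, t' m • τ (v i m)) := by
    intro i t t'
    have h1 := translate_sum (τk i) (Finset.univ : Finset M) (fun m => ⟨v i m, hv0 i m⟩) R s hR hs
      (fun m _ => hv i m) hs1 (fun m => t m - t' m) (∑ m, t' m • τ (v i m))
    have h2 : ∑ m, t' m • τ (v i m) + ∑ m ∈ (Finset.univ : Finset M), (t m - t' m) •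
        (τk i) ⟨v i m, hv0 i m⟩ = ∑ m, t m • τ (v i m) := by
      rw [← Finset.sum_add_distrib]
      refine Finset.sum_congr rfl fun m _ => ?_
      have : (τk i) ⟨v i m, hv0 i m⟩ = τ (v i m) := rfl
      rw [this, sub_smul]
      abel
    rw [h2, Finset.card_univ] at h1
    exact h1
  have hm : ∀ i y, ∃ t : M → ℝ, mg π w i y = e y * Th (τk i) s (∑ m, t m • τ (v i m)) := by
    intro i y
    obtain ⟨l0, hl0, t, ht⟩ := hQ i y
    refine ⟨t, ?_⟩
    rw [mg_eq π w i y l0 hl0, Th, ← ENNReal.tsum_mul_left]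
    refine tsum_congr fun μ => ?_
    rw [← ENNReal.ofReal_mul (Real.exp_nonneg _), ← Real.exp_add, hw]
    dsimp only
    rw [ht μ μ.2]
    congr 2
    have : (τk i) μ = τ μ := rfl
    rw [this]
    ring
  have hTh0 : ∀ i, 1 ≤ Th (τk i) s 0 := by
    intro i
    unfold Th
    refine le_trans ?_ (ENNReal.le_tsum 0)
    simp
  have heW : ∀ y, e y ≤ κ * mg π w i y := by
    intro y
    obtain ⟨t, ht⟩ := hm i y
    rw [ht]
    calc e y = e y * 1 := (mul_one _).symm
      _ ≤ e y * Th (τk i) s (∑ m, (0 : M → ℝ) m • τ (v i m)) := by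
          gcongr
          simpa using hTh0 i
      _ ≤ e y * (κ * Th (τk i) s (∑ m, t m • τ (v i m))) := by
          gcongr
          exact hcmp i 0 t
      _ = κ * (e y * Th (τk i) s (∑ m, t m • τ (v i m))) := by ring
  have hκtop : κ ≠ ⊤ := ENNReal.pow_ne_top ENNReal.ofReal_ne_top
  have hS : ∑' y, e y ≠ ⊤ := by
    have h1 : ∑' y, e y ≤ κ * ∑' l, w l := by
      calc ∑' y, e y ≤ ∑' y, κ * mg π w i y := ENNReal.tsum_le_tsum heW
        _ = κ * ∑' l, w l := by rw [ENNReal.tsum_mul_left, sum_mg]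
    exact ne_top_of_le_ne_top (ENNReal.mul_ne_top hκtop hfin) h1
  have hS0 : ∑' y, e y ≠ 0 := by
    intro h0
    have := ENNReal.tsum_eq_zero.mp h0 0
    have h2 : 0 < e 0 := ENNReal.ofReal_pos.mpr (Real.exp_pos _)
    exact h2.ne' this
  refine cmp_abstract (fun i y => mg π w i y) e κ (∑' l, w l) hS0 hS (fun i y y' => ?_)
    (fun i => sum_mg π w i) i k y
  obtain ⟨t, ht⟩ := hm i y
  obtain ⟨t', ht'⟩ := hm i y'
  rw [ht, ht']
  calc e y * Th (τk i) s (∑ m, t m • τ (v i m)) * e y'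
      ≤ e y * (κ * Th (τk i) s (∑ m, t' m • τ (v i m))) * e y' := by
        gcongr
        exact hcmp i t t'
    _ = κ * (e y' * Th (τk i) s (∑ m, t' m • τ (v i m)) * e y) := by ring

end Pool.Agent.W91.Cmp
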