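import Mathlib

set_option autoImplicit false

namespace Pool.Agent.W91.Core

section

variable {X L : Type} [DecidableEq X] {n : ℕ} (π : Fin n → L → X)

/-- the ambient vector space: differences of the marginals -/
abbrev V (X : Type) (n : ℕ) : Type := Fin n → Fin n → X → ℚ

/-- a unit mass at `y` in the `i`-th marginal, seen in the differences of marginals -/
def g (i : Fin n) (y : X) : V X n :=
  fun a b x => if x = y then (if a = i then 1 else 0) - (if b = i then 1 else 0) else 0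

/-- the vector of `λ` -/
def D (l : L) : V X n := ∑ i, g i (π i l)

lemma sum_g (y : X) : ∑ i, g (n := n) i y = 0 := by
  funext a b x
  simp only [Finset.sum_apply, g, Pi.zero_apply]
  by_cases h : x = y
  · simp [h]
  · simp [h]

variable (ht : X → ℕ)

/-- the finite set of the values of height `0` -/
abbrev B : Type := {y : X // ht y = 0}

variable [Fintype (B ht)]

/-- `u` is a nonnegative combination of masses at height `0` up to the cone of the `D l` -/
def Good (c : ℚ) (u : V X n) : Prop :=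
  ∃ (k : L →₀ ℚ) (κ : Fin n × B ht → ℚ), (∀ l, 0 ≤ k l) ∧ (∀ z, 0 ≤ κ z) ∧ ∑ z, κ z ≤ c ∧
    u + k.sum (fun l t => t • D π l) = ∑ z, κ z • g z.1 z.2.1

lemma Good.mono {c c' : ℚ} {u : V X n} (h : Good π ht c u) (hc : c ≤ c') : Good π ht c' u := by
  obtain ⟨k, κ, h1, h2, h3, h4⟩ := h
  exact ⟨k, κ, h1, h2, h3.trans hc, h4⟩

lemma good_zero : Good π ht 0 (0 : V X n) :=
  ⟨0, 0, fun _ => le_rfl, fun _ => le_rfl, by simp, by simp⟩

lemma Good.add {c c' : ℚ} {u u' : V X n} (h : Good π ht c u) (h' : Good π ht c' u') :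
    Good π ht (c + c') (u + u') := by
  classical
  obtain ⟨k, κ, h1, h2, h3, h4⟩ := h
  obtain ⟨k', κ', h1', h2', h3', h4'⟩ := h'
  refine ⟨k + k', κ + κ', fun l => add_nonneg (h1 l) (h1' l), fun z => add_nonneg (h2 z) (h2' z),
    ?_, ?_⟩
  · simp only [Pi.add_apply, Finset.sum_add_distrib]; linarith
  · rw [Finsupp.sum_add_index' (by simp) (by intros; rw [add_smul])]
    simp only [Pi.add_apply, add_smul, Finset.sum_add_distrib]
    rw [← h4, ← h4']; abel

lemma Good.smul {c : ℚ} {u : V X n} (h : Good π ht c u) {t : ℚ} (ht0 : 0 ≤ t) :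
    Good π ht (t * c) (t • u) := by
  obtain ⟨k, κ, h1, h2, h3, h4⟩ := h
  refine ⟨t • k, t • κ, fun l => mul_nonneg ht0 (h1 l), fun z => mul_nonneg ht0 (h2 z), ?_, ?_⟩
  · simp only [Pi.smul_apply, smul_eq_mul, ← Finset.mul_sum]
    exact mul_le_mul_of_nonneg_left h3 ht0
  · rw [Finsupp.sum_smul_index (by simp)]
    simp only [Pi.smul_apply, smul_eq_mul, mul_smul]
    rw [← Finset.smul_sum, ← h4, smul_add, Finsupp.smul_sum]

lemma Good.sum {ι : Type} (s : Finset ι) {c : ι → ℚ} {u : ι → V X n}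
    (h : ∀ j ∈ s, Good π ht (c j) (u j)) : Good π ht (∑ j ∈ s, c j) (∑ j ∈ s, u j) := by
  classical
  induction s using Finset.induction_on with
  | empty => simpa using good_zero π ht
  | insert a s ha ih =>
    rw [Finset.sum_insert ha, Finset.sum_insert ha]
    exact (h a (Finset.mem_insert_self _ _)).add π ht (ih fun j hj => h j (Finset.mem_insert_of_mem hj))

lemma Good.of_add {c : ℚ} {u : V X n} (l : L) (h : Good π ht c (u + D π l)) : Good π ht c u := by
  classical
  obtain ⟨k, κ, h1, h2, h3, h4⟩ := h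
  refine ⟨k + Finsupp.single l 1, κ, fun m => add_nonneg (h1 m) ?_, h2, h3, ?_⟩
  · rw [Finsupp.single_apply]; split_ifs <;> norm_num
  · rw [Finsupp.sum_add_index' (by simp) (by intros; rw [add_smul]),
      Finsupp.sum_single_index (by simp), one_smul, ← h4]
    abel

lemma Good.of_add_sum {ι : Type} (s : Finset ι) (l : ι → L) {c : ℚ} {u : V X n}
    (h : Good π ht c (u + ∑ j ∈ s, D π (l j))) : Good π ht c u := by
  classical
  induction s using Finset.induction_on generalizing u with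
  | empty => simpa using h
  | insert a s ha ih =>
    rw [Finset.sum_insert ha, ← add_assoc] at h
    exact (ih h).of_add π ht

lemma good_base (i : Fin n) (y : X) (hy : ht y = 0) : Good π ht 1 (g i y) := by
  classical
  refine ⟨0, fun z => if z = (i, ⟨y, hy⟩) then 1 else 0, fun _ => le_rfl,
    fun z => by dsimp only; split_ifs <;> norm_num, by simp, ?_⟩
  simp [Finsupp.sum_zero_index]

/-- the descent -/
lemma good_g (hdesc : ∀ i y, 0 < ht y → ∃ l, π i l = y ∧ ∀ j, j ≠ i → ht (π j l) < ht y)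
    (r : ℕ) : ∀ (i : Fin n) (y : X), ht y ≤ r → Good π ht (((n : ℚ) ^ 2) ^ r) (g i y) := by
  classical
  induction r with
  | zero =>
    intro i y hy
    simpa using good_base π ht i y (by omega)
  | succ r ih =>
    intro i y hy
    have hn1 : (1 : ℚ) ≤ n := by
      exact_mod_cast (Nat.one_le_iff_ne_zero.mpr (fun h => by subst h; exact i.elim0))
    have hn2 : (1 : ℚ) ≤ (n : ℚ) ^ 2 := one_le_pow₀ hn1
    rcases Nat.eq_zero_or_pos (ht y) with h0 | h0
    · exact (good_base π ht i y h0).mono π ht (one_le_pow₀ hn2)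
    choose l hl1 hl2 using fun j => hdesc j y h0
    -- g i y + ∑_{j≠i} D (l j) = ∑_{j ≠ i} ∑_{k ≠ j} g k (π k (l j))
    apply Good.of_add_sum π ht (Finset.univ.erase i) l
    have e1 : g i y + ∑ j ∈ Finset.univ.erase i, D π (l j)
        = ∑ j ∈ Finset.univ.erase i, ∑ k ∈ Finset.univ.erase j, g k (π k (l j)) := by
      have e2 : ∀ j, D π (l j) = g j y + ∑ k ∈ Finset.univ.erase j, g k (π k (l j)) := by
        intro j
        unfold D
        rw [← Finset.add_sum_erase _ _ (Finset.mem_univ j), hl1]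
      simp only [e2, Finset.sum_add_distrib]
      rw [← add_assoc, Finset.add_sum_erase _ (fun j => g j y) (Finset.mem_univ i), sum_g, zero_add]
    rw [e1]
    have h1 : Good π ht (∑ j ∈ Finset.univ.erase i, ∑ k ∈ Finset.univ.erase j, ((n : ℚ) ^ 2) ^ r)
        (∑ j ∈ Finset.univ.erase i, ∑ k ∈ Finset.univ.erase j, g k (π k (l j))) := by
      refine Good.sum π ht _ fun j _ => Good.sum π ht _ fun k hk => ih k _ ?_
      have := hl2 j k (Finset.mem_erase.mp hk).1
      omega
    refine h1.mono π ht ?_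
    simp only [Finset.sum_const, Finset.card_erase_of_mem (Finset.mem_univ _), Finset.card_univ,
      Fintype.card_fin, nsmul_eq_mul]
    have h2 : ((n - 1 : ℕ) : ℚ) ≤ n := by exact_mod_cast Nat.sub_le _ _
    have h3 : (0 : ℚ) ≤ ((n - 1 : ℕ) : ℚ) := Nat.cast_nonneg _
    have h4 : ((n - 1 : ℕ) : ℚ) * ((n - 1 : ℕ) : ℚ) ≤ (n : ℚ) ^ 2 := by nlinarith
    calc ((n - 1 : ℕ) : ℚ) * (((n - 1 : ℕ) : ℚ) * ((n : ℚ) ^ 2) ^ r)
        = (((n - 1 : ℕ) : ℚ) * ((n - 1 : ℕ) : ℚ)) * ((n : ℚ) ^ 2) ^ r := by ring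
      _ ≤ (n : ℚ) ^ 2 * ((n : ℚ) ^ 2) ^ r := mul_le_mul_of_nonneg_right h4 (by positivity)
      _ = ((n : ℚ) ^ 2) ^ (r + 1) := by ring

/-- the marginals of a finitely supported weight -/
def marg (μ : L →₀ ℚ) (i : Fin n) (y : X) : ℚ := μ.sum fun l t => if π i l = y then t else 0

lemma sum_D_apply (μ : L →₀ ℚ) (a b : Fin n) (x : X) :
    (μ.sum fun l t => t • D π l) a b x = marg π μ a x - marg π μ b x := by
  unfold marg Finsupp.sum
  rw [← Finset.sum_sub_distrib]
  simp only [Finset.sum_apply, Pi.smul_apply, smul_eq_mul]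
  refine Finset.sum_congr rfl fun l _ => ?_
  unfold D g
  simp only [Finset.sum_apply]
  have : ∀ i : Fin n, (if x = π i l then ((if a = i then (1 : ℚ) else 0) - (if b = i then 1 else 0))
      else 0) = (if a = i then (if x = π i l then (1 : ℚ) else 0) else 0)
        - (if b = i then (if x = π i l then 1 else 0) else 0) := by
    intro i; split_ifs <;> norm_num
  simp only [this, Finset.sum_sub_distrib, Finset.sum_ite_eq, Finset.mem_univ, if_true]
  simp only [eq_comm (a := x)]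
  split_ifs <;> ring

lemma sum_D_eq (μ : L →₀ ℚ) (S : Finset X) (hS : ∀ i, ∀ l ∈ μ.support, π i l ∈ S) :
    (μ.sum fun l t => t • D π l) = ∑ i, ∑ y ∈ S, marg π μ i y • g i y := by
  unfold marg Finsupp.sum D
  simp only [Finset.smul_sum]
  rw [Finset.sum_comm]
  refine Finset.sum_congr rfl fun i _ => ?_
  simp only [Finset.sum_smul]
  rw [Finset.sum_comm]
  refine Finset.sum_congr rfl fun l hl => ?_
  rw [Finset.sum_eq_single (π i l)]
  · simp
  · intro y _ hy
    rw [if_neg (Ne.symm hy), zero_smul]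
  · intro h
    exact absurd (hS i l hl) h

theorem main (hdesc : ∀ i y, 0 < ht y → ∃ l, π i l = y ∧ ∀ j, j ≠ i → ht (π j l) < ht y)
    (hw : ∀ (T : Finset L) (η : ℚ), 0 < η → ∃ (w : L →₀ ℚ) (S : Finset X) (m : X → ℚ),
      (∀ l, 0 ≤ w l) ∧ (∀ l ∈ T, 1 ≤ w l) ∧ (∀ i, ∀ l ∈ w.support, π i l ∈ S) ∧
      (∀ i, ∀ y ∈ S, m y ≤ marg π w i y) ∧
      ∑ i, ∑ y ∈ S, (marg π w i y - m y) * ((n : ℚ) ^ 2) ^ (ht y) ≤ η) (l1 : L) :
    ∃ μ : L →₀ ℚ, (∀ l, 0 ≤ μ l) ∧ 0 < μ l1 ∧ ∀ i j y, marg π μ i y = marg π μ j y := by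
  classical
  -- the linear maps
  let P : (L →₀ ℚ) →ₗ[ℚ] V X n := Finsupp.linearCombination ℚ (D π)
  let G : (Fin n × B ht → ℚ) →ₗ[ℚ] V X n :=
    Fintype.linearCombination ℚ (fun z : Fin n × B ht => g z.1 z.2.1)
  let K0 : Submodule ℚ (Fin n × B ht → ℚ) := (LinearMap.range P).comap G
  obtain ⟨s, hs⟩ : ∃ s : (Fin n × B ht → ℚ) →ₗ[ℚ] (L →₀ ℚ), ∀ κ ∈ K0, P (s κ) = G κ := by
    obtain ⟨r, hr⟩ := P.rangeRestrict.exists_rightInverse_of_surjective P.range_rangeRestrict
    let s0 : K0 →ₗ[ℚ] (L →₀ ℚ) := r.comp (G.restrict (p := K0) (q := LinearMap.range P) fun κ hκ => hκ)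
    obtain ⟨s, hs⟩ := s0.exists_extend
    refine ⟨s, fun κ hκ => ?_⟩
    have h1 : s κ = s0 ⟨κ, hκ⟩ := by rw [← hs]; rfl
    have h2 := LinearMap.congr_fun hr (G.restrict (p := K0) (q := LinearMap.range P) (fun κ hκ => hκ) ⟨κ, hκ⟩)
    rw [h1]
    have h3 := congrArg Subtype.val h2
    exact h3
  -- bounds
  let e : Fin n × B ht → (L →₀ ℚ) := fun z => s (Pi.single z 1)
  have hse : ∀ κ : Fin n × B ht → ℚ, ∀ l, s κ l = ∑ z, κ z * e z l := by
    intro κ l
    have h1 : κ = ∑ z, κ z • (Pi.single z (1 : ℚ) : Fin n × B ht → ℚ) := by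
      funext x
      simp [Finset.sum_apply, Pi.single_apply]
    conv_lhs => rw [h1]
    rw [map_sum, Finsupp.finsetSum_apply]
    refine Finset.sum_congr rfl fun z _ => ?_
    rw [map_smul, Finsupp.smul_apply, smul_eq_mul]
  let T : Finset L := insert l1 (Finset.univ.biUnion fun z => (e z).support)
  obtain ⟨C, hC1, hC⟩ : ∃ C : ℚ, 1 ≤ C ∧ ∀ z l, |e z l| ≤ C := by
    refine ⟨1 + ∑ z, ∑ l ∈ T, |e z l|, ?_, fun z l => ?_⟩
    · have : 0 ≤ ∑ z, ∑ l ∈ T, |e z l| :=
        Finset.sum_nonneg fun z _ => Finset.sum_nonneg fun l _ => abs_nonneg _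
      linarith
    · by_cases hl : e z l = 0
      · rw [hl, abs_zero]
        have : 0 ≤ ∑ z, ∑ l ∈ T, |e z l| :=
          Finset.sum_nonneg fun z _ => Finset.sum_nonneg fun l _ => abs_nonneg _
        linarith
      · have hlT : l ∈ T := Finset.mem_insert_of_mem (Finset.mem_biUnion.mpr
          ⟨z, Finset.mem_univ z, Finsupp.mem_support_iff.mpr hl⟩)
        have h1 : |e z l| ≤ ∑ l ∈ T, |e z l| :=
          Finset.single_le_sum (f := fun l => |e z l|) (fun l _ => abs_nonneg _) hlT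
        have h2 : ∑ l ∈ T, |e z l| ≤ ∑ z, ∑ l ∈ T, |e z l| :=
          Finset.single_le_sum (f := fun z => ∑ l ∈ T, |e z l|)
            (fun z _ => Finset.sum_nonneg fun l _ => abs_nonneg _) (Finset.mem_univ z)
        linarith
  obtain ⟨w, S, m, hw0, hw1, hwS, hm, herr⟩ := hw T (1 / (2 * C)) (by positivity)
  -- the sum is good
  have hgood : Good π ht (1 / (2 * C)) (w.sum fun l t => t • D π l) := by
    have h1 : (w.sum fun l t => t • D π l) = ∑ i, ∑ y ∈ S, (marg π w i y - m y) • g i y := by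
      rw [sum_D_eq π w S hwS]
      simp only [sub_smul, Finset.sum_sub_distrib]
      have : ∑ i, ∑ y ∈ S, m y • g (n := n) i y = 0 := by
        rw [Finset.sum_comm]
        refine Finset.sum_eq_zero fun y _ => ?_
        rw [← Finset.smul_sum, sum_g, smul_zero]
      rw [this, sub_zero]
    rw [h1]
    refine Good.mono π ht (Good.sum π ht _ fun i _ => Good.sum π ht _ fun y hy =>
      Good.smul π ht (good_g π ht hdesc (ht y) i y le_rfl) (sub_nonneg.mpr (hm i y hy))) herr
  obtain ⟨k, κ, hk0, hκ0, hκs, hkκ⟩ := hgood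
  have hκK : κ ∈ K0 := by
    refine Submodule.mem_comap.mpr ⟨w + k, ?_⟩
    rw [map_add]
    exact hkκ
  have hsκ : P (s κ) = P w + P k := by
    rw [hs κ hκK]
    exact hkκ.symm
  have hsb : ∀ l, |s κ l| ≤ 1 / 2 := by
    intro l
    rw [hse]
    refine (Finset.abs_sum_le_sum_abs _ _).trans ?_
    calc ∑ z, |κ z * e z l| ≤ ∑ z, κ z * C := by
          refine Finset.sum_le_sum fun z _ => ?_
          rw [abs_mul, abs_of_nonneg (hκ0 z)]
          exact mul_le_mul_of_nonneg_left (hC z l) (hκ0 z)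
      _ = (∑ z, κ z) * C := by rw [Finset.sum_mul]
      _ ≤ (1 / (2 * C)) * C := mul_le_mul_of_nonneg_right hκs (by linarith)
      _ = 1 / 2 := by field_simp
  have hs0 : ∀ l, l ∉ T → s κ l = 0 := by
    intro l hl
    rw [hse]
    refine Finset.sum_eq_zero fun z _ => ?_
    have : e z l = 0 := by
      by_contra h
      exact hl (Finset.mem_insert_of_mem (Finset.mem_biUnion.mpr
          ⟨z, Finset.mem_univ z, Finsupp.mem_support_iff.mpr h⟩))
    rw [this, mul_zero]
  refine ⟨w + k - s κ, fun l => ?_, ?_, fun i j y => ?_⟩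
  · rw [Finsupp.sub_apply, Finsupp.add_apply]
    by_cases hl : l ∈ T
    · have := hw1 l hl
      have := hk0 l
      have := (abs_le.mp (hsb l)).2
      linarith
    · rw [hs0 l hl]
      have := hw0 l
      have := hk0 l
      linarith
  · rw [Finsupp.sub_apply, Finsupp.add_apply]
    have := hw1 l1 (Finset.mem_insert_self _ _)
    have := hk0 l1
    have := (abs_le.mp (hsb l1)).2
    linarith
  · have h1 : P (w + k - s κ) = 0 := by
      rw [map_sub, map_add, hsκ, sub_self]
    have h2 : ((w + k - s κ).sum fun l t => t • D π l) = 0 := h1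
    have h3 := congrFun (congrFun (congrFun h2 i) j) y
    rw [sum_D_apply] at h3
    simp only [Pi.zero_apply] at h3
    linarith

end

end Pool.Agent.W91.Core
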