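import Mathlib
import Pool.Agent.W91.Cmp
import Pool.Agent.W91.Core

set_option autoImplicit false
open scoped ENNReal

namespace Pool.Agent.W91.Rationalise

open Pool.Agent.W91.Cmp Pool.Agent.W91.Core

variable {n : ℕ} {X L : Type} [DecidableEq X]

/-- the marginals, for plain maps -/
noncomputable def mg' (π : Fin n → L → X) (w : L → ℝ≥0∞) (i : Fin n) (y : X) : ℝ≥0∞ :=
  ∑' l, if π i l = y then w l else 0

lemma sum_mg' (π : Fin n → L → X) (w : L → ℝ≥0∞) (h : X → ℝ≥0∞) (i : Fin n) :
    ∑' y, mg' π w i y * h y = ∑' l, w l * h (π i l) := by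
  unfold mg'
  simp only [← ENNReal.tsum_mul_right]
  rw [ENNReal.tsum_comm]
  refine tsum_congr fun l => ?_
  rw [tsum_eq_single (π i l)]
  · rw [if_pos rfl]
  · intro y hy
    rw [if_neg (Ne.symm hy), zero_mul]

lemma mg'_mono (π : Fin n → L → X) {w w' : L → ℝ≥0∞} (h : ∀ l, w l ≤ w' l) (i : Fin n) (y : X) :
    mg' π w i y ≤ mg' π w' i y := by
  unfold mg'
  refine ENNReal.tsum_le_tsum fun l => ?_
  split_ifs
  · exact h l
  · exact le_rfl

lemma mg'_add (π : Fin n → L → X) (w w' : L → ℝ≥0∞) (i : Fin n) (y : X) :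
    mg' π (fun l => w l + w' l) i y = mg' π w i y + mg' π w' i y := by
  unfold mg'
  rw [← ENNReal.tsum_add]
  refine tsum_congr fun l => ?_
  split_ifs <;> simp

/-- the weight -/
noncomputable def HH (π : Fin n → L → X) (ht : X → ℕ) (l : L) : ℝ≥0∞ :=
  ∑ i, ((n : ℝ≥0∞) ^ 2) ^ ht (π i l)

lemma ofReal_marg (π : Fin n → L → X) (w : L →₀ ℚ) (hw : ∀ l, 0 ≤ w l) (i : Fin n) (y : X) :
    ENNReal.ofReal (marg π w i y : ℝ) = mg' π (fun l => ENNReal.ofReal (w l : ℝ)) i y := by
  classical
  unfold mg' marg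
  rw [tsum_eq_sum (s := w.support)]
  · rw [Finsupp.sum]
    push_cast
    rw [ENNReal.ofReal_sum_of_nonneg]
    · refine Finset.sum_congr rfl fun l _ => ?_
      split_ifs <;> simp
    · intro l _
      split_ifs
      · exact_mod_cast hw l
      · simp
  · intro l hl
    rw [Finsupp.notMem_support_iff] at hl
    simp [hl]

lemma exists_tail (f : L → ℝ≥0∞) (hf : ∑' l, f l ≠ ⊤) (T : Finset L) {δ : ℝ≥0∞} (hδ : 0 < δ) :
    ∃ F : Finset L, T ⊆ F ∧ ∀ g : L → ℝ≥0∞, (∀ l, l ∉ F → g l ≤ f l) →
      ∑' l, g l ≤ ∑ l ∈ F, g l + δ := by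
  classical
  have h1 := ENNReal.tendsto_tsum_compl_atTop_zero hf
  have h2 := (h1.eventually_le_const hδ).and (Filter.eventually_ge_atTop T)
  obtain ⟨F, h3, h4⟩ := h2.exists
  refine ⟨F, h4, fun g hg => ?_⟩
  have h5 : (∑' l : {x // x ∉ F}, f l) = ∑' l, {x | x ∉ F}.indicator f l :=
    tsum_subtype {x | x ∉ F} f
  rw [h5] at h3
  calc ∑' l, g l ≤ ∑' l, ((if l ∈ F then g l else 0) + {x | x ∉ F}.indicator f l) := by
        refine ENNReal.tsum_le_tsum fun l => ?_
        by_cases hl : l ∈ F
        · simp [hl]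
        · simp [hl]
          exact hg l hl
    _ = ∑ l ∈ F, g l + ∑' l, {x | x ∉ F}.indicator f l := by
        rw [ENNReal.tsum_add]
        congr 1
        rw [tsum_eq_sum (s := F) (fun l hl => if_neg hl)]
        exact Finset.sum_congr rfl fun l hl => if_pos hl
    _ ≤ ∑ l ∈ F, g l + δ := by gcongr

theorem hw_of (hn : 0 < n) (π : Fin n → L → X) (ht : X → ℕ) (T : Finset L) (η : ℚ) (hη : 0 < η)
    (W : L → ℝ) (κ : ℝ) (hκ : 0 ≤ κ) (hW0 : ∀ l, 0 < W l) (hWT : ∀ l ∈ T, 1 < W l)
    (hcmp : ∀ i k y, mg' π (fun l => ENNReal.ofReal (W l)) i y ≤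
      ENNReal.ofReal (1 + κ) * mg' π (fun l => ENNReal.ofReal (W l)) k y)
    (hsum : ∑' l, ENNReal.ofReal (W l) * HH π ht l ≠ ⊤)
    (hsmall : ENNReal.ofReal κ * ∑' l, ENNReal.ofReal (W l) * HH π ht l ≤
      ENNReal.ofReal ((η : ℝ) / 2)) :
    ∃ (w : L →₀ ℚ) (S : Finset X) (m : X → ℚ),
      (∀ l, 0 ≤ w l) ∧ (∀ l ∈ T, 1 ≤ w l) ∧ (∀ i, ∀ l ∈ w.support, π i l ∈ S) ∧
      (∀ i, ∀ y ∈ S, m y ≤ marg π w i y) ∧
      ∑ i, ∑ y ∈ S, (marg π w i y - m y) * ((n : ℚ) ^ 2) ^ (ht y) ≤ η := by
  classical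
  have hη' : (0 : ℝ) < η := by exact_mod_cast hη
  have hn' : (0 : ℝ) < n := by exact_mod_cast hn
  -- the tail
  set δ : ℝ := η / (4 * n * (1 + κ)) with hδ
  have hδ0 : 0 < δ := by positivity
  obtain ⟨F, hTF, hF⟩ := exists_tail _ hsum T (ENNReal.ofReal_pos.mpr hδ0)
  -- real weights
  let Hr : L → ℝ := fun l => ∑ i, ((n : ℝ) ^ 2) ^ ht (π i l)
  have hHr : ∀ l, HH π ht l = ENNReal.ofReal (Hr l) := by
    intro l
    simp only [HH, Hr]
    rw [ENNReal.ofReal_sum_of_nonneg (fun i _ => by positivity)]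
    refine Finset.sum_congr rfl fun i _ => ?_
    rw [ENNReal.ofReal_pow (by positivity), ENNReal.ofReal_pow (by positivity),
      ENNReal.ofReal_natCast]
  have hHr0 : ∀ l, 0 ≤ Hr l := fun l => Finset.sum_nonneg fun i _ => by positivity
  set HF : ℝ := ∑ l ∈ F, Hr l + 1 with hHF
  have hHF0 : 0 < HF := by
    have : 0 ≤ ∑ l ∈ F, Hr l := Finset.sum_nonneg fun l _ => hHr0 l
    linarith
  -- the rational weights
  have hex : ∀ l, ∃ q : ℚ, 0 ≤ q ∧ (q : ℝ) ≤ W l ∧ (l ∈ T → 1 ≤ q) ∧ W l - δ / HF ≤ q := by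
    intro l
    by_cases hl : l ∈ T
    · obtain ⟨q, h1, h2⟩ := exists_rat_btwn (show max 1 (W l - δ / HF) < W l from
        max_lt (hWT l hl) (by have : 0 < δ / HF := by positivity
                              linarith))
      have h3 := (le_max_left _ _).trans h1.le
      have h4 := (le_max_right _ _).trans h1.le
      have h5 : (1 : ℚ) ≤ q := by exact_mod_cast h3
      exact ⟨q, zero_le_one.trans h5, h2.le, fun _ => h5, h4⟩
    · obtain ⟨q, h1, h2⟩ := exists_rat_btwn (show max 0 (W l - δ / HF) < W l from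
        max_lt (hW0 l) (by have : 0 < δ / HF := by positivity
                           linarith))
      have h3 := (le_max_left _ _).trans h1.le
      have h4 := (le_max_right _ _).trans h1.le
      exact ⟨q, by exact_mod_cast h3, h2.le, fun h => absurd h hl, h4⟩
  choose q hq0 hqW hqT hqd using hex
  let w : L →₀ ℚ := Finsupp.onFinset F (fun l => if l ∈ F then q l else 0) (by
    intro l hl
    by_contra h
    exact hl (if_neg h))
  have hwF : ∀ l ∈ F, w l = q l := fun l hl => by
    simp only [w, Finsupp.onFinset_apply]; exact if_pos hl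
  have hwF' : ∀ l, l ∉ F → w l = 0 := fun l hl => by
    simp only [w, Finsupp.onFinset_apply]; exact if_neg hl
  have hw0 : ∀ l, 0 ≤ w l := by
    intro l
    by_cases hl : l ∈ F
    · rw [hwF l hl]; exact hq0 l
    · rw [hwF' l hl]
  have hwW : ∀ l, (w l : ℝ) ≤ W l := by
    intro l
    by_cases hl : l ∈ F
    · rw [hwF l hl]; exact hqW l
    · rw [hwF' l hl]; simpa using (hW0 l).le
  let u : L → ℝ := fun l => W l - w l
  have hu0 : ∀ l, 0 ≤ u l := fun l => sub_nonneg.mpr (hwW l)
  have hu : ∑' l, ENNReal.ofReal (u l) * HH π ht l ≤ ENNReal.ofReal (2 * δ) := by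
    have h1 : ∑ l ∈ F, ENNReal.ofReal (u l) * HH π ht l ≤ ENNReal.ofReal δ := by
      calc ∑ l ∈ F, ENNReal.ofReal (u l) * HH π ht l
          ≤ ∑ l ∈ F, ENNReal.ofReal (δ / HF * Hr l) := by
            refine Finset.sum_le_sum fun l hl => ?_
            rw [hHr, ← ENNReal.ofReal_mul (hu0 l)]
            refine ENNReal.ofReal_le_ofReal (mul_le_mul_of_nonneg_right ?_ (hHr0 l))
            have := hqd l
            simp only [u, hwF l hl]
            linarith
        _ = ENNReal.ofReal (∑ l ∈ F, δ / HF * Hr l) := by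
            rw [ENNReal.ofReal_sum_of_nonneg]
            intro l _
            have := hHr0 l
            positivity
        _ ≤ ENNReal.ofReal δ := by
            refine ENNReal.ofReal_le_ofReal ?_
            rw [← Finset.mul_sum, div_mul_eq_mul_div, div_le_iff₀ hHF0]
            refine mul_le_mul_of_nonneg_left ?_ hδ0.le
            linarith
    have h2 := hF (fun l => ENNReal.ofReal (u l) * HH π ht l) (fun l hl => by
      simp only [u, hwF' l hl]
      simp)
    calc ∑' l, ENNReal.ofReal (u l) * HH π ht l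
        ≤ ∑ l ∈ F, ENNReal.ofReal (u l) * HH π ht l + ENNReal.ofReal δ := h2
      _ ≤ ENNReal.ofReal δ + ENNReal.ofReal δ := by gcongr
      _ = ENNReal.ofReal (2 * δ) := by
          rw [← ENNReal.ofReal_add hδ0.le hδ0.le]; ring_nf
  -- marginals
  have hex2 : ∀ y, ∃ k : Fin n, ∀ i, marg π w k y ≤ marg π w i y := by
    intro y
    have : Nonempty (Fin n) := ⟨⟨0, hn⟩⟩
    obtain ⟨k, hk⟩ := Finite.exists_min (fun i => marg π w i y)
    exact ⟨k, hk⟩
  choose k hk using hex2
  refine ⟨w, F.biUnion fun l => Finset.univ.image fun i => π i l, fun y => marg π w (k y) y, hw0,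
    fun l hl => ?_, fun i l hl => ?_, fun i y _ => hk y i, ?_⟩
  · rw [hwF l (hTF hl)]; exact hqT l hl
  · rw [Finset.mem_biUnion]
    refine ⟨l, ?_, Finset.mem_image_of_mem _ (Finset.mem_univ i)⟩
    by_contra h
    exact Finsupp.mem_support_iff.mp hl (hwF' l h)
  · set S := F.biUnion fun l => Finset.univ.image fun i => π i l with hS
    -- pointwise
    have hpt : ∀ i y, ENNReal.ofReal ((marg π w i y - marg π w (k y) y : ℚ) : ℝ) ≤
        ENNReal.ofReal κ * mg' π (fun l => ENNReal.ofReal (W l)) i y +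
        ENNReal.ofReal (1 + κ) * ∑ j, mg' π (fun l => ENNReal.ofReal (u l)) j y := by
      intro i y
      have hWu : (fun l => ENNReal.ofReal (W l)) =
          fun l => ENNReal.ofReal (w l : ℝ) + ENNReal.ofReal (u l) := by
        funext l
        rw [← ENNReal.ofReal_add (by exact_mod_cast hw0 l) (hu0 l)]
        simp [u]
      have hm0 : (0 : ℝ) ≤ (marg π w (k y) y : ℝ) := by
        have : 0 ≤ marg π w (k y) y := by
          unfold marg
          refine Finset.sum_nonneg fun l _ => ?_
          dsimp only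
          split_ifs
          · exact hw0 l
          · exact le_rfl
        exact_mod_cast this
      have h1 : ENNReal.ofReal (marg π w i y : ℝ) ≤ ENNReal.ofReal (1 + κ) *
          (ENNReal.ofReal (marg π w (k y) y : ℝ) + mg' π (fun l => ENNReal.ofReal (u l)) (k y) y) := by
        rw [ofReal_marg π w hw0, ofReal_marg π w hw0, ← mg'_add, ← hWu]
        refine le_trans (mg'_mono π (fun l => ?_) i y) (hcmp i (k y) y)
        exact ENNReal.ofReal_le_ofReal (hwW l)
      have h2 : ENNReal.ofReal (marg π w (k y) y : ℝ) ≤ mg' π (fun l => ENNReal.ofReal (W l)) i y := by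
        calc ENNReal.ofReal (marg π w (k y) y : ℝ) ≤ ENNReal.ofReal (marg π w i y : ℝ) :=
              ENNReal.ofReal_le_ofReal (by exact_mod_cast hk y i)
          _ = mg' π (fun l => ENNReal.ofReal (w l : ℝ)) i y := ofReal_marg π w hw0 i y
          _ ≤ _ := mg'_mono π (fun l => ENNReal.ofReal_le_ofReal (hwW l)) i y
      have h3 : mg' π (fun l => ENNReal.ofReal (u l)) (k y) y ≤
          ∑ j, mg' π (fun l => ENNReal.ofReal (u l)) j y :=
        Finset.single_le_sum (f := fun j => mg' π (fun l => ENNReal.ofReal (u l)) j y)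
          (fun _ _ => zero_le) (Finset.mem_univ (k y))
      rw [Rat.cast_sub, ENNReal.ofReal_sub _ hm0, tsub_le_iff_right]
      calc ENNReal.ofReal (marg π w i y : ℝ) ≤ ENNReal.ofReal (1 + κ) *
          (ENNReal.ofReal (marg π w (k y) y : ℝ) + mg' π (fun l => ENNReal.ofReal (u l)) (k y) y) := h1
        _ = ENNReal.ofReal κ * ENNReal.ofReal (marg π w (k y) y : ℝ) +
            ENNReal.ofReal (1 + κ) * mg' π (fun l => ENNReal.ofReal (u l)) (k y) y +
            ENNReal.ofReal (marg π w (k y) y : ℝ) := by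
            rw [mul_add]
            nth_rewrite 1 [ENNReal.ofReal_add zero_le_one hκ]
            rw [ENNReal.ofReal_one]
            ring
        _ ≤ _ := by gcongr
    -- sum
    have hsum2 : ENNReal.ofReal ((∑ i, ∑ y ∈ S, (marg π w i y - marg π w (k y) y) *
        ((n : ℚ) ^ 2) ^ (ht y) : ℚ) : ℝ) ≤ ENNReal.ofReal (η : ℝ) := by
      push_cast
      have hnn : ∀ i y, (0 : ℝ) ≤ ((marg π w i y - marg π w (k y) y : ℚ) : ℝ) := by
        intro i y
        exact_mod_cast sub_nonneg.mpr (hk y i)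
      have hc : ∀ y, ENNReal.ofReal (((n : ℝ) ^ 2) ^ ht y) = ((n : ℝ≥0∞) ^ 2) ^ ht y := by
        intro y
        rw [ENNReal.ofReal_pow (by positivity), ENNReal.ofReal_pow (by positivity),
          ENNReal.ofReal_natCast]
      rw [ENNReal.ofReal_sum_of_nonneg]
      swap
      · intro i _
        refine Finset.sum_nonneg fun y _ => mul_nonneg ?_ (by positivity)
        exact_mod_cast hnn i y
      calc ∑ i, ENNReal.ofReal (∑ y ∈ S, ((marg π w i y : ℝ) - (marg π w (k y) y : ℝ)) *
            ((n : ℝ) ^ 2) ^ (ht y))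
          = ∑ i, ∑ y ∈ S, ENNReal.ofReal ((marg π w i y - marg π w (k y) y : ℚ) : ℝ) *
            ((n : ℝ≥0∞) ^ 2) ^ ht y := by
            refine Finset.sum_congr rfl fun i _ => ?_
            rw [ENNReal.ofReal_sum_of_nonneg]
            · refine Finset.sum_congr rfl fun y _ => ?_
              rw [ENNReal.ofReal_mul (by exact_mod_cast hnn i y), hc]
              push_cast
              rfl
            · intro y _
              refine mul_nonneg ?_ (by positivity)
              exact_mod_cast hnn i y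
        _ ≤ ∑ i, ∑' y, (ENNReal.ofReal κ * mg' π (fun l => ENNReal.ofReal (W l)) i y +
            ENNReal.ofReal (1 + κ) * ∑ j, mg' π (fun l => ENNReal.ofReal (u l)) j y) *
            ((n : ℝ≥0∞) ^ 2) ^ ht y := by
            refine Finset.sum_le_sum fun i _ => ?_
            refine le_trans (Finset.sum_le_sum fun y _ => ?_) (ENNReal.sum_le_tsum S)
            gcongr
            exact hpt i y
        _ = ENNReal.ofReal κ * ∑' l, ENNReal.ofReal (W l) * HH π ht l +
            n * ENNReal.ofReal (1 + κ) * ∑' l, ENNReal.ofReal (u l) * HH π ht l := by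
            have h1 : ∀ i : Fin n, ∑' y, (ENNReal.ofReal κ * mg' π (fun l => ENNReal.ofReal (W l)) i y +
                ENNReal.ofReal (1 + κ) * ∑ j, mg' π (fun l => ENNReal.ofReal (u l)) j y) *
                ((n : ℝ≥0∞) ^ 2) ^ ht y =
                ENNReal.ofReal κ * ∑' l, ENNReal.ofReal (W l) * ((n : ℝ≥0∞) ^ 2) ^ ht (π i l) +
                ENNReal.ofReal (1 + κ) * ∑ j, ∑' l, ENNReal.ofReal (u l) *
                  ((n : ℝ≥0∞) ^ 2) ^ ht (π j l) := by
              intro i
              simp only [add_mul, mul_assoc, Finset.sum_mul]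
              rw [ENNReal.tsum_add, ENNReal.tsum_mul_left, ENNReal.tsum_mul_left, sum_mg' π _
                (fun y => ((n : ℝ≥0∞) ^ 2) ^ ht y)]
              congr 2
              rw [Summable.tsum_finsetSum (fun _ _ => ENNReal.summable)]
              exact Finset.sum_congr rfl fun j _ => sum_mg' π _
                (fun y => ((n : ℝ≥0∞) ^ 2) ^ ht y) j
            have h2 : ∀ v : L → ℝ≥0∞, ∑ j, ∑' l, v l * ((n : ℝ≥0∞) ^ 2) ^ ht (π j l) =
                ∑' l, v l * HH π ht l := by
              intro v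
              rw [← Summable.tsum_finsetSum (fun _ _ => ENNReal.summable)]
              refine tsum_congr fun l => ?_
              rw [HH, Finset.mul_sum]
            simp only [h1]
            rw [Finset.sum_add_distrib, ← Finset.mul_sum, Finset.sum_const, Finset.card_univ,
              Fintype.card_fin, nsmul_eq_mul, h2, h2, mul_assoc]
        _ ≤ ENNReal.ofReal ((η : ℝ) / 2) +
            n * ENNReal.ofReal (1 + κ) * ENNReal.ofReal (2 * δ) := by gcongr
        _ = ENNReal.ofReal (η : ℝ) := by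
            rw [← ENNReal.ofReal_natCast, ← ENNReal.ofReal_mul (by positivity),
              ← ENNReal.ofReal_mul (by positivity), ← ENNReal.ofReal_add (by positivity)
                (by positivity)]
            congr 1
            rw [hδ]
            field_simp
            ring
    rw [ENNReal.ofReal_le_ofReal_iff hη'.le] at hsum2
    exact_mod_cast hsum2

end Pool.Agent.W91.Rationalise
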