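import Mathlib
import Pool.Agent.W91.Rationalise

set_option autoImplicit false
open scoped ENNReal InnerProductSpace
open Filter Topology

namespace Pool.Agent.W91.Hw

open Pool.Agent.W91.Cmp Pool.Agent.W91.Core Pool.Agent.W91.Rationalise

lemma exp_bound (p : ℕ) (t u2 : ℝ) (ht : 1 ≤ t) (hu : 0 ≤ u2) :
    Real.exp (-(u2 / t)) ≤ Real.exp 1 * p.factorial * t ^ p * ((1 + u2) ^ p)⁻¹ := by
  have ht0 : 0 < t := by linarith
  have h1 : (1 + u2) / t ≤ u2 / t + 1 := by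
    rw [add_div, add_comm]
    gcongr
    exact (div_le_one ht0).mpr ht
  have h2 := Real.pow_div_factorial_le_exp ((1 + u2) / t) (by positivity) p
  have hf : (0 : ℝ) < p.factorial := by exact_mod_cast p.factorial_pos
  have h3 : Real.exp (-(u2 / t)) ≤ Real.exp 1 * Real.exp (-((1 + u2) / t)) := by
    rw [← Real.exp_add]
    exact Real.exp_le_exp.mpr (by linarith)
  refine h3.trans ?_
  rw [mul_assoc, mul_assoc]
  refine mul_le_mul_of_nonneg_left ?_ (Real.exp_nonneg _)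
  rw [Real.exp_neg, inv_le_comm₀ (Real.exp_pos _) (by positivity)]
  refine le_trans (le_of_eq ?_) h2
  rw [div_pow]
  field_simp

lemma tendsto_kappa (c : ℝ) (hc : 0 < c) (N p : ℕ) (C : ℝ) :
    Tendsto (fun t : ℝ => ((1 + 16 * Real.exp (-(c * t))) ^ N - 1) * (C * t ^ p)) atTop (𝓝 0) := by
  have h1 : Tendsto (fun t : ℝ => t ^ p * Real.exp (-c * t)) atTop (𝓝 0) := by
    have := tendsto_rpow_mul_exp_neg_mul_atTop_nhds_zero (p : ℝ) c hc
    simpa using this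
  have h2 : Tendsto (fun t : ℝ => Real.exp (-(c * t))) atTop (𝓝 0) := by
    refine Real.tendsto_exp_neg_atTop_nhds_zero.comp ?_
    exact tendsto_id.const_mul_atTop hc
  have h3 : Tendsto (fun t : ℝ => ∑ i ∈ Finset.range N, (1 + 16 * Real.exp (-(c * t))) ^ i) atTop
      (𝓝 (∑ i ∈ Finset.range N, (1 + 16 * 0) ^ i)) :=
    tendsto_finsetSum _ fun i _ => ((h2.const_mul 16).const_add 1).pow i
  have h4 := (h1.mul h3).const_mul (16 * C)
  rw [zero_mul, mul_zero] at h4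
  refine h4.congr fun t => ?_
  have h5 := mul_geom_sum (1 + 16 * Real.exp (-(c * t))) N
  rw [← h5]
  have h6 : -c * t = -(c * t) := by ring
  rw [h6]
  ring

variable {n : ℕ} {X L E : Type} [AddCommGroup X] [DecidableEq X] [AddCommGroup L]
  [NormedAddCommGroup E] [InnerProductSpace ℝ E] (π : Fin n → L →+ X) (τ : L →+ E)

theorem hw (hn : 0 < n) (ht : X → ℕ) {M : Type} [Fintype M] (v : Fin n → M → L)
    (hv0 : ∀ i m, π i (v i m) = 0) (R : ℝ) (hR : 0 < R) (hv : ∀ i m, ‖τ (v i m)‖ ^ 2 ≤ R)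
    (Q : X → ℝ) (hQ : ∀ i y, ∃ l0, π i l0 = y ∧ ∃ t : M → ℝ, ∀ μ, π i μ = 0 →
      ‖τ (l0 + μ)‖ ^ 2 = Q y + ‖τ μ + ∑ m, t m • τ (v i m)‖ ^ 2)
    (N : L → ℝ) (hN0 : ∀ l, 0 ≤ N l) (hN : ∀ l, N l ^ 2 ≤ ‖τ l‖ ^ 2) (p d : ℕ) (C : ℝ) (hC : 0 ≤ C)
    (hht : ∀ i l, ((n : ℝ) ^ 2) ^ ht (π i l) ≤ C * (1 + N l) ^ p)
    (hsum : Summable fun l => ((1 + N l ^ 2) ^ d)⁻¹)
    (T : Finset L) (η : ℚ) (hη : 0 < η) :
    ∃ (w : L →₀ ℚ) (S : Finset X) (m : X → ℚ),
      (∀ l, 0 ≤ w l) ∧ (∀ l ∈ T, 1 ≤ w l) ∧ (∀ i, ∀ l ∈ w.support, π i l ∈ S) ∧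
      (∀ i, ∀ y ∈ S, m y ≤ marg (fun i l => π i l) w i y) ∧
      ∑ i, ∑ y ∈ S, (marg (fun i l => π i l) w i y - m y) * ((n : ℚ) ^ 2) ^ (ht y) ≤ η := by
  classical
  have hη' : (0 : ℝ) < η := by exact_mod_cast hη
  set q : ℕ := p + d with hq
  set Sg : ℝ := ∑' l, ((1 + N l ^ 2) ^ d)⁻¹ with hSg
  have hSg0 : 0 ≤ Sg := tsum_nonneg fun l => by positivity
  set C2 : ℝ := 2 * (Real.exp 1 * q.factorial) * (n * (C * 2 ^ p)) with hC2
  have hC20 : 0 ≤ C2 := by positivity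
  set A : ℕ := Fintype.card M * 2 with hA
  -- choice of the parameter
  obtain ⟨t, ht1, htR, htT, htη⟩ : ∃ t : ℝ, 1 ≤ t ∧ R ≤ t ∧
      (∀ l ∈ T, 1 < 2 * Real.exp (-Real.pi * (1 / t) * ‖τ l‖ ^ 2)) ∧
      ((1 + 16 * Real.exp (-(Real.pi / R * t))) ^ A - 1) * (C2 * Sg * t ^ q) < η / 2 := by
    have e1 := eventually_ge_atTop (1 : ℝ)
    have e2 := eventually_ge_atTop R
    have e3 : ∀ᶠ t : ℝ in atTop, ∀ l ∈ T, 1 < 2 * Real.exp (-Real.pi * (1 / t) * ‖τ l‖ ^ 2) := by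
      rw [Filter.eventually_all_finset]
      intro l _
      have h1 : Tendsto (fun t : ℝ => 2 * Real.exp (-Real.pi * (1 / t) * ‖τ l‖ ^ 2)) atTop
          (𝓝 (2 * Real.exp (-Real.pi * 0 * ‖τ l‖ ^ 2))) := by
        refine Tendsto.const_mul 2 ((Real.continuous_exp.tendsto _).comp ?_)
        refine Tendsto.mul_const _ (Tendsto.const_mul _ ?_)
        exact (tendsto_inv_atTop_zero (𝕜 := ℝ)).congr fun x => (one_div x).symm
      refine h1.eventually_const_lt ?_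
      simp
    have e4 := (tendsto_kappa (Real.pi / R) (by positivity) A q (C2 * Sg)).eventually_lt_const
      (show (0 : ℝ) < η / 2 by positivity)
    obtain ⟨t, ⟨⟨h1, h2⟩, h3⟩, h4⟩ := (((e1.and e2).and e3).and e4).exists
    exact ⟨t, h1, h2, h3, h4⟩
  have ht0 : 0 < t := by linarith
  set s : ℝ := 1 / t with hs
  have hs0 : 0 < s := by positivity
  have hsR : s * R ≤ 1 := by
    rw [hs, one_div, inv_mul_le_iff₀ ht0]
    linarith
  have hexpo : -Real.pi / (s * R) = -(Real.pi / R * t) := by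
    rw [hs]; field_simp
  -- weights
  let W : L → ℝ := fun l => 2 * Real.exp (-Real.pi * s * ‖τ l‖ ^ 2)
  have hW0 : ∀ l, 0 < W l := fun l => by positivity
  have hbound : ∀ l, W l * ∑ i, ((n : ℝ) ^ 2) ^ ht (π i l) ≤ C2 * t ^ q * ((1 + N l ^ 2) ^ d)⁻¹ := by
    intro l
    have hu := hN0 l
    have h1 : Real.exp (-Real.pi * s * ‖τ l‖ ^ 2) ≤
        Real.exp 1 * q.factorial * t ^ q * ((1 + N l ^ 2) ^ q)⁻¹ := by
      refine le_trans (Real.exp_le_exp.mpr ?_) (exp_bound q t (N l ^ 2) ht1 (by positivity))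
      have h2 := hN l
      have h3 : N l ^ 2 / t ≤ ‖τ l‖ ^ 2 / t := by gcongr
      have h4 : -Real.pi * s * ‖τ l‖ ^ 2 = -(Real.pi * (‖τ l‖ ^ 2 / t)) := by
        rw [hs]; ring
      rw [h4]
      have h5 : ‖τ l‖ ^ 2 / t ≤ Real.pi * (‖τ l‖ ^ 2 / t) := by
        refine le_mul_of_one_le_left (by positivity) ?_
        have := Real.pi_gt_three
        linarith
      linarith
    have h2 : ∑ i, ((n : ℝ) ^ 2) ^ ht (π i l) ≤ n * (C * 2 ^ p) * (1 + N l ^ 2) ^ p := by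
      calc ∑ i, ((n : ℝ) ^ 2) ^ ht (π i l) ≤ ∑ i : Fin n, C * (1 + N l) ^ p :=
            Finset.sum_le_sum fun i _ => hht i l
        _ = n * (C * (1 + N l) ^ p) := by simp
        _ ≤ n * (C * (2 * (1 + N l ^ 2)) ^ p) := by
            gcongr
            nlinarith [sq_nonneg (N l - 1)]
        _ = n * (C * 2 ^ p) * (1 + N l ^ 2) ^ p := by rw [mul_pow]; ring
    calc W l * ∑ i, ((n : ℝ) ^ 2) ^ ht (π i l)
        ≤ (2 * (Real.exp 1 * q.factorial * t ^ q * ((1 + N l ^ 2) ^ q)⁻¹)) *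
          (n * (C * 2 ^ p) * (1 + N l ^ 2) ^ p) := by
          refine mul_le_mul (mul_le_mul_of_nonneg_left h1 (by norm_num)) h2
            (Finset.sum_nonneg fun i _ => by positivity) (by positivity)
      _ = C2 * t ^ q * ((1 + N l ^ 2) ^ d)⁻¹ := by
          rw [hC2, hq, pow_add (1 + N l ^ 2)]
          have : (1 + N l ^ 2) ≠ 0 := by positivity
          field_simp
  have hHH : ∀ l, HH (fun i l => π i l) ht l = ENNReal.ofReal (∑ i, ((n : ℝ) ^ 2) ^ ht (π i l)) := by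
    intro l
    simp only [HH]
    rw [ENNReal.ofReal_sum_of_nonneg (fun i _ => by positivity)]
    refine Finset.sum_congr rfl fun i _ => ?_
    rw [ENNReal.ofReal_pow (by positivity), ENNReal.ofReal_pow (by positivity),
      ENNReal.ofReal_natCast]
  have htot : ∑' l, ENNReal.ofReal (W l) * HH (fun i l => π i l) ht l ≤
      ENNReal.ofReal (C2 * Sg * t ^ q) := by
    calc ∑' l, ENNReal.ofReal (W l) * HH (fun i l => π i l) ht l
        ≤ ∑' l, ENNReal.ofReal (C2 * t ^ q * ((1 + N l ^ 2) ^ d)⁻¹) := by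
          refine ENNReal.tsum_le_tsum fun l => ?_
          rw [hHH, ← ENNReal.ofReal_mul (hW0 l).le]
          exact ENNReal.ofReal_le_ofReal (hbound l)
      _ = ENNReal.ofReal (∑' l, C2 * t ^ q * ((1 + N l ^ 2) ^ d)⁻¹) :=
          (ENNReal.ofReal_tsum_of_nonneg (fun l => by positivity) (hsum.mul_left _)).symm
      _ = ENNReal.ofReal (C2 * Sg * t ^ q) := by
          rw [tsum_mul_left, ← hSg]; ring_nf
  have htop : ∑' l, ENNReal.ofReal (W l) * HH (fun i l => π i l) ht l ≠ ⊤ :=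
    ne_top_of_le_ne_top ENNReal.ofReal_ne_top htot
  have hHH1 : ∀ l, 1 ≤ HH (fun i l => π i l) ht l := by
    intro l
    unfold HH
    refine le_trans ?_ (Finset.single_le_sum (f := fun i => ((n : ℝ≥0∞) ^ 2) ^ ht (π i l))
      (fun _ _ => zero_le) (Finset.mem_univ ⟨0, hn⟩))
    have h1 : (1 : ℝ≥0∞) ≤ (n : ℝ≥0∞) := by exact_mod_cast hn
    exact one_le_pow₀ (one_le_pow₀ h1)
  have hfin : ∑' l, ENNReal.ofReal (Real.exp (-Real.pi * s * ‖τ l‖ ^ 2)) ≠ ⊤ := by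
    refine ne_top_of_le_ne_top htop (ENNReal.tsum_le_tsum fun l => ?_)
    calc ENNReal.ofReal (Real.exp (-Real.pi * s * ‖τ l‖ ^ 2)) ≤ ENNReal.ofReal (W l) := by
          refine ENNReal.ofReal_le_ofReal ?_
          simp only [W]
          have := Real.exp_pos (-Real.pi * s * ‖τ l‖ ^ 2)
          linarith
      _ = ENNReal.ofReal (W l) * 1 := (mul_one _).symm
      _ ≤ _ := by gcongr; exact hHH1 l
  -- comparison
  set κ : ℝ := (1 + 16 * Real.exp (-(Real.pi / R * t))) ^ A - 1 with hκ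
  have hκ0 : 0 ≤ κ := by
    rw [hκ, sub_nonneg]
    refine one_le_pow₀ ?_
    have := Real.exp_pos (-(Real.pi / R * t))
    linarith
  have hcmp : ∀ i k y, mg' (fun i l => π i l) (fun l => ENNReal.ofReal (W l)) i y ≤
      ENNReal.ofReal (1 + κ) * mg' (fun i l => π i l) (fun l => ENNReal.ofReal (W l)) k y := by
    intro i k y
    have h1 := cmp π τ v hv0 R s hR hs0 hsR hv Q hQ hfin i k y
    have h2 : ∀ i, mg' (fun i l => π i l) (fun l => ENNReal.ofReal (W l)) i y =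
        2 * mg π (fun l => ENNReal.ofReal (Real.exp (-Real.pi * s * ‖τ l‖ ^ 2))) i y := by
      intro i
      unfold mg' mg
      rw [← ENNReal.tsum_mul_left]
      refine tsum_congr fun l => ?_
      split_ifs
      · simp only [W]
        rw [ENNReal.ofReal_mul (by norm_num)]
        norm_num
      · rw [mul_zero]
    rw [h2, h2]
    have h3 : ENNReal.ofReal (1 + κ) =
        (ENNReal.ofReal (1 + 16 * Real.exp (-Real.pi / (s * R))) ^ (Fintype.card M)) ^ 2 := by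
      rw [← pow_mul, ← ENNReal.ofReal_pow (by positivity), hexpo, hκ]
      congr 1
      ring
    rw [h3]
    calc _ ≤ 2 * ((ENNReal.ofReal (1 + 16 * Real.exp (-Real.pi / (s * R))) ^ (Fintype.card M)) ^ 2 *
          mg π (fun l => ENNReal.ofReal (Real.exp (-Real.pi * s * ‖τ l‖ ^ 2))) k y) := by
          gcongr
      _ = _ := by ring
  refine hw_of hn (fun i l => π i l) ht T η hη W κ hκ0 hW0 htT hcmp htop ?_
  calc ENNReal.ofReal κ * ∑' l, ENNReal.ofReal (W l) * HH (fun i l => π i l) ht l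
      ≤ ENNReal.ofReal κ * ENNReal.ofReal (C2 * Sg * t ^ q) := by gcongr
    _ = ENNReal.ofReal (κ * (C2 * Sg * t ^ q)) := (ENNReal.ofReal_mul hκ0).symm
    _ ≤ ENNReal.ofReal ((η : ℝ) / 2) := ENNReal.ofReal_le_ofReal htη.le

end Pool.Agent.W91.Hw
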