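import Mathlib
import Pool.Agent.W91.Core

set_option autoImplicit false

namespace Pool.Agent.W91.PermOf

open Pool.Agent.W91.Core

lemma exists_perm {Ω X : Type} [Fintype Ω] [DecidableEq X] (f g : Ω → X)
    (h : ∀ y, (Finset.univ.filter fun ω => f ω = y).card = (Finset.univ.filter fun ω => g ω = y).card) :
    ∃ σ : Equiv.Perm Ω, ∀ ω, g (σ ω) = f ω := by
  classical
  have e : ∀ y, Nonempty ({ω // f ω = y} ≃ {ω // g ω = y}) := by
    intro y
    refine ⟨Fintype.equivOfCardEq ?_⟩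
    rw [Fintype.card_subtype, Fintype.card_subtype]
    exact h y
  let e' : ∀ y, {ω // f ω = y} ≃ {ω // g ω = y} := fun y => (e y).some
  let σ : Equiv.Perm Ω := (Equiv.sigmaFiberEquiv f).symm.trans
    ((Equiv.sigmaCongrRight fun y => (e' y)).trans (Equiv.sigmaFiberEquiv g))
  exact ⟨σ, fun ω => (e' (f ω) ⟨ω, rfl⟩).2⟩

theorem perm_of {n : ℕ} (hn : 0 < n) {L X : Type} [DecidableEq X] (π : Fin n → L → X)
    (μ : L →₀ ℚ) (hμ0 : ∀ l, 0 ≤ μ l) (l1 : L) (h1 : 0 < μ l1)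
    (hμ : ∀ i j y, marg π μ i y = marg π μ j y) :
    ∃ (Ω : Type) (_ : Fintype Ω) (lam : Ω → L) (σ : Fin n → Equiv.Perm Ω),
      (∀ i ω, π ⟨0, hn⟩ (lam (σ i ω)) = π i (lam ω)) ∧ ∃ ω, lam ω = l1 := by
  classical
  -- common denominator
  let D : ℕ := ∏ l ∈ μ.support, (μ l).den
  have hD : 0 < D := Finset.prod_pos fun l _ => (μ l).den_pos
  have hm : ∀ l, ∃ m : ℕ, (m : ℚ) = D * μ l := by
    intro l
    by_cases hl : l ∈ μ.support
    · obtain ⟨k, hk⟩ : (μ l).den ∣ D := Finset.dvd_prod_of_mem (fun l => (μ l).den) hl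
      refine ⟨k * (μ l).num.toNat, ?_⟩
      have h2 : (((μ l).num.toNat : ℕ) : ℤ) = (μ l).num :=
        Int.toNat_of_nonneg (Rat.num_nonneg.mpr (hμ0 l))
      have h3 : (((μ l).num.toNat : ℕ) : ℚ) = ((μ l).num : ℚ) := by exact_mod_cast h2
      have h4 : (((μ l).den : ℕ) : ℚ) * μ l = ((μ l).num : ℚ) := by
        rw [mul_comm]; exact Rat.mul_den_eq_num (μ l)
      rw [hk]
      push_cast
      rw [h3, ← h4]
      ring
    · rw [Finsupp.notMem_support_iff] at hl
      exact ⟨0, by rw [hl]; simp⟩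
  choose m hm using hm
  let Ω : Type := Σ l : μ.support, Fin (m l)
  let lam : Ω → L := fun ω => ω.1.1
  have hcard : ∀ i y, (((Finset.univ.filter fun ω : Ω => π i (lam ω) = y).card : ℕ) : ℚ) =
      D * marg π μ i y := by
    intro i y
    rw [Finset.card_filter]
    rw [Fintype.sum_sigma]
    push_cast
    unfold marg
    rw [Finsupp.sum, Finset.mul_sum, ← Finset.sum_coe_sort μ.support]
    refine Finset.sum_congr rfl fun l _ => ?_
    simp only [lam]
    split_ifs with h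
    · simp [hm]
    · simp
  have hfib : ∀ i y, (Finset.univ.filter fun ω : Ω => π i (lam ω) = y).card =
      (Finset.univ.filter fun ω : Ω => π ⟨0, hn⟩ (lam ω) = y).card := by
    intro i y
    have h2 := hcard i y
    rw [hμ i ⟨0, hn⟩ y, ← hcard] at h2
    exact_mod_cast h2
  choose σ hσ using fun i => exists_perm (fun ω : Ω => π i (lam ω))
    (fun ω : Ω => π ⟨0, hn⟩ (lam ω)) (hfib i)
  refine ⟨Ω, inferInstance, lam, σ, hσ, ?_⟩
  have hl1 : l1 ∈ μ.support := Finsupp.mem_support_iff.mpr h1.ne'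
  have hm1 : 0 < m l1 := by
    have h3 : (0 : ℚ) < m l1 := by
      rw [hm]
      have : (0 : ℚ) < D := by exact_mod_cast hD
      positivity
    exact_mod_cast h3
  exact ⟨⟨⟨l1, hl1⟩, ⟨0, hm1⟩⟩, rfl⟩

end Pool.Agent.W91.PermOf
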