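import Mathlib

set_option autoImplicit false
open Polynomial

namespace Pool.Agent.W91.SymGal

/-- the product `∏_{k<r} (X - 2(k+1))` -/
noncomputable def h0 (R : Type) [CommRing R] (r : ℕ) : R[X] :=
  ∏ k ∈ Finset.range r, (X - C (2 * ((k : R) + 1)))

/-- `(X^2 + m) h0 - 2` -/
noncomputable def ff (R : Type) [CommRing R] (r : ℕ) (m : ℕ) : R[X] :=
  (X ^ 2 + C (m : R)) * h0 R r - C 2

lemma h0_monic (R : Type) [CommRing R] (r : ℕ) : (h0 R r).Monic :=
  monic_prod_of_monic _ _ fun _ _ => monic_X_sub_C _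

lemma h0_natDegree (R : Type) [CommRing R] [Nontrivial R] (r : ℕ) : (h0 R r).natDegree = r := by
  unfold h0
  rw [natDegree_prod_of_monic _ _ fun _ _ => monic_X_sub_C _]
  simp only [natDegree_X_sub_C, Finset.sum_const, Finset.card_range, smul_eq_mul, mul_one]

lemma h0_map {R S : Type} [CommRing R] [CommRing S] (φ : R →+* S) (r : ℕ) :
    (h0 R r).map φ = h0 S r := by
  unfold h0
  rw [Polynomial.map_prod]
  refine Finset.prod_congr rfl fun k _ => ?_
  rw [Polynomial.map_sub, map_X, map_C]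
  simp only [map_mul, map_ofNat, map_add, map_natCast, map_one]

lemma ff_map {R S : Type} [CommRing R] [CommRing S] (φ : R →+* S) (r m : ℕ) :
    (ff R r m).map φ = ff S r m := by
  unfold ff
  rw [Polynomial.map_sub, Polynomial.map_mul, h0_map, Polynomial.map_add,
    Polynomial.map_pow, map_X, Polynomial.map_C, Polynomial.map_C, map_natCast φ, map_ofNat φ]

lemma x2_monic (R : Type) [CommRing R] [Nontrivial R] (m : ℕ) : (X ^ 2 + C (m : R)).Monic := by
  monicity!

lemma x2_natDegree (R : Type) [CommRing R] [Nontrivial R] (m : ℕ) :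
    (X ^ 2 + C (m : R)).natDegree = 2 := by
  compute_degree!

lemma prod_natDegree (R : Type) [CommRing R] [Nontrivial R] (r m : ℕ) :
    ((X ^ 2 + C (m : R)) * h0 R r).natDegree = r + 2 := by
  rw [(x2_monic R m).natDegree_mul (h0_monic R r), x2_natDegree, h0_natDegree, add_comm]

lemma ff_monic (R : Type) [CommRing R] [Nontrivial R] (r m : ℕ) : (ff R r m).Monic := by
  unfold ff
  apply Monic.sub_of_left ((x2_monic R m).mul (h0_monic R r))
  rw [degree_eq_natDegree ((x2_monic R m).mul (h0_monic R r)).ne_zero, prod_natDegree]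
  exact lt_of_le_of_lt degree_C_le (by exact_mod_cast Nat.succ_pos _)

lemma ff_natDegree (R : Type) [CommRing R] [Nontrivial R] (r m : ℕ) :
    (ff R r m).natDegree = r + 2 := by
  unfold ff
  rw [natDegree_sub_C, prod_natDegree]

lemma irred (r m : ℕ) (hr : 0 < r) (hm : Even m) : Irreducible (ff ℤ r m) := by
  have h2 : (Ideal.span {(2 : ℤ)}).IsPrime := by
    rw [Ideal.span_singleton_prime (by norm_num)]
    exact Int.prime_two
  apply irreducible_of_eisenstein_criterion (P := Ideal.span {(2 : ℤ)}) h2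
  · rw [(ff_monic ℤ r m).leadingCoeff]
    rw [Ideal.mem_span_singleton]; norm_num
  · intro n hn
    rw [Ideal.mem_span_singleton]
    have hmap : (ff ℤ r m).map (Int.castRingHom (ZMod 2)) = X ^ (r + 2) := by
      rw [ff_map]
      unfold ff h0
      have h20 : (2 : ZMod 2) = 0 := rfl
      have hm0 : (m : ZMod 2) = 0 := by
        rw [ZMod.natCast_eq_zero_iff]; exact hm.two_dvd
      simp [h20, hm0, pow_add, mul_comm]
    have hc := congrArg (fun q => q.coeff n) hmap
    simp only [coeff_map, coeff_X_pow] at hc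
    have hne : n ≠ r + 2 := by
      intro h
      rw [degree_eq_natDegree (ff_monic ℤ r m).ne_zero, ff_natDegree, h] at hn
      exact lt_irrefl _ hn
    rw [if_neg hne] at hc
    have := (ZMod.intCast_zmod_eq_zero_iff_dvd ((ff ℤ r m).coeff n) 2).mp (by simpa using hc)
    simpa using this
  · rw [degree_eq_natDegree (ff_monic ℤ r m).ne_zero, ff_natDegree]
    exact_mod_cast Nat.succ_pos _
  · rw [Ideal.span_singleton_pow, Ideal.mem_span_singleton]
    rw [coeff_zero_eq_eval_zero]
    unfold ff h0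
    simp only [eval_sub, eval_mul, eval_add, eval_pow, eval_X, eval_C, eval_prod]
    obtain ⟨s, hs⟩ := hm
    obtain ⟨t, rfl⟩ : ∃ t, r = t + 1 := ⟨r - 1, by omega⟩
    rw [Finset.prod_range_succ']
    intro hdvd
    obtain ⟨c, hc⟩ := hdvd
    have : (m : ℤ) = 2 * s := by rw [hs]; push_cast; ring
    rw [this] at hc
    set P := ∏ k ∈ Finset.range t, ((0 : ℤ) - 2 * (((k + 1 : ℕ) : ℤ) + 1)) with hP
    have h3 : ((0 : ℤ) ^ 2 + 2 * (s : ℤ)) * (P * (0 - 2 * (((0 : ℕ) : ℤ) + 1))) = -4 * (s * P) := by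
      push_cast; ring
    rw [h3] at hc
    generalize (s : ℤ) * P = y at hc
    omega
  · exact (ff_monic ℤ r m).isPrimitive

lemma irredQ (r m : ℕ) (hr : 0 < r) (hm : Even m) : Irreducible (ff ℚ r m) := by
  have := (IsPrimitive.Int.irreducible_iff_irreducible_map_cast (ff_monic ℤ r m).isPrimitive).mp
    (irred r m hr hm)
  rwa [ff_map] at this

/-- the sign of the values at the odd integers -/
lemma sign_h0 (r j : ℕ) (hj : j ≤ r) :
    1 ≤ (-1 : ℝ) ^ (r - j) * eval (2 * (j : ℝ) + 1) (h0 ℝ r) := by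
  unfold h0
  rw [eval_prod]
  have h1 : (-1 : ℝ) ^ (r - j) = ∏ k ∈ Finset.range r, (if k < j then (1 : ℝ) else -1) := by
    rw [Finset.prod_ite]
    simp only [Finset.prod_const_one, one_mul, Finset.prod_const]
    congr 1
    have : (Finset.range r).filter (fun k => ¬ k < j) = Finset.Ico j r := by
      ext k; simp only [Finset.mem_filter, Finset.mem_range, Finset.mem_Ico]; omega
    rw [this, Nat.card_Ico]
  rw [h1, ← Finset.prod_mul_distrib]
  refine Finset.prod_induction _ (fun x : ℝ => 1 ≤ x)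
    (fun a b ha hb => one_le_mul_of_one_le_of_one_le ha hb) le_rfl fun k _ => ?_
  simp only [eval_sub, eval_X, eval_C]
  by_cases hk : k < j
  · rw [if_pos hk]
    have : (k : ℝ) + 1 ≤ j := by exact_mod_cast hk
    linarith
  · rw [if_neg hk]
    have : (j : ℝ) ≤ k := by exact_mod_cast (not_lt.mp hk)
    linarith

lemma sign_ff (r m j : ℕ) (hj : j ≤ r) (hm : 2 ≤ m) :
    0 < (-1 : ℝ) ^ (r - j) * eval (2 * (j : ℝ) + 1) (ff ℝ r m) := by
  have h := sign_h0 r j hj
  unfold ff
  simp only [eval_sub, eval_mul, eval_add, eval_pow, eval_X, eval_C]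
  set E := eval (2 * (j : ℝ) + 1) (h0 ℝ r)
  have hm' : (2 : ℝ) ≤ m := by exact_mod_cast hm
  have hsq : 0 < (2 * (j : ℝ) + 1) ^ 2 := by positivity
  have e : (-1 : ℝ) ^ (r - j) * (((2 * (j : ℝ) + 1) ^ 2 + m) * E - 2)
      = ((2 * (j : ℝ) + 1) ^ 2 + m) * ((-1 : ℝ) ^ (r - j) * E) - 2 * (-1 : ℝ) ^ (r - j) := by ring
  rw [e]
  have h2 : (-1 : ℝ) ^ (r - j) ≤ 1 := by
    rcases neg_one_pow_eq_or ℝ (r - j) with h | h
    · rw [h]
    · rw [h]; norm_num
  nlinarith

/-- at least `r` real roots -/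
lemma card_ge (r m : ℕ) (hm : 2 ≤ m) : r ≤ ((ff ℝ r m).roots.toFinset).card := by
  have hex : ∀ j : Fin r, ∃ x : ℝ, 2 * (j : ℝ) + 1 < x ∧ x < 2 * (j : ℝ) + 3 ∧
      eval x (ff ℝ r m) = 0 := by
    intro j
    have h1 := sign_ff r m j j.2.le hm
    have h2 := sign_ff r m (j + 1) j.2 hm
    have e1 : r - (j : ℕ) = (r - ((j : ℕ) + 1)) + 1 := by have := j.2; omega
    rw [e1, pow_succ] at h1
    set u := (-1 : ℝ) ^ (r - ((j : ℕ) + 1)) with hu
    have e2 : (2 * (((j : ℕ) + 1 : ℕ) : ℝ) + 1) = 2 * (j : ℝ) + 3 := by push_cast; ring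
    rw [e2] at h2
    have hcont : Continuous fun x : ℝ => u * eval x (ff ℝ r m) :=
      continuous_const.mul (ff ℝ r m).continuous
    have hle : 2 * (j : ℝ) + 1 ≤ 2 * (j : ℝ) + 3 := by linarith
    have := intermediate_value_Icc hle hcont.continuousOn
    obtain ⟨x, hx, hx0⟩ := this ⟨by nlinarith, h2.le⟩
    have hu0 : u ≠ 0 := pow_ne_zero _ (by norm_num)
    have hx1 : eval x (ff ℝ r m) = 0 := by
      have : u * eval x (ff ℝ r m) = 0 := hx0
      exact (mul_eq_zero.mp this).resolve_left hu0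
    refine ⟨x, lt_of_le_of_ne hx.1 ?_, lt_of_le_of_ne hx.2 ?_, hx1⟩
    · rintro rfl; rw [hx1] at h1; simp at h1
    · rintro rfl; rw [hx1] at h2; simp at h2
  choose x hx1 hx2 hx3 using hex
  have hinj : Function.Injective x := by
    intro i j hij
    by_contra hne
    rcases lt_or_gt_of_ne (fun h => hne (Fin.ext h) : (i : ℕ) ≠ j) with h | h
    · have h' : (i : ℝ) + 1 ≤ j := by exact_mod_cast h
      have := hx2 i; have := hx1 j; rw [hij] at *; linarith
    · have h' : (j : ℝ) + 1 ≤ i := by exact_mod_cast h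
      have := hx2 j; have := hx1 i; rw [hij] at *; linarith
  have : (Finset.univ.image x).card = r := by
    rw [Finset.card_image_of_injective _ hinj]; simp
  refine this.symm.le.trans (Finset.card_le_card ?_)
  intro y hy
  obtain ⟨j, -, rfl⟩ := Finset.mem_image.mp hy
  rw [Multiset.mem_toFinset, mem_roots (ff_monic ℝ r m).ne_zero]
  exact hx3 j

lemma roots_iterate (g : ℝ[X]) (k : ℕ) :
    g.roots.card ≤ (derivative^[k] g).roots.card + k := by
  induction k with
  | zero => simp
  | succ k ih =>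
    rw [Function.iterate_succ_apply']
    have := card_roots_le_derivative (derivative^[k] g)
    omega

/-- for large `m` at most `r` real roots -/
lemma card_le (r : ℕ) (hr : 0 < r) : ∃ M : ℕ, ∀ m, M ≤ m → (ff ℝ r m).roots.card ≤ r := by
  set A : ℝ[X] := derivative^[r] (X ^ 2 * h0 ℝ r) with hA
  have hAdeg : A.natDegree ≤ 2 := by
    refine (natDegree_iterate_derivative _ _).trans ?_
    rw [(monic_X_pow 2).natDegree_mul (h0_monic ℝ r), natDegree_X_pow, h0_natDegree]
    omega
  have hA2 : 0 < A.coeff 2 := by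
    rw [hA, coeff_iterate_derivative]
    have : (X ^ 2 * h0 ℝ r).coeff (2 + r) = 1 := by
      have h := ((monic_X_pow 2).mul (h0_monic ℝ r)).coeff_natDegree
      rwa [(monic_X_pow 2).natDegree_mul (h0_monic ℝ r), natDegree_X_pow, h0_natDegree] at h
    rw [this, nsmul_one]
    exact_mod_cast Nat.descFactorial_pos.mpr (by omega)
  have hB : derivative^[r] (h0 ℝ r) = C (r.factorial : ℝ) := by
    have h1 : (derivative^[r] (h0 ℝ r)).natDegree ≤ 0 := by
      refine (natDegree_iterate_derivative _ _).trans ?_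
      rw [h0_natDegree]; omega
    rw [eq_C_of_natDegree_le_zero h1, coeff_iterate_derivative]
    congr 1
    have := (h0_monic ℝ r).coeff_natDegree
    rw [h0_natDegree] at this
    rw [zero_add, this, nsmul_one, Nat.descFactorial_self]
  have hlow : ∃ B : ℝ, ∀ x, B ≤ eval x A := by
    refine ⟨A.coeff 0 - A.coeff 1 ^ 2 / (4 * A.coeff 2), fun x => ?_⟩
    have hx : eval x A = A.coeff 2 * x ^ 2 + A.coeff 1 * x + A.coeff 0 := by
      conv_lhs => rw [A.as_sum_range_C_mul_X_pow' (n := 3) (by omega)]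
      simp [Finset.sum_range_succ]
      ring
    rw [hx]
    have : A.coeff 2 * x ^ 2 + A.coeff 1 * x + A.coeff 0
        - (A.coeff 0 - A.coeff 1 ^ 2 / (4 * A.coeff 2))
        = A.coeff 2 * (x + A.coeff 1 / (2 * A.coeff 2)) ^ 2 := by
      field_simp
      ring
    have h3 : 0 ≤ A.coeff 2 * (x + A.coeff 1 / (2 * A.coeff 2)) ^ 2 := by positivity
    linarith
  obtain ⟨B, hB'⟩ := hlow
  obtain ⟨M, hM⟩ := exists_nat_gt (-B)
  refine ⟨M, fun m hm => ?_⟩
  have key : derivative^[r] (ff ℝ r m) = A + C (m : ℝ) * C (r.factorial : ℝ) := by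
    unfold ff
    rw [add_mul, iterate_derivative_sub, iterate_map_add (derivative (R := ℝ)), ← hA,
      iterate_derivative_C_mul, hB, iterate_derivative_C hr, sub_zero]
  have hno : (derivative^[r] (ff ℝ r m)).roots = 0 := by
    rw [Multiset.eq_zero_iff_forall_notMem]
    intro x hx
    have hx' := isRoot_of_mem_roots hx
    rw [key, IsRoot.def, eval_add, eval_mul, eval_C, eval_C] at hx'
    have h1 := hB' x
    have h2 : (M : ℝ) ≤ m := by exact_mod_cast hm
    have h3 : (1 : ℝ) ≤ r.factorial := by exact_mod_cast Nat.factorial_pos r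
    have h4 : (m : ℝ) * 1 ≤ m * r.factorial := by
      apply mul_le_mul_of_nonneg_left h3 (Nat.cast_nonneg _)
    linarith
  have := roots_iterate (ff ℝ r m) r
  rw [hno] at this
  simpa using this

end Pool.Agent.W91.SymGal
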