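import Mathlib
import Pool.Agent.W91.SymGal

set_option autoImplicit false
open Polynomial

namespace Pool.Agent.W91.SymGal

attribute [local instance] Polynomial.Gal.splits_ℚ_ℂ

/-- the number of roots in an algebraically closed field -/
lemma card_rootSet (f : ℚ[X]) (hf : Irreducible f) (E : Type) [Field E] [Algebra ℚ E]
    [IsAlgClosed E] : Fintype.card (f.rootSet E) = f.natDegree := by
  classical
  simp_rw [rootSet_def, Finset.coe_sort_coe, Fintype.card_coe]
  rw [Multiset.toFinset_card_of_nodup, ← Splits.natDegree_eq_card_roots, natDegree_map]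
  · exact IsAlgClosed.splits _
  · exact nodup_roots ((separable_map (algebraMap ℚ E)).mpr hf.separable)

theorem exists_full (p : ℕ) (hp : p.Prime) (h3 : 3 ≤ p) :
    ∃ f : ℚ[X], Irreducible f ∧ f.natDegree = p ∧ Function.Bijective (Gal.galActionHom f ℂ) := by
  classical
  obtain ⟨M, hM⟩ := card_le (p - 2) (by omega)
  set m := 2 * (M + 1) with hm
  refine ⟨ff ℚ (p - 2) m, irredQ _ _ (by omega) (even_two_mul _), ?_, ?_⟩
  · rw [ff_natDegree]; omega
  have hirr := irredQ (p - 2) m (by omega) (even_two_mul _)
  have hdeg : (ff ℚ (p - 2) m).natDegree = p := by rw [ff_natDegree]; omega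
  have hC : Fintype.card ((ff ℚ (p - 2) m).rootSet ℂ) = p := by
    rw [card_rootSet _ hirr, hdeg]
  have hR : Fintype.card ((ff ℚ (p - 2) m).rootSet ℝ) = ((ff ℝ (p - 2) m).roots.toFinset).card := by
    simp_rw [rootSet_def, Finset.coe_sort_coe, Fintype.card_coe, aroots_def]
    rw [ff_map]
  have h1 := card_ge (p - 2) m (by omega)
  have h2 := hM m (by omega)
  have h4 := Multiset.toFinset_card_le (ff ℝ (p - 2) m).roots
  apply Gal.galActionHom_bijective_of_prime_degree' hirr (by rw [hdeg]; exact hp)
  · rw [hC, hR]; omega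
  · rw [hC, hR]; omega

/-- every permutation of the roots is induced by an automorphism of `E` -/
theorem exists_aut (f : ℚ[X]) (hf : Irreducible f) (hb : Function.Bijective (Gal.galActionHom f ℂ))
    (E : Type) [Field E] [Algebra ℚ E] [IsAlgClosed E] [Algebra.IsAlgebraic ℚ E]
    (τ : Equiv.Perm (f.rootSet E)) :
    ∃ g : E ≃ₐ[ℚ] E, ∀ x : f.rootSet E, g (x : E) = (τ x : E) := by
  classical
  have : Fact ((map (algebraMap ℚ E) f).Splits) := ⟨IsAlgClosed.splits _⟩
  have : Normal ℚ E := normal_iff.mpr fun x =>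
        ⟨Algebra.IsIntegral.isIntegral x, IsAlgClosed.splits _⟩
  have hinj := Gal.galActionHom_injective f E
  have hsurj : Function.Surjective (Gal.galActionHom f E) := by
    have hcard : Fintype.card f.Gal = Fintype.card (Equiv.Perm (f.rootSet E)) := by
      rw [Fintype.card_of_bijective hb, Fintype.card_perm, Fintype.card_perm, card_rootSet f hf,
        card_rootSet f hf]
    exact ((Fintype.bijective_iff_injective_and_card _).mpr ⟨hinj, hcard⟩).2
  obtain ⟨s, hs⟩ := hsurj τ
  obtain ⟨g, hg⟩ := Gal.restrict_surjective f E s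
  refine ⟨g, fun x => ?_⟩
  rw [← Gal.galActionHom_restrict f E g x, hg, hs]

end Pool.Agent.W91.SymGal
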