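import Mathlib
import Pool.Agent.W91.SymGal2

set_option autoImplicit false
open Polynomial

namespace Pool.Agent.W91.Realize

/-- composition of embeddings with automorphisms, as an action by permutations -/
noncomputable def act (K E : Type) [Field K] [Field E] [Algebra ℚ K] [Algebra ℚ E] :
    (E ≃ₐ[ℚ] E) →* Equiv.Perm (K →ₐ[ℚ] E) where
  toFun g :=
    { toFun := fun φ => (g : E →ₐ[ℚ] E).comp φ
      invFun := fun φ => (g.symm : E →ₐ[ℚ] E).comp φ
      left_inv := fun φ => by ext x; simp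
      right_inv := fun φ => by ext x; simp }
  map_one' := by ext φ x; rfl
  map_mul' g h := by ext φ x; rfl

/-- the power `D` -/
noncomputable def D (K E : Type) [Field K] [Field E] [Algebra ℚ K] [Algebra ℚ E]
    [FiniteDimensional ℚ K] : ℕ := Nat.card (Equiv.Perm (K →ₐ[ℚ] E))

theorem exists_fix (K E : Type) [Field K] [Field E] [Algebra ℚ K] [FiniteDimensional ℚ K]
    [Algebra ℚ E] [Algebra K E] [IsScalarTower ℚ K E] (g : E ≃ₐ[ℚ] E) :
    ∃ g' : E ≃ₐ[K] E, ∀ x, g' x = (g ^ D K E) x := by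
  have h1 : (act K E g) ^ (D K E) = 1 := by
    unfold D
    exact pow_card_eq_one'
  have h2 : ∀ k : K, (g ^ D K E) (algebraMap K E k) = algebraMap K E k := by
    intro k
    rw [← map_pow] at h1
    have h3 := Equiv.ext_iff.mp h1 (IsScalarTower.toAlgHom ℚ K E)
    have h4 := DFunLike.congr_fun h3 k
    exact h4
  exact ⟨{ (g ^ D K E).toRingEquiv with commutes' := h2 }, fun x => rfl⟩

/-- the permutations of the roots induced by `K`-automorphisms -/
def HH (K E : Type) [Field K] [Field E] [Algebra ℚ E] [Algebra K E] (f : ℚ[X]) :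
    Subgroup (Equiv.Perm (f.rootSet E)) where
  carrier := {τ | ∃ g : E ≃ₐ[K] E, ∀ x : f.rootSet E, g (x : E) = (τ x : E)}
  mul_mem' := by
    rintro a b ⟨g, hg⟩ ⟨h, hh⟩
    refine ⟨g * h, fun x => ?_⟩
    rw [AlgEquiv.mul_apply, hh, hg]; rfl
  one_mem' := ⟨1, fun x => rfl⟩
  inv_mem' := by
    rintro a ⟨g, hg⟩
    refine ⟨g⁻¹, fun x => ?_⟩
    have h1 := hg (a⁻¹ x)
    have h2 : a (a⁻¹ x) = x := a.apply_symm_apply x
    rw [h2] at h1
    rw [← h1]
    exact g.symm_apply_apply _

theorem alt_le (K E : Type) [Field K] [Field E] [Algebra ℚ K] [FiniteDimensional ℚ K]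
    [Algebra ℚ E] [Algebra K E] [IsScalarTower ℚ K E] [IsAlgClosed E] [Algebra.IsAlgebraic ℚ E]
    (f : ℚ[X]) (hf : Irreducible f)
    (hsurj : ∀ τ : Equiv.Perm (f.rootSet E), ∃ g : E ≃ₐ[ℚ] E, ∀ x : f.rootSet E, g (x : E) = (τ x : E))
    (hp : f.natDegree.Prime) (h5 : 5 ≤ f.natDegree)
    (hlt : Nat.card (K →ₐ[ℚ] E) < f.natDegree) [DecidableEq (f.rootSet E)] :
    alternatingGroup (f.rootSet E) ≤ HH K E f := by
  classical
  have hcard : Fintype.card (f.rootSet E) = f.natDegree := SymGal.card_rootSet f hf E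
  have hpow : ∀ τ : Equiv.Perm (f.rootSet E), τ ^ D K E ∈ HH K E f := by
    intro τ
    obtain ⟨g, hg⟩ := hsurj τ
    obtain ⟨g', hg'⟩ := exists_fix K E g
    refine ⟨g', fun x => ?_⟩
    rw [hg']
    generalize D K E = m
    induction m generalizing x with
    | zero => simp
    | succ m ih =>
      rw [pow_succ, pow_succ, AlgEquiv.mul_apply, hg, ih, Equiv.Perm.mul_apply]
  have hN : Subgroup.normalClosure {τ : Equiv.Perm (f.rootSet E) | ∃ ρ, τ = ρ ^ D K E} ≤ HH K E f := by
    unfold Subgroup.normalClosure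
    rw [Subgroup.closure_le]
    intro x hx
    rw [Group.mem_conjugatesOfSet_iff] at hx
    obtain ⟨a, ⟨ρ, rfl⟩, hc⟩ := hx
    obtain ⟨c, rfl⟩ := isConj_iff.mp hc
    rw [← conj_pow]
    exact hpow _
  refine le_trans (Equiv.Perm.alternatingGroup_le_of_normal ?_ ?_) hN
  · rw [Nat.card_eq_fintype_card, hcard]; exact h5
  · -- nontrivial
    obtain ⟨g, hg⟩ : ∃ g : Equiv.Perm (f.rootSet E), orderOf g = f.natDegree := by
      have : Fact (f.natDegree.Prime) := ⟨hp⟩
      apply exists_prime_orderOf_dvd_card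
      rw [Fintype.card_perm, hcard]
      exact Nat.dvd_factorial hp.pos le_rfl
    have hne : g ^ D K E ≠ 1 := by
      intro h
      have h1 := orderOf_dvd_of_pow_eq_one h
      rw [hg] at h1
      have h2 : D K E = (Nat.card (K →ₐ[ℚ] E)).factorial := by
        unfold D
        exact Nat.card_perm
      rw [h2, hp.dvd_factorial] at h1
      omega
    rw [Subgroup.nontrivial_iff_exists_ne_one]
    exact ⟨g ^ D K E, Subgroup.subset_normalClosure ⟨g, rfl⟩, hne⟩

/-- Realisation of a linear relation among permutations of a vector as a linear relation among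
conjugates. -/
theorem realize (K : Type) [Field K] [NumberField K] {n : ℕ} (a : Fin n → K)
    (Ω : Type) [Fintype Ω] [DecidableEq Ω] (v : Ω → K) (hv : v ≠ 0)
    (σ : Fin n → Equiv.Perm Ω) (h : ∀ ω, ∑ i, a i * v (σ i ω) = 0) :
    ∃ α : Fin n → AlgebraicClosure K,
        (∀ i, α i ≠ 0) ∧ (∀ i j, minpoly K (α i) = minpoly K (α j)) ∧
        ∑ i, algebraMap K (AlgebraicClosure K) (a i) * α i = 0 := by
  classical
  set E := AlgebraicClosure K with hE
  have hAlg : Algebra.IsAlgebraic ℚ E := Algebra.IsAlgebraic.trans ℚ K E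
  have hAC : IsAlgClosed E := AlgebraicClosure.isAlgClosed K
  -- the prime
  obtain ⟨p, hple, hp⟩ := Nat.exists_infinite_primes
    (2 * Fintype.card Ω + 5 + Nat.card (K →ₐ[ℚ] E))
  obtain ⟨f, hirr, hdeg, hbij⟩ := SymGal.exists_full p hp (by omega)
  have hcard : Fintype.card (f.rootSet E) = p := by rw [SymGal.card_rootSet f hirr E, hdeg]
  have halt := alt_le K E f hirr (SymGal.exists_aut f hirr hbij E) (by rw [hdeg]; exact hp)
    (by rw [hdeg]; omega) (by rw [hdeg]; omega)
  -- embedding of two copies of Ω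
  obtain ⟨ι⟩ : Nonempty ((Bool × Ω) ↪ f.rootSet E) := by
    rw [Function.Embedding.nonempty_iff_card_le, hcard]
    simp; omega
  -- two further roots
  obtain ⟨q, s, hqs, hq, hs⟩ : ∃ q s : f.rootSet E, q ≠ s ∧ q ∉ Finset.univ.map ι ∧
      s ∉ Finset.univ.map ι := by
    have h1 : 1 < (Finset.univ \ Finset.univ.map ι : Finset (f.rootSet E)).card := by
      rw [Finset.card_sdiff_of_subset (Finset.subset_univ _), Finset.card_map, Finset.card_univ,
        Finset.card_univ, hcard]
      simp; omega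
    obtain ⟨q, hq, s, hs, hqs⟩ := Finset.one_lt_card.mp h1
    exact ⟨q, s, hqs, (Finset.mem_sdiff.mp hq).2, (Finset.mem_sdiff.mp hs).2⟩
  -- the automorphisms
  let ρ : Fin n → Equiv.Perm (Bool × Ω) := fun i => Equiv.prodCongrRight fun _ => (σ i)⁻¹
  have hρ : ∀ i, Equiv.Perm.sign (ρ i) = 1 := by
    intro i
    rw [Equiv.Perm.sign_prodCongrRight]
    simp only [Finset.prod_const, Finset.card_univ, Fintype.card_bool]
    exact Int.units_sq _
  have hτ : ∀ i, ∃ g : E ≃ₐ[K] E, ∀ x : Bool × Ω, g (ι x : E) = (ι (ρ i x) : E) := by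
    intro i
    have h1 : (ρ i).viaFintypeEmbedding ι ∈ alternatingGroup (f.rootSet E) := by
      rw [Equiv.Perm.mem_alternatingGroup, Equiv.Perm.viaFintypeEmbedding_sign, hρ]
    obtain ⟨g, hg⟩ := halt h1
    refine ⟨g, fun x => ?_⟩
    rw [hg, Equiv.Perm.viaFintypeEmbedding_apply_image]
  choose g hg using hτ
  set γ : E := ∑ x : Bool × Ω, algebraMap K E (v x.2) * (ι x : E) with hγ
  have hgγ : ∀ i, g i γ = ∑ x : Bool × Ω, algebraMap K E (v (σ i x.2)) * (ι x : E) := by
    intro i
    rw [hγ, map_sum]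
    rw [← Equiv.sum_comp (ρ i) (fun x : Bool × Ω => algebraMap K E (v (σ i x.2)) * (ι x : E))]
    refine Finset.sum_congr rfl fun x _ => ?_
    rw [map_mul, AlgEquiv.commutes, hg]
    congr 3
    have : (ρ i x).2 = (σ i)⁻¹ x.2 := rfl
    rw [this]
    exact ((σ i).apply_symm_apply _).symm
  have hγ0 : γ ≠ 0 := by
    intro h0
    obtain ⟨ω0, hω0⟩ : ∃ ω, v ω ≠ 0 := Function.ne_iff.mp hv
    set P : f.rootSet E := ι (true, ω0) with hP
    have hPm : P ∈ Finset.univ.map ι := Finset.mem_map_of_mem _ (Finset.mem_univ _)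
    have hPq : P ≠ q := fun h => hq (h ▸ hPm)
    have hPs : P ≠ s := fun h => hs (h ▸ hPm)
    have h1 : Equiv.swap P q * Equiv.swap P s ∈ alternatingGroup (f.rootSet E) := by
      rw [Equiv.Perm.mem_alternatingGroup, Equiv.Perm.sign_mul, Equiv.Perm.sign_swap hPq,
        Equiv.Perm.sign_swap hPs]
      norm_num
    obtain ⟨k, hk⟩ := halt h1
    have h2 : k γ - γ = algebraMap K E (v ω0) * ((s : E) - (P : E)) := by
      rw [hγ, map_sum, ← Finset.sum_sub_distrib]
      rw [Finset.sum_eq_single (true, ω0)]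
      · rw [map_mul, AlgEquiv.commutes, hk, ← mul_sub]
        congr 2
        rw [Equiv.Perm.mul_apply, Equiv.swap_apply_left,
          Equiv.swap_apply_of_ne_of_ne hPs.symm hqs.symm]
      · intro x _ hx
        have h3 : ι x ≠ P := fun h => hx (ι.injective h)
        have h4 : ι x ≠ q := fun h => hq (h ▸ Finset.mem_map_of_mem _ (Finset.mem_univ _))
        have h5 : ι x ≠ s := fun h => hs (h ▸ Finset.mem_map_of_mem _ (Finset.mem_univ _))
        rw [map_mul, AlgEquiv.commutes, hk, Equiv.Perm.mul_apply,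
          Equiv.swap_apply_of_ne_of_ne h3 h5, Equiv.swap_apply_of_ne_of_ne h3 h4, sub_self]
      · intro h; exact absurd (Finset.mem_univ _) h
    rw [h0, map_zero, sub_zero] at h2
    rcases mul_eq_zero.mp h2.symm with h3 | h3
    · exact hω0 ((map_eq_zero _).mp h3)
    · exact hPs (Subtype.ext (sub_eq_zero.mp h3).symm)
  refine ⟨fun i => g i γ, fun i => ?_, fun i j => ?_, ?_⟩
  · exact fun h => hγ0 ((map_eq_zero_iff _ (g i).injective).mp h)
  · rw [minpoly.algEquiv_eq, minpoly.algEquiv_eq]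
  · simp only [hgγ, Finset.mul_sum]
    rw [Finset.sum_comm]
    refine Finset.sum_eq_zero fun x _ => ?_
    have := h x.2
    have h2 : ∑ i, algebraMap K E (a i) * (algebraMap K E (v (σ i x.2)) * (ι x : E))
        = algebraMap K E (∑ i, a i * v (σ i x.2)) * (ι x : E) := by
      rw [map_sum, Finset.sum_mul]
      refine Finset.sum_congr rfl fun i _ => ?_
      rw [map_mul, mul_assoc]
    rw [h2, this, map_zero, zero_mul]

end Pool.Agent.W91.Realize
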