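import Mathlib
import Pool.Agent.W91.Geo3
import Pool.Agent.W91.Hw
import Pool.Agent.W91.Perm
import Pool.Agent.W91.Realize

set_option autoImplicit false
open scoped NumberField ComplexConjugate InnerProductSpace
open NumberField

namespace Pool.Agent.W91.Final

open Pool.Agent.W91.Geo

variable {K : Type} [Field K] [NumberField K] {n : ℕ}

lemma finite_N1 (R : ℝ) : {y : 𝓞 K | N1 y ≤ R}.Finite := by
  have h1 := Embeddings.finite_of_norm_le K ℂ R
  refine Set.Finite.subset (h1.preimage (f := fun y : 𝓞 K => (y : K))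
    (RingOfIntegers.coe_injective.injOn)) ?_
  intro y hy
  exact ⟨y.isIntegral_coe, fun φ => (norm_le_N1 y φ).trans hy⟩

/-- the embedding of tuples -/
noncomputable def psi : (Fin n → 𝓞 K) →ₗ[ℤ] (Fin n → (K →+* ℂ) → ℂ) where
  toFun x := fun j φ => φ (x j : K)
  map_add' x y := by
    funext j φ
    simp
  map_smul' c x := by
    funext j φ
    simp

lemma psi_apply (x : Fin n → 𝓞 K) (j : Fin n) (φ : K →+* ℂ) : psi x j φ = φ (x j : K) := rfl

lemma psi_injective : Function.Injective (psi : (Fin n → 𝓞 K) →ₗ[ℤ] (Fin n → (K →+* ℂ) → ℂ)) := by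
  intro x y h
  obtain ⟨φ⟩ : Nonempty (K →+* ℂ) := inferInstance
  funext j
  have h1 := congrFun (congrFun h j) φ
  rw [psi_apply, psi_apply] at h1
  exact RingOfIntegers.coe_injective (φ.injective h1)

lemma N1_le (x : Fin n → 𝓞 K) (j : Fin n) : N1 (x j) ≤ ‖psi x‖ :=
  norm_le_pi_norm (psi x) j

lemma finite_psi (R : ℝ) : {x : Fin n → 𝓞 K | ‖psi x‖ ≤ R}.Finite := by
  refine Set.Finite.subset (Set.Finite.pi fun _ : Fin n => finite_N1 (K := K) R) ?_
  intro x hx j _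
  exact (N1_le x j).trans hx

lemma discrete : DiscreteTopology (LinearMap.range
    (psi : (Fin n → 𝓞 K) →ₗ[ℤ] (Fin n → (K →+* ℂ) → ℂ))) := by
  refine discreteTopology_of_isOpen_singleton_zero ?_
  refine isOpen_singleton_of_finite_mem_nhds 0 (s := Metric.closedBall 0 1) ?_ ?_
  · exact Metric.closedBall_mem_nhds _ (by norm_num)
  · refine Set.Finite.of_finite_image ?_ (Set.injOn_of_injective Subtype.val_injective)
    refine Set.Finite.subset ((finite_psi (n := n) (K := K) 1).image psi) ?_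
    rintro _ ⟨⟨z, ⟨x, rfl⟩⟩, hz, rfl⟩
    refine ⟨x, ?_, rfl⟩
    rw [mem_closedBall_zero_iff] at hz
    exact hz

lemma exists_summable (n : ℕ) (K : Type) [Field K] [NumberField K] :
    ∃ d : ℕ, Summable fun x : Fin n → 𝓞 K => ((1 + ‖psi x‖ ^ 2) ^ d)⁻¹ := by
  have := discrete (n := n) (K := K)
  obtain ⟨d, hd⟩ : ∃ d, d = Module.finrank ℤ (LinearMap.range
    (psi : (Fin n → 𝓞 K) →ₗ[ℤ] (Fin n → (K →+* ℂ) → ℂ))) + 1 := ⟨_, rfl⟩
  have h1 := ZLattice.summable_norm_pow_inv (LinearMap.range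
    (psi : (Fin n → 𝓞 K) →ₗ[ℤ] (Fin n → (K →+* ℂ) → ℂ))) d (by omega)
  have h2 : Summable fun x : Fin n → 𝓞 K => ‖psi x‖⁻¹ ^ d := by
    have h3 := h1.comp_injective (i := LinearMap.rangeRestrict
      (psi : (Fin n → 𝓞 K) →ₗ[ℤ] (Fin n → (K →+* ℂ) → ℂ))) (by
        intro x y hxy
        exact psi_injective (congrArg Subtype.val hxy))
    exact h3
  refine ⟨d, Summable.of_norm_bounded_eventually h2 ?_⟩
  have h3 : {x : Fin n → 𝓞 K | ¬ ‖((1 + ‖psi x‖ ^ 2) ^ d)⁻¹‖ ≤ ‖psi x‖⁻¹ ^ d} ⊆ {0} := by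
    intro x hx
    by_contra h0
    refine hx ?_
    have h4 : psi x ≠ 0 := by
      intro h
      exact h0 (psi_injective (by rw [h, map_zero]))
    have h5 : 0 < ‖psi x‖ := norm_pos_iff.mpr h4
    rw [Real.norm_of_nonneg (by positivity), inv_pow]
    refine inv_anti₀ (by positivity) ?_
    refine pow_le_pow_left₀ h5.le ?_ d
    nlinarith [sq_nonneg (‖psi x‖ - 1)]
  exact (Set.finite_singleton _).subset h3

variable (a : Fin n → 𝓞 K)

/-- the lattice of relations -/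
def Lam : AddSubgroup (Fin n → 𝓞 K) where
  carrier := {x | ∑ j, a j * x j = 0}
  add_mem' := fun {x y} hx hy => by
    have hx' : ∑ j, a j * x j = 0 := hx
    have hy' : ∑ j, a j * y j = 0 := hy
    show ∑ j, a j * (x j + y j) = 0
    simp only [mul_add, Finset.sum_add_distrib, hx', hy', add_zero]
  zero_mem' := by
    show ∑ j, a j * (0 : 𝓞 K) = 0
    simp
  neg_mem' := fun {x} hx => by
    have hx' : ∑ j, a j * x j = 0 := hx
    show ∑ j, a j * (- x j) = 0
    simp only [mul_neg, Finset.sum_neg_distrib, hx', neg_zero]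

/-- the coordinates -/
def pr (i : Fin n) : Lam a →+ 𝓞 K := (Pi.evalAddMonoidHom (fun _ => 𝓞 K) i).comp (Lam a).subtype

omit [NumberField K] in
lemma pr_apply (i : Fin n) (l : Lam a) : pr a i l = l.1 i := rfl

theorem sufficiency (hn : 0 < n) (hA : ∀ v : NumberField.InfinitePlace K, ∀ i : Fin n,
      v (a i : K) < ∑ j ∈ Finset.univ.erase i, v (a j : K))
    (hN : ∀ v : IsDedekindDomain.HeightOneSpectrum (𝓞 K), ∀ i : Fin n,
      ∃ j : Fin n, j ≠ i ∧ v.valuation K (a i : K) ≤ v.valuation K (a j : K)) :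
    ∃ α : Fin n → AlgebraicClosure K,
        (∀ i, α i ≠ 0) ∧ (∀ i j, minpoly K (α i) = minpoly K (α j)) ∧
        ∑ i, algebraMap K (AlgebraicClosure K) (a i : K) * α i = 0 := by
  classical
  -- heights
  obtain ⟨θ, C, hθ0, hθ1, hC, hdesc⟩ := descent a hn hA hN
  obtain ⟨ht, R0, C1, p, hC1, hht1, hht2, hht3⟩ :=
    exists_height (N1 : 𝓞 K → ℝ) N1_nonneg θ C hθ0 hθ1 hC n
  have hfinB : Finite (Core.B ht) := by
    refine Set.Finite.to_subtype (s := {y | ht y = 0}) ((finite_N1 (K := K) R0).subset ?_)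
    intro y hy
    exact hht2 y hy
  have : Fintype (Core.B ht) := Fintype.ofFinite _
  -- the quadratic form
  choose T hT using fun φ : K →+* ℂ => Gram.decomp (fun j => φ (a j : K)) (arch_emb a hA φ)
  let τ : Lam a →+ PiLp 2 (fun _ : K →+* ℂ => EuclideanSpace ℂ (Fin 2 ⊕ Fin n)) :=
    AddMonoidHom.mk' (fun l => WithLp.toLp 2 fun φ => T φ fun j => φ (l.1 j : K)) (by
      intro l l'
      ext φ : 1
      have h1 : (fun j => φ ((l + l').1 j : K)) = (fun j => φ (l.1 j : K)) + fun j => φ (l'.1 j : K) := by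
        funext j
        simp
      show T φ (fun j => φ ((l + l').1 j : K)) = T φ (fun j => φ (l.1 j : K)) +
        T φ (fun j => φ (l'.1 j : K))
      rw [h1, map_add])
  have hτ : ∀ l φ, τ l φ = T φ fun j => φ (l.1 j : K) := fun l φ => rfl
  have hrel : ∀ (l : Lam a) (φ : K →+* ℂ), ∑ j, φ (a j : K) * φ (l.1 j : K) = 0 := by
    intro l φ
    have h1 : ∑ j, a j * l.1 j = 0 := l.2
    have := congrArg (fun w : 𝓞 K => φ (w : K)) h1
    simpa using this
  choose r hr har using exists_pivot a hA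
  let v : Fin n → Fin n × Ib K → Lam a := fun i m => ⟨vv a i (r i) m, vv_rel a i (r i) m⟩
  have hv0 : ∀ i m, pr a i (v i m) = 0 := fun i m => vv_i a i (r i) (hr i) m
  set R : ℝ := 1 + ∑ i, ∑ m, ‖τ (v i m)‖ ^ 2 with hR
  have hR0 : 0 < R := by positivity
  have hv : ∀ i m, ‖τ (v i m)‖ ^ 2 ≤ R := by
    intro i m
    have h1 : ‖τ (v i m)‖ ^ 2 ≤ ∑ m, ‖τ (v i m)‖ ^ 2 :=
      Finset.single_le_sum (f := fun m => ‖τ (v i m)‖ ^ 2) (fun _ _ => sq_nonneg _)
        (Finset.mem_univ m)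
    have h2 : ∑ m, ‖τ (v i m)‖ ^ 2 ≤ ∑ i, ∑ m, ‖τ (v i m)‖ ^ 2 :=
      Finset.single_le_sum (f := fun i => ∑ m, ‖τ (v i m)‖ ^ 2)
        (fun _ _ => Finset.sum_nonneg fun _ _ => sq_nonneg _) (Finset.mem_univ i)
    linarith
  let Q : 𝓞 K → ℝ := fun y => ∑ φ : K →+* ℂ, ‖φ (y : K)‖ ^ 2
  have hsurj : ∀ i (y : 𝓞 K), ∃ l : Lam a, pr a i l = y := by
    intro i y
    obtain ⟨l, hl, hli⟩ := surj a i (r i) (hr i) (har i) hN y
    exact ⟨⟨l, hl⟩, hli⟩
  have hQ : ∀ i y, ∃ l0, pr a i l0 = y ∧ ∃ t : Fin n × Ib K → ℝ, ∀ μ, pr a i μ = 0 →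
      ‖τ (l0 + μ)‖ ^ 2 = Q y + ‖τ μ + ∑ m, t m • τ (v i m)‖ ^ 2 := by
    intro i y
    obtain ⟨l0, hl0⟩ := hsurj i y
    refine ⟨l0, hl0, ?_⟩
    have hl0' : l0.1 i = y := hl0
    obtain ⟨t, ht'⟩ := real_comb2 a i (r i) (hr i) (har i)
      (fun j φ => φ (l0.1 j : K) - φ (y : K) * Gram.gm (fun j => φ (a j : K)) i j)
      (by
        intro j φ
        have h1 := Gram.gm_conj (fun j => φ (a j : K)) i j
        simp only [conj_emb, map_sub, map_mul]
        rw [h1])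
      (by
        intro φ
        simp only [mul_sub, Finset.sum_sub_distrib]
        rw [hrel l0 φ]
        have h2 : ∑ j, φ (a j : K) * (φ (y : K) * Gram.gm (fun j => φ (a j : K)) i j) =
            φ (y : K) * ∑ j, φ (a j : K) * Gram.gm (fun j => φ (a j : K)) i j := by
          rw [Finset.mul_sum]
          exact Finset.sum_congr rfl fun j _ => by ring
        rw [h2, Gram.gm_sum _ (arch_emb a hA φ)]
        simp)
      (by
        intro φ
        rw [Gram.gm_diag _ (arch_emb a hA φ), hl0']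
        ring)
    refine ⟨t, fun μ hμ => ?_⟩
    have hμ' : μ.1 i = 0 := hμ
    rw [PiLp.norm_sq_eq_of_L2, PiLp.norm_sq_eq_of_L2, ← Finset.sum_add_distrib]
    refine Finset.sum_congr rfl fun φ _ => ?_
    rw [hτ]
    have h1 := hT φ (fun j => φ ((l0 + μ).1 j : K)) (hrel (l0 + μ) φ) i
    rw [h1]
    have h3 : (l0 + μ).1 i = y := by
      show l0.1 i + μ.1 i = y
      rw [hl0', hμ', add_zero]
    congr 2
    · rw [h3]
    · congr 1
      have h4 : (τ μ + ∑ m, t m • τ (v i m)) φ = T φ ((fun j => φ (μ.1 j : K)) +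
          ∑ m, (t m : ℂ) • fun j => φ ((v i m).1 j : K)) := by
        rw [map_add, map_sum]
        simp only [map_smul]
        rw [PiLp.add_apply, hτ]
        congr 1
        rw [WithLp.ofLp_sum, Finset.sum_apply]
        refine Finset.sum_congr rfl fun m _ => ?_
        rw [PiLp.smul_apply, hτ, Complex.coe_smul]
      rw [h4]
      congr 1
      funext j
      have h5 := ht' j φ
      simp only [Pi.sub_apply, Pi.smul_apply, Pi.add_apply, Finset.sum_apply, smul_eq_mul]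
      have h6 : φ ((l0 + μ).1 j : K) = φ (l0.1 j : K) + φ (μ.1 j : K) := by
        simp
      rw [h3, h6]
      linear_combination h5
  obtain ⟨d, hd⟩ := exists_summable n K
  have hNτ : ∀ l : Lam a, ‖psi l.1‖ ^ 2 ≤ ‖τ l‖ ^ 2 := by
    intro l
    refine pow_le_pow_left₀ (norm_nonneg _) ?_ 2
    rw [pi_norm_le_iff_of_nonneg (norm_nonneg _)]
    intro j
    rw [pi_norm_le_iff_of_nonneg (norm_nonneg _)]
    intro φ
    rw [psi_apply]
    have h1 := hT φ (fun j => φ (l.1 j : K)) (hrel l φ) j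
    have h2 : ‖φ (l.1 j : K)‖ ^ 2 ≤ ‖T φ (fun j => φ (l.1 j : K))‖ ^ 2 := by
      rw [h1]
      have := sq_nonneg ‖T φ ((fun j => φ (l.1 j : K)) - φ (l.1 j : K) • Gram.gm (fun j => φ (a j : K)) j)‖
      linarith
    have h3 : ‖T φ (fun j => φ (l.1 j : K))‖ ^ 2 ≤ ‖τ l‖ ^ 2 := by
      rw [PiLp.norm_sq_eq_of_L2 _ (τ l)]
      exact Finset.single_le_sum (f := fun φ => ‖τ l φ‖ ^ 2) (fun _ _ => sq_nonneg _)
        (Finset.mem_univ φ)
    exact (pow_le_pow_iff_left₀ (norm_nonneg _) (norm_nonneg _) two_ne_zero).mp (h2.trans h3)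
  have hwt := Hw.hw (pr a) τ hn ht v hv0 R hR0 hv Q hQ (fun l => ‖psi l.1‖)
    (fun l => norm_nonneg _) hNτ p d C1 hC1 (fun i l => by
      refine (hht3 (pr a i l)).trans ?_
      have h1 : N1 (pr a i l) ≤ ‖psi l.1‖ := N1_le l.1 i
      have h2 := N1_nonneg (pr a i l)
      gcongr) (hd.comp_injective (i := fun l : Lam a => l.1) Subtype.val_injective)
  obtain ⟨l1, hl1⟩ := hsurj ⟨0, hn⟩ 1
  obtain ⟨μ, hμ0, hμ1, hμ⟩ := Core.main (fun i (l : Lam a) => pr a i l) ht (by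
      intro i y hy
      obtain ⟨l, hl, hli, hlj⟩ := hdesc i y
      exact ⟨⟨l, hl⟩, hli, fun j hj => hht1 y (l j) hy (hlj j hj)⟩) hwt l1
  obtain ⟨Ω, hΩ, lam, σ, hσ, ω1, hω1⟩ := PermOf.perm_of hn (fun i (l : Lam a) => pr a i l) μ hμ0 l1 hμ1 hμ
  have : DecidableEq Ω := Classical.decEq Ω
  refine Realize.realize K (fun i => (a i : K)) Ω (fun ω => ((pr a ⟨0, hn⟩ (lam ω) : 𝓞 K) : K)) ?_ σ
    fun ω => ?_
  · intro h
    have h1 := congrFun h ω1
    rw [hω1, hl1] at h1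
    simp at h1
  · have h1 : ∑ i, a i * (pr a ⟨0, hn⟩ (lam (σ i ω))) = 0 := by
      have h2 : ∀ i, pr a ⟨0, hn⟩ (lam (σ i ω)) = pr a i (lam ω) := fun i => hσ i ω
      simp only [h2]
      exact (lam ω).2
    have h3 := congrArg (fun w : 𝓞 K => (w : K)) h1
    simpa using h3

end Pool.Agent.W91.Final
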