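import Mathlib

set_option autoImplicit false
open Polynomial
open scoped NumberField

namespace Pool.Agent.W91.Nec

/-- extension of the valuation ring of a valuation -/
lemma exists_ext (K E : Type) [Field K] [Field E] [Algebra K E] {Γ : Type}
    [LinearOrderedCommGroupWithZero Γ] (v : Valuation K Γ) :
    ∃ B : ValuationSubring E, ∀ x : K, v x < 1 → B.valuation (algebraMap K E x) < 1 := by
  let A : Subring E := v.valuationSubring.toSubring.map (algebraMap K E)
  let I : Ideal A :=
    { carrier := {x | ∃ y : K, v y < 1 ∧ algebraMap K E y = (x : E)}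
      add_mem' := by
        rintro a b ⟨y, hy, hya⟩ ⟨z, hz, hzb⟩
        exact ⟨y + z, v.map_add_lt hy hz, by rw [map_add, hya, hzb]; rfl⟩
      zero_mem' := ⟨0, by simp, by simp⟩
      smul_mem' := by
        rintro ⟨c, hc⟩ b ⟨z, hz, hzb⟩
        obtain ⟨c', hc', rfl⟩ := hc
        have h1 : v c' ≤ 1 := hc'
        refine ⟨c' * z, ?_, ?_⟩
        · rw [map_mul]
          exact lt_of_le_of_lt (mul_le_of_le_one_left' h1) hz
        · rw [map_mul, hzb]; rfl }
  have hI : I ≠ ⊤ := by
    intro h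
    have : (1 : A) ∈ I := by rw [h]; trivial
    obtain ⟨y, hy, hy1⟩ := this
    have : y = 1 := (algebraMap K E).injective (by rw [hy1, map_one]; rfl)
    rw [this, map_one] at hy
    exact lt_irrefl _ hy
  obtain ⟨B, hB1, hB2⟩ := Ideal.image_subset_nonunits_valuationSubring I hI
  refine ⟨B, fun x hx => ?_⟩
  have hxA : algebraMap K E x ∈ A := ⟨x, hx.le, rfl⟩
  have h2 : algebraMap K E x ∈ B.nonunits := hB2 ⟨⟨_, hxA⟩, ⟨x, hx, rfl⟩, rfl⟩
  exact (B.mem_nonunits_iff).mp h2

/-- the set of conjugates -/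
lemma exists_max (K E : Type) [Field K] [Field E] [Algebra K E] [Normal K E]
    {Γ : Type} [LinearOrder Γ] (x : E) (N : E → Γ) :
    ∃ g : E ≃ₐ[K] E, ∀ y, minpoly K y = minpoly K x → N y ≤ N (g x) := by
  have hx : IsIntegral K x := Normal.isIntegral inferInstance x
  have hfin : {y : E | minpoly K y = minpoly K x}.Finite := by
    refine ((minpoly K x).rootSet_finite E).subset fun y hy => ?_
    rw [Polynomial.mem_rootSet]
    refine ⟨minpoly.ne_zero hx, ?_⟩
    rw [← (show minpoly K y = minpoly K x from hy)]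
    exact minpoly.aeval K y
  obtain ⟨z, hz, hmax⟩ := hfin.exists_maximalFor N _ ⟨x, rfl⟩
  have hz' : minpoly K z = minpoly K x := hz
  obtain ⟨g, hg⟩ := minpoly.exists_algEquiv_of_root (K := K) (x := x) (y := z)
    (Normal.isIntegral inferInstance z).isAlgebraic (by rw [hz']; exact minpoly.aeval K x)
  refine ⟨g, fun y hy => ?_⟩
  rw [hg]
  by_contra hlt
  exact hlt (hmax hy (not_le.mp hlt).le)

/-- nonarchimedean necessity -/
theorem nonarch (K E : Type) [Field K] [Field E] [Algebra K E] [Normal K E] {n : ℕ}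
    {Γ : Type} [LinearOrderedCommGroupWithZero Γ] (v : Valuation K Γ) (a : Fin n → K)
    (α : Fin n → E) (hα : ∀ i, α i ≠ 0) (hmin : ∀ i j, minpoly K (α i) = minpoly K (α j))
    (hsum : ∑ i, algebraMap K E (a i) * α i = 0) (i : Fin n) (hi : a i ≠ 0) :
    ∃ j, j ≠ i ∧ v (a i) ≤ v (a j) := by
  by_contra hcon
  push Not at hcon
  obtain ⟨B, hB⟩ := exists_ext K E v
  obtain ⟨g, hg⟩ := exists_max K E (α i) (fun y => B.valuation y)
  have hlt : ∀ j, j ≠ i → B.valuation (algebraMap K E (a j)) < B.valuation (algebraMap K E (a i)) := by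
    intro j hj
    have h1 := hcon j hj
    have h2 : v (a j / a i) < 1 := by
      rw [map_div₀]
      exact (div_lt_one₀ (zero_lt_iff.mpr (v.ne_zero_iff.mpr hi))).mpr h1
    have h3 := hB _ h2
    rw [map_div₀, map_div₀] at h3
    refine (div_lt_one₀ (zero_lt_iff.mpr ?_)).mp h3
    rw [Valuation.ne_zero_iff]
    exact (_root_.map_ne_zero _).mpr hi
  have hg0 : g (α i) ≠ 0 := (map_ne_zero_iff _ g.injective).mpr (hα i)
  have h1 : algebraMap K E (a i) * g (α i) = -∑ j ∈ Finset.univ.erase i, algebraMap K E (a j) * g (α j) := by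
    have h := congrArg g hsum
    rw [map_sum, map_zero] at h
    simp only [map_mul, AlgEquiv.commutes] at h
    rw [← Finset.add_sum_erase _ _ (Finset.mem_univ i)] at h
    exact eq_neg_of_add_eq_zero_left h
  have h2 : B.valuation (algebraMap K E (a i) * g (α i)) ≠ 0 := by
    rw [Valuation.ne_zero_iff]
    exact mul_ne_zero ((_root_.map_ne_zero _).mpr hi) hg0
  have h3 : B.valuation (-∑ j ∈ Finset.univ.erase i, algebraMap K E (a j) * g (α j))
      < B.valuation (algebraMap K E (a i) * g (α i)) := by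
    rw [Valuation.map_neg]
    refine Valuation.map_sum_lt _ h2 fun j hj => ?_
    rw [map_mul, map_mul]
    have hj' := (Finset.mem_erase.mp hj).1
    refine lt_of_le_of_lt (mul_le_mul_right (hg (g (α j)) ?_) _) ?_
    · rw [minpoly.algEquiv_eq, hmin]
    · exact mul_lt_mul_of_pos_right (hlt j hj')
        (zero_lt_iff.mpr ((Valuation.ne_zero_iff _).mpr hg0))
  rw [← h1] at h3
  exact lt_irrefl _ h3

/-- the archimedean equality case -/
theorem arch (K E : Type) [Field K] [Field E] [Algebra K E] [Normal K E] {n : ℕ}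
    (τ : E →+* ℂ) (a : Fin n → K)
    (α : Fin n → E) (hα : ∀ i, α i ≠ 0) (hmin : ∀ i j, minpoly K (α i) = minpoly K (α j))
    (hsum : ∑ i, algebraMap K E (a i) * α i = 0) (i : Fin n)
    (hi : ∑ j ∈ Finset.univ.erase i, ‖τ (algebraMap K E (a j))‖ ≤ ‖τ (algebraMap K E (a i))‖) :
    ∃ ω : Fin n → E, (∀ i, ∃ m : ℕ, 0 < m ∧ ω i ^ m = 1) ∧
        ∑ i, algebraMap K E (a i) * ω i = 0 := by
  classical
  by_cases hai : a i = 0
  · have hz : ∀ j, a j = 0 := by
      intro j
      by_cases hj : j = i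
      · rw [hj, hai]
      rw [hai, map_zero, map_zero, norm_zero] at hi
      have h1 := (Finset.sum_eq_zero_iff_of_nonneg (fun j _ => norm_nonneg _)).mp
        (le_antisymm hi (Finset.sum_nonneg fun j _ => norm_nonneg _)) j
        (Finset.mem_erase.mpr ⟨hj, Finset.mem_univ j⟩)
      rw [norm_eq_zero, map_eq_zero, map_eq_zero] at h1
      exact h1
    exact ⟨fun _ => 1, fun _ => ⟨1, one_pos, one_pow _⟩, by simp [hz]⟩
  obtain ⟨g, hg⟩ := exists_max K E (α i) (fun y => ‖τ y‖)
  set M := ‖τ (g (α i))‖ with hM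
  have hg0 : ∀ j, g (α j) ≠ 0 := fun j => (map_ne_zero_iff _ g.injective).mpr (hα j)
  have hM0 : 0 < M := norm_pos_iff.mpr ((_root_.map_ne_zero _).mpr (hg0 i))
  have hai' : 0 < ‖τ (algebraMap K E (a i))‖ :=
    norm_pos_iff.mpr ((_root_.map_ne_zero _).mpr ((_root_.map_ne_zero _).mpr hai))
  -- general analysis for any automorphism attaining the maximum at `i`
  set ρ : Fin n → ℂ := fun j =>
    -((‖τ (algebraMap K E (a j))‖ / ‖τ (algebraMap K E (a i))‖ : ℝ) : ℂ)
      * (τ (algebraMap K E (a i)) / τ (algebraMap K E (a j))) with hρ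
  have key : ∀ h : E ≃ₐ[K] E, ‖τ (h (α i))‖ = M → ∀ j, j ≠ i → a j ≠ 0 →
      τ (h (α j)) = ρ j * τ (h (α i)) := by
    intro h hh j hj haj
    have hle : ∀ k, ‖τ (h (α k))‖ ≤ M := by
      intro k
      apply hg
      rw [minpoly.algEquiv_eq, hmin]
    have h1 : ∑ k ∈ Finset.univ.erase i, τ (algebraMap K E (a k)) * τ (h (α k))
        = -(τ (algebraMap K E (a i)) * τ (h (α i))) := by
      have h2 := congrArg (fun x => τ (h x)) hsum
      simp only [map_sum, map_zero, map_mul, AlgEquiv.commutes] at h2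
      rw [← Finset.add_sum_erase _ _ (Finset.mem_univ i)] at h2
      exact (neg_eq_of_add_eq_zero_right h2).symm
    set z : ℂ := -(τ (algebraMap K E (a i)) * τ (h (α i))) with hz
    have hnz : ‖z‖ = ‖τ (algebraMap K E (a i))‖ * M := by
      rw [hz, norm_neg, norm_mul, hh]
    have hnz0 : 0 < ‖z‖ := by rw [hnz]; positivity
    set u : ℂ := z / (‖z‖ : ℂ) with hu
    have hun : ‖u‖ = 1 := by
      rw [hu, norm_div, Complex.norm_real, norm_norm, div_self hnz0.ne']
    have hcu : (starRingEnd ℂ) u * u = 1 := by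
      rw [mul_comm, Complex.mul_conj, Complex.normSq_eq_norm_sq, hun]; norm_num
    have hcz : (starRingEnd ℂ) u * z = (‖z‖ : ℂ) := by
      have : z = u * (‖z‖ : ℂ) := by
        rw [hu, div_mul_cancel₀]
        exact_mod_cast hnz0.ne'
      rw [this, ← mul_assoc, hcu, one_mul, ← this]
    -- termwise bounds
    have hterm : ∀ k ∈ Finset.univ.erase i,
        ((starRingEnd ℂ) u * (τ (algebraMap K E (a k)) * τ (h (α k)))).re
          ≤ ‖τ (algebraMap K E (a k))‖ * M := by
      intro k _
      refine (Complex.re_le_norm _).trans ?_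
      rw [norm_mul, norm_mul, RCLike.norm_conj, hun, one_mul]
      exact mul_le_mul_of_nonneg_left (hle k) (norm_nonneg _)
    have hsum2 : ∑ k ∈ Finset.univ.erase i,
        ((starRingEnd ℂ) u * (τ (algebraMap K E (a k)) * τ (h (α k)))).re = ‖z‖ := by
      rw [← Complex.re_sum, ← Finset.mul_sum, h1, hcz, Complex.ofReal_re]
    have heq : ((starRingEnd ℂ) u * (τ (algebraMap K E (a j)) * τ (h (α j)))).re
        = ‖τ (algebraMap K E (a j))‖ * M := by
      have h3 : ∑ k ∈ Finset.univ.erase i,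
        ((starRingEnd ℂ) u * (τ (algebraMap K E (a k)) * τ (h (α k)))).re
          = ∑ k ∈ Finset.univ.erase i, ‖τ (algebraMap K E (a k))‖ * M := by
        refine le_antisymm (Finset.sum_le_sum hterm) ?_
        rw [hsum2, hnz, ← Finset.sum_mul]
        exact mul_le_mul_of_nonneg_right hi hM0.le
      exact (Finset.sum_eq_sum_iff_of_le hterm).mp h3 j (Finset.mem_erase.mpr ⟨hj, Finset.mem_univ j⟩)
    -- equality
    set w : ℂ := (starRingEnd ℂ) u * (τ (algebraMap K E (a j)) * τ (h (α j))) with hw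
    have hwn : ‖w‖ ≤ ‖τ (algebraMap K E (a j))‖ * M := by
      rw [hw, norm_mul, norm_mul, RCLike.norm_conj, hun, one_mul]
      exact mul_le_mul_of_nonneg_left (hle j) (norm_nonneg _)
    have hw2 : w = ((‖τ (algebraMap K E (a j))‖ * M : ℝ) : ℂ) := by
      have h4 : w.re = ‖w‖ := le_antisymm (Complex.re_le_norm _) (by rw [heq]; exact hwn)
      have h5 : w.im = 0 := by
        have h6 := Complex.sq_norm w
        rw [Complex.normSq_apply, ← h4] at h6
        nlinarith
      apply Complex.ext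
      · rw [Complex.ofReal_re]; exact heq
      · rw [Complex.ofReal_im]; exact h5
    have haj' : τ (algebraMap K E (a j)) ≠ 0 :=
      (_root_.map_ne_zero _).mpr ((_root_.map_ne_zero _).mpr haj)
    have h7 : τ (algebraMap K E (a j)) * τ (h (α j)) = u * ((‖τ (algebraMap K E (a j))‖ * M : ℝ) : ℂ) := by
      rw [← hw2, hw, ← mul_assoc, mul_comm u, hcu, one_mul]
    have h8 : τ (h (α j)) = u * ((‖τ (algebraMap K E (a j))‖ * M : ℝ) : ℂ) / τ (algebraMap K E (a j)) := by
      rw [← h7, mul_div_cancel_left₀ _ haj']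
    rw [h8, hρ, hu, hnz, hz]
    have h9 : (‖τ (algebraMap K E (a i))‖ : ℂ) ≠ 0 := by exact_mod_cast hai'.ne'
    have h10 : (M : ℂ) ≠ 0 := by exact_mod_cast hM0.ne'
    push_cast
    field_simp
  -- root of unity
  have hroot : ∀ j, j ≠ i → a j ≠ 0 → ∃ m : ℕ, 0 < m ∧ ρ j ^ m = 1 := by
    intro j hj haj
    set T : Set ℂ := {t | ∃ h : E ≃ₐ[K] E, ‖τ (h (α i))‖ = M ∧ t = τ (h (α i))} with hT
    have hTfin : T.Finite := by
      have hx : IsIntegral K (α i) := Normal.isIntegral inferInstance _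
      refine (((minpoly K (α i)).rootSet_finite E).image τ).subset ?_
      rintro t ⟨h, -, rfl⟩
      refine ⟨h (α i), ?_, rfl⟩
      rw [Polynomial.mem_rootSet]
      refine ⟨minpoly.ne_zero hx, ?_⟩
      rw [← minpoly.algEquiv_eq h (α i)]
      exact minpoly.aeval K _
    have hmaps : ∀ t ∈ T, ρ j * t ∈ T := by
      rintro t ⟨h, hh, rfl⟩
      have h1 := key h hh j hj haj
      -- automorphism sending α i to h (α j)
      obtain ⟨k, hk⟩ := minpoly.exists_algEquiv_of_root (K := K) (x := α i) (y := h (α j))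
        (Normal.isIntegral inferInstance _).isAlgebraic
        (by rw [minpoly.algEquiv_eq, hmin j i]; exact minpoly.aeval K _)
      have hρn : ‖ρ j‖ = 1 := by
        have h2 : 0 < ‖τ (algebraMap K E (a j))‖ :=
          norm_pos_iff.mpr ((_root_.map_ne_zero _).mpr ((_root_.map_ne_zero _).mpr haj))
        rw [hρ]
        simp only [norm_mul, norm_neg, norm_div, Complex.norm_real, norm_norm]
        field_simp
      refine ⟨k, ?_, ?_⟩
      · rw [hk, h1, norm_mul, hρn, one_mul, hh]
      · rw [hk, h1]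
    have hpow : ∀ k : ℕ, ρ j ^ k * τ (g (α i)) ∈ T := by
      intro k
      induction k with
      | zero => rw [pow_zero, one_mul]; exact ⟨g, rfl, rfl⟩
      | succ k ih => rw [pow_succ', mul_assoc]; exact hmaps _ ih
    have : Finite T := hTfin
    obtain ⟨k, l, hkl, he⟩ := Finite.exists_ne_map_eq_of_infinite
      (fun k : ℕ => (⟨_, hpow k⟩ : T))
    have he' : ρ j ^ k * τ (g (α i)) = ρ j ^ l * τ (g (α i)) := congrArg Subtype.val he
    have hgi : τ (g (α i)) ≠ 0 := (_root_.map_ne_zero _).mpr (hg0 i)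
    have he2 : ρ j ^ k = ρ j ^ l := mul_right_cancel₀ hgi he'
    have hρ0 : ρ j ≠ 0 := by
      have h2 : τ (algebraMap K E (a j)) ≠ 0 :=
        (_root_.map_ne_zero _).mpr ((_root_.map_ne_zero _).mpr haj)
      have h3 : τ (algebraMap K E (a i)) ≠ 0 :=
        (_root_.map_ne_zero _).mpr ((_root_.map_ne_zero _).mpr hai)
      rw [hρ]
      simp only [ne_eq, mul_eq_zero, neg_eq_zero, Complex.ofReal_eq_zero, div_eq_zero_iff,
        norm_eq_zero]
      tauto
    rcases lt_or_gt_of_ne hkl with hlt | hlt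
    · refine ⟨l - k, by omega, ?_⟩
      have : ρ j ^ k * ρ j ^ (l - k) = ρ j ^ k * 1 := by
        rw [← pow_add, mul_one, Nat.add_sub_cancel' hlt.le, he2]
      exact mul_left_cancel₀ (pow_ne_zero _ hρ0) this
    · refine ⟨k - l, by omega, ?_⟩
      have : ρ j ^ l * ρ j ^ (k - l) = ρ j ^ l * 1 := by
        rw [← pow_add, mul_one, Nat.add_sub_cancel' hlt.le, he2]
      exact mul_left_cancel₀ (pow_ne_zero _ hρ0) this
  refine ⟨fun j => if a j = 0 then 1 else g (α j) / g (α i), fun j => ?_, ?_⟩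
  · by_cases haj : a j = 0
    · exact ⟨1, one_pos, by simp [haj]⟩
    by_cases hj : j = i
    · subst hj
      exact ⟨1, one_pos, by simp [haj, div_self (hg0 _)]⟩
    obtain ⟨m, hm, hm1⟩ := hroot j hj haj
    refine ⟨m, hm, τ.injective ?_⟩
    simp only [haj, if_false]
    rw [map_pow, map_div₀, key g rfl j hj haj, mul_div_cancel_right₀ _
      ((_root_.map_ne_zero _).mpr (hg0 i)), hm1, map_one]
  · have h1 := congrArg g hsum
    rw [map_sum, map_zero] at h1
    simp only [map_mul, AlgEquiv.commutes] at h1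
    have h2 : ∑ j, algebraMap K E (a j) * (if a j = 0 then 1 else g (α j) / g (α i))
        = (∑ j, algebraMap K E (a j) * g (α j)) / g (α i) := by
      rw [Finset.sum_div]
      refine Finset.sum_congr rfl fun j _ => ?_
      by_cases haj : a j = 0
      · simp [haj]
      · rw [if_neg haj, mul_div_assoc]
    rw [h2, h1, zero_div]

theorem nec (K : Type) [Field K] [NumberField K] (n : ℕ) (a : Fin n → 𝓞 K)
    (h : ∃ α : Fin n → AlgebraicClosure K,
        (∀ i, α i ≠ 0) ∧ (∀ i j, minpoly K (α i) = minpoly K (α j)) ∧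
        ∑ i, algebraMap K (AlgebraicClosure K) (a i : K) * α i = 0) :
    (((∀ v : NumberField.InfinitePlace K, ∀ i : Fin n,
          v (a i : K) < ∑ j ∈ Finset.univ.erase i, v (a j : K)) ∧
      (∀ v : IsDedekindDomain.HeightOneSpectrum (𝓞 K), ∀ i : Fin n,
          ∃ j : Fin n, j ≠ i ∧ v.valuation K (a i : K) ≤ v.valuation K (a j : K))) ∨
     ∃ ω : Fin n → AlgebraicClosure K,
        (∀ i, ∃ m : ℕ, 0 < m ∧ ω i ^ m = 1) ∧
        ∑ i, algebraMap K (AlgebraicClosure K) (a i : K) * ω i = 0) := by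
  obtain ⟨α, hα, hmin, hsum⟩ := h
  by_cases harch : ∀ v : NumberField.InfinitePlace K, ∀ i : Fin n,
          v (a i : K) < ∑ j ∈ Finset.univ.erase i, v (a j : K)
  · left
    refine ⟨harch, fun v i => ?_⟩
    by_cases hi : (a i : K) = 0
    · -- some other index exists
      obtain ⟨w⟩ : Nonempty (NumberField.InfinitePlace K) := inferInstance
      have h1 := harch w i
      obtain ⟨j, hj⟩ : (Finset.univ.erase i).Nonempty := by
        by_contra hne
        rw [Finset.not_nonempty_iff_eq_empty] at hne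
        rw [hne, Finset.sum_empty, hi, map_zero] at h1
        exact lt_irrefl _ h1
      exact ⟨j, (Finset.mem_erase.mp hj).1, by rw [hi, map_zero]; exact zero_le⟩
    · exact nonarch K (AlgebraicClosure K) (v.valuation K) (fun i => (a i : K)) α hα hmin hsum i hi
  · right
    push Not at harch
    obtain ⟨v, i, hvi⟩ := harch
    letI : Algebra K ℂ := v.embedding.toAlgebra
    let τ : AlgebraicClosure K →ₐ[K] ℂ := IsAlgClosed.lift
    have hτ : ∀ x : K, ‖(τ : AlgebraicClosure K →+* ℂ) (algebraMap K (AlgebraicClosure K) x)‖ = v x := by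
      intro x
      have : (τ : AlgebraicClosure K →+* ℂ) (algebraMap K (AlgebraicClosure K) x) = v.embedding x :=
        τ.commutes x
      rw [this, NumberField.InfinitePlace.norm_embedding_eq]
    refine arch K (AlgebraicClosure K) (τ : AlgebraicClosure K →+* ℂ) (fun i => (a i : K)) α hα
      hmin hsum i ?_
    simp only [hτ]
    exact hvi

end Pool.Agent.W91.Nec
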