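import Mathlib

set_option autoImplicit false
open Polynomial
open scoped NumberField

namespace Pool.Agent.W91.RU

lemma exists_irred (K : Type) [Field K] [NumberField K] (m : ℕ) (hm : 0 < m) :
    ∃ c : K, c ≠ 0 ∧ Irreducible (X ^ m - C c : K[X]) := by
  obtain ⟨P, hP0, hP⟩ := Ring.not_isField_iff_exists_prime.mp (NumberField.RingOfIntegers.not_isField K)
  obtain ⟨c, hc1, hc2⟩ := Ideal.exists_mem_pow_notMem_pow_succ P hP0 hP.ne_top 1
  rw [pow_one] at hc1
  have hc0 : c ≠ 0 := by
    rintro rfl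
    exact hc2 (Ideal.zero_mem _)
  have hirr : Irreducible (X ^ m - C c : (𝓞 K)[X]) := by
    apply irreducible_of_eisenstein_criterion (P := P) hP
    · rw [(monic_X_pow_sub_C c hm.ne').leadingCoeff]
      exact fun h => hP.ne_top ((Ideal.eq_top_iff_one P).mpr h)
    · intro k hk
      rw [degree_X_pow_sub_C hm] at hk
      have hk' : k < m := by exact_mod_cast hk
      rw [coeff_sub, coeff_X_pow, if_neg hk'.ne, zero_sub]
      rw [coeff_C]
      split_ifs
      · exact neg_mem hc1
      · simp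
    · rw [degree_X_pow_sub_C hm]; exact_mod_cast hm
    · rw [coeff_sub, coeff_X_pow, if_neg hm.ne, zero_sub, coeff_C_zero]
      intro h
      exact hc2 (by simpa using neg_mem h)
    · exact (monic_X_pow_sub_C c hm.ne').isPrimitive
  refine ⟨(c : K), by exact_mod_cast hc0, ?_⟩
  have := (Polynomial.Monic.irreducible_iff_irreducible_map_fraction_map (K := K)
    (monic_X_pow_sub_C c hm.ne')).mp hirr
  simpa using this

theorem of_rootsOfUnity (K : Type) [Field K] [NumberField K] (n : ℕ) (a : Fin n → 𝓞 K)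
    (h : ∃ ω : Fin n → AlgebraicClosure K,
        (∀ i, ∃ m : ℕ, 0 < m ∧ ω i ^ m = 1) ∧
        ∑ i, algebraMap K (AlgebraicClosure K) (a i : K) * ω i = 0) :
    ∃ α : Fin n → AlgebraicClosure K,
        (∀ i, α i ≠ 0) ∧ (∀ i j, minpoly K (α i) = minpoly K (α j)) ∧
        ∑ i, algebraMap K (AlgebraicClosure K) (a i : K) * α i = 0 := by
  obtain ⟨ω, hω, hsum⟩ := h
  choose m hm0 hm1 using hω
  set M := ∏ i, m i with hM
  have hM0 : 0 < M := Finset.prod_pos fun i _ => hm0 i
  have hωM : ∀ i, ω i ^ M = 1 := by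
    intro i
    obtain ⟨k, hk⟩ : m i ∣ M := Finset.dvd_prod_of_mem _ (Finset.mem_univ i)
    rw [hk, pow_mul, hm1, one_pow]
  obtain ⟨c, hc0, hirr⟩ := exists_irred K M hM0
  obtain ⟨γ, hγ⟩ := IsAlgClosed.exists_pow_nat_eq (algebraMap K (AlgebraicClosure K) c) hM0
  have hγ0 : γ ≠ 0 := by
    rintro rfl
    rw [zero_pow hM0.ne'] at hγ
    exact hc0 ((map_eq_zero _).mp hγ.symm)
  have hmin : ∀ i, minpoly K (ω i * γ) = X ^ M - C c := by
    intro i
    refine (minpoly.eq_of_irreducible_of_monic hirr ?_ (monic_X_pow_sub_C c hM0.ne')).symm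
    simp [mul_pow, hωM, hγ]
  refine ⟨fun i => ω i * γ, fun i => ?_, fun i j => by rw [hmin, hmin], ?_⟩
  · refine mul_ne_zero ?_ hγ0
    intro h
    have := hωM i
    rw [h, zero_pow hM0.ne'] at this
    exact zero_ne_one this
  · have : ∑ i, algebraMap K (AlgebraicClosure K) (a i : K) * (ω i * γ)
        = (∑ i, algebraMap K (AlgebraicClosure K) (a i : K) * ω i) * γ := by
      rw [Finset.sum_mul]
      exact Finset.sum_congr rfl fun i _ => by ring
    rw [this, hsum, zero_mul]

end Pool.Agent.W91.RU
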