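import Mathlib
import Pool.Agent.H560R3.GB.Defs

set_option autoImplicit false

/-! Families of integers with prescribed multiplicities. -/

namespace Pool.Agent.W91.GM

open Finset Pool.Agent.H560R3.GB

/-- a family with prescribed multiplicities -/
lemma exists_family (m : ℕ → ℕ) (T : ℕ) : ∃ s : ℕ → ℕ,
    (∀ i ∈ Icc 1 (∑ v ∈ range T, m v), s i < T) ∧
    ∀ v < T, ((Icc 1 (∑ v ∈ range T, m v)).filter (fun i => s i = v)).card = m v := by
  induction T with
  | zero => exact ⟨fun _ => 0, by simp, by simp⟩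
  | succ T ih =>
    obtain ⟨s, hs, hc⟩ := ih
    set x := ∑ v ∈ range T, m v with hx
    refine ⟨fun i => if i ≤ x then s i else T, ?_, ?_⟩
    · intro i hi
      rw [sum_range_succ, ← hx, mem_Icc] at hi
      simp only
      split_ifs with h
      · exact (hs i (mem_Icc.2 ⟨hi.1, h⟩)).trans (Nat.lt_succ_self T)
      · exact Nat.lt_succ_self T
    · intro v hv
      rw [sum_range_succ, ← hx]
      rcases Nat.lt_succ_iff_lt_or_eq.1 hv with h | h
      · rw [← hc v h]
        congr 1
        ext i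
        simp only [mem_filter, mem_Icc]
        constructor
        · rintro ⟨⟨h1, h2⟩, h3⟩
          split_ifs at h3 with h4
          · exact ⟨⟨h1, h4⟩, h3⟩
          · omega
        · rintro ⟨⟨h1, h2⟩, h3⟩
          refine ⟨⟨h1, by omega⟩, ?_⟩
          rw [if_pos h2]
          exact h3
      · subst h
        have : (Icc 1 (x + m v)).filter (fun i => (if i ≤ x then s i else v) = v) = Icc (x + 1) (x + m v) := by
          ext i
          simp only [mem_filter, mem_Icc]
          constructor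
          · rintro ⟨⟨h1, h2⟩, h3⟩
            split_ifs at h3 with h4
            · have := hs i (mem_Icc.2 ⟨h1, h4⟩)
              omega
            · omega
          · rintro ⟨h1, h2⟩
            refine ⟨by omega, ?_⟩
            rw [if_neg (by omega)]
        rw [this, Nat.card_Icc]
        omega

/-- the additive energy of a weight function -/
noncomputable def Ew (h T : ℕ) (w : ℕ → ℝ) : ℝ :=
  ∑ q ∈ ((Fintype.piFinset fun _ : Fin h => range T) ×ˢ (Fintype.piFinset fun _ : Fin h => range T)).filter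
    (fun q => ∑ i, q.1 i = ∑ i, q.2 i), (∏ i, w (q.1 i)) * ∏ i, w (q.2 i)

/-- the energy of a family in terms of the multiplicities -/
lemma energy_le (h T x : ℕ) (s : ℕ → ℕ) (hs : ∀ i ∈ Icc 1 x, s i < T) :
    (energy h x s : ℝ) ≤ Ew h T (fun v => (((Icc 1 x).filter (fun i => s i = v)).card : ℝ)) := by
  classical
  unfold energy
  set P := Fintype.piFinset fun _ : Fin h => Icc 1 x with hP
  set R := Fintype.piFinset fun _ : Fin h => range T with hR
  have hmaps : ∀ q ∈ (P ×ˢ P).filter (fun q => ∑ i, s (q.1 i) = ∑ i, s (q.2 i)),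
      ((fun i => s (q.1 i), fun i => s (q.2 i)) : (Fin h → ℕ) × (Fin h → ℕ)) ∈
        (R ×ˢ R).filter (fun q => ∑ i, q.1 i = ∑ i, q.2 i) := by
    intro q hq
    rw [mem_filter, mem_product, hP, Fintype.mem_piFinset, Fintype.mem_piFinset] at hq
    rw [mem_filter, mem_product, hR, Fintype.mem_piFinset, Fintype.mem_piFinset]
    exact ⟨⟨fun i => mem_range.2 (hs _ (hq.1.1 i)), fun i => mem_range.2 (hs _ (hq.1.2 i))⟩, hq.2⟩
  rw [card_eq_sum_card_fiberwise hmaps]
  unfold Ew
  push_cast
  apply sum_le_sum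
  intro q hq
  have hsub : ((P ×ˢ P).filter (fun q => ∑ i, s (q.1 i) = ∑ i, s (q.2 i))).filter
      (fun r => ((fun i => s (r.1 i), fun i => s (r.2 i)) : (Fin h → ℕ) × (Fin h → ℕ)) = q) ⊆
      (Fintype.piFinset fun i : Fin h => (Icc 1 x).filter (fun j => s j = q.1 i)) ×ˢ
      (Fintype.piFinset fun i : Fin h => (Icc 1 x).filter (fun j => s j = q.2 i)) := by
    intro r hr
    rw [mem_filter, mem_filter, mem_product, hP, Fintype.mem_piFinset, Fintype.mem_piFinset] at hr
    rw [mem_product, Fintype.mem_piFinset, Fintype.mem_piFinset]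
    have h2 := hr.2
    rw [← h2]
    exact ⟨fun i => mem_filter.2 ⟨hr.1.1.1 i, rfl⟩, fun i => mem_filter.2 ⟨hr.1.1.2 i, rfl⟩⟩
  have hc := card_le_card hsub
  rw [card_product, Fintype.card_piFinset, Fintype.card_piFinset] at hc
  exact_mod_cast hc

lemma Ew_mono (h T : ℕ) (w w' : ℕ → ℝ) (h0 : ∀ v, 0 ≤ w v) (hw : ∀ v < T, w v ≤ w' v) : Ew h T w ≤ Ew h T w' := by
  unfold Ew
  apply sum_le_sum
  intro q hq
  rw [mem_filter, mem_product, Fintype.mem_piFinset, Fintype.mem_piFinset] at hq
  have h1 : ∏ i, w (q.1 i) ≤ ∏ i, w' (q.1 i) :=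
    prod_le_prod (fun i _ => h0 _) (fun i _ => hw _ (mem_range.1 (hq.1.1 i)))
  have h2 : ∏ i, w (q.2 i) ≤ ∏ i, w' (q.2 i) :=
    prod_le_prod (fun i _ => h0 _) (fun i _ => hw _ (mem_range.1 (hq.1.2 i)))
  have h3 : 0 ≤ ∏ i, w (q.1 i) := prod_nonneg (fun i _ => h0 _)
  have h4 : 0 ≤ ∏ i, w (q.2 i) := prod_nonneg (fun i _ => h0 _)
  exact mul_le_mul h1 h2 h4 (h3.trans h1)

lemma Ew_smul (h T : ℕ) (w : ℕ → ℝ) (M : ℝ) : Ew h T (fun v => w v * M) = M ^ (2 * h) * Ew h T w := by
  unfold Ew
  rw [mul_sum]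
  apply sum_congr rfl
  intro q _
  rw [prod_mul_distrib, prod_mul_distrib, prod_const, card_univ, Fintype.card_fin]
  ring

end Pool.Agent.W91.GM
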