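import Mathlib
import Pool.Agent.W91.GM1
import Pool.Agent.W93.GB4

set_option autoImplicit false

/-! Exceptional sets for weights of small additive energy. -/

namespace Pool.Agent.W91.GM

open Finset Pool.Agent.H560R3.GB

theorem wts (h B C U : ℕ) (hh : 1 ≤ h) (ε : ℝ) (hε : 0 < ε) :
    ∃ N₀ : ℕ, ∀ N : ℕ, N₀ ≤ N → ∀ w : ℕ → ℝ, (∀ v, 0 ≤ w v) → (∀ v, ¬ 2 ∣ v → w v = 0) →
      ∑ v ∈ range (B * N + 1), w v ≤ 1 → Ew h (B * N + 1) w * N ≤ Real.log N ^ C →
      ∀ S : Finset ℕ, S ⊆ range (B * N + 1) → (∀ v ∈ S, ¬ Pool.Agent.W93.GB.Good ε v) →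
        ∑ v ∈ S, w v ≤ 1 / Real.log N ^ U := by
  classical
  obtain ⟨N1, hfam⟩ := Pool.Agent.W93.GB.fam h B (C + 2 * h * U + h) (U + 1) hh ε hε
  refine ⟨max N1 ⌈Real.exp 4⌉₊, fun N hN w hw0 hw2 hw1 hE S hST hS => ?_⟩
  have hN1 : N1 ≤ N := (le_max_left _ _).trans hN
  have hN2 : Real.exp 4 ≤ N := (Nat.le_ceil _).trans (by exact_mod_cast (le_max_right _ _).trans hN)
  have hNpos : (0 : ℝ) < N := (Real.exp_pos 4).trans_le hN2
  have hL : 4 ≤ Real.log N := by
    rw [Real.le_log_iff_exp_le hNpos]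
    exact hN2
  set L := Real.log N with hLdef
  have hL0 : 0 < L := by linarith
  have hLU : 0 < L ^ U := by positivity
  set T := B * N + 1 with hT
  set mass := ∑ v ∈ range T, w v with hmass
  have hSm : ∑ v ∈ S, w v ≤ mass := sum_le_sum_of_subset_of_nonneg hST (fun v _ _ => hw0 v)
  by_cases hm : mass ≤ 1 / L ^ U
  · exact hSm.trans hm
  rw [not_le] at hm
  set M : ℕ := ⌈2 * (T : ℝ) * L ^ U⌉₊ with hM
  have hMge : 2 * (T : ℝ) * L ^ U ≤ M := Nat.le_ceil _
  have hTpos : (1 : ℝ) ≤ T := by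
    have : 1 ≤ T := by omega
    exact_mod_cast this
  have hMpos : (0 : ℝ) < M := lt_of_lt_of_le (by positivity) hMge
  have hmpos : 0 < mass := lt_trans (by positivity) hm
  obtain ⟨s, hs1, hs2⟩ := exists_family (fun v => ⌊w v * M⌋₊) T
  set x := ∑ v ∈ range T, ⌊w v * M⌋₊ with hx
  have hfl : ∀ v, (⌊w v * M⌋₊ : ℝ) ≤ w v * M := fun v => Nat.floor_le (mul_nonneg (hw0 v) hMpos.le)
  have hfg : ∀ v, w v * M - 1 ≤ (⌊w v * M⌋₊ : ℝ) := fun v => (Nat.sub_one_lt_floor _).le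
  have hx1 : (x : ℝ) ≤ M := by
    rw [hx]
    push_cast
    calc ∑ v ∈ range T, (⌊w v * M⌋₊ : ℝ) ≤ ∑ v ∈ range T, w v * M := sum_le_sum (fun v _ => hfl v)
      _ = mass * M := by rw [← sum_mul]
      _ ≤ 1 * M := mul_le_mul_of_nonneg_right hw1 hMpos.le
      _ = M := one_mul _
  have hx2 : mass * M / 2 ≤ x := by
    have h1 : mass * M - T ≤ x := by
      rw [hx]
      push_cast
      calc mass * M - T = ∑ v ∈ range T, (w v * M - 1) := by
            rw [sum_sub_distrib, ← sum_mul, sum_const, card_range, nsmul_eq_mul, mul_one]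
        _ ≤ ∑ v ∈ range T, (⌊w v * M⌋₊ : ℝ) := sum_le_sum (fun v _ => hfg v)
    have h2 : 2 * (T : ℝ) ≤ mass * M := by
      have h3 : 1 / L ^ U * (2 * (T : ℝ) * L ^ U) ≤ mass * M :=
        mul_le_mul hm.le hMge (by positivity) hmpos.le
      have h4 : 1 / L ^ U * (2 * (T : ℝ) * L ^ U) = 2 * T := by field_simp
      linarith
    linarith
  -- the energy
  have hen : (energy h x s : ℝ) * N ≤ L ^ (C + 2 * h * U + h) * (x : ℝ) ^ (2 * h) := by
    have e1 := energy_le h T x s hs1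
    have e2 : Ew h T (fun v => (((Icc 1 x).filter (fun i => s i = v)).card : ℝ)) ≤ Ew h T (fun v => w v * M) := by
      apply Ew_mono
      · intro v
        positivity
      · intro v hv
        have := hs2 v hv
        rw [this]
        exact hfl v
    rw [Ew_smul] at e2
    have e3 : (M : ℝ) ≤ 2 * x * L ^ U := by
      have h1 : (M : ℝ) ≤ M * (mass * L ^ U) := by
        have : 1 ≤ mass * L ^ U := by
          rw [div_lt_iff₀ hLU] at hm
          exact hm.le
        nlinarith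
      have h2 : (M : ℝ) * (mass * L ^ U) ≤ 2 * x * L ^ U := by
        have : (M : ℝ) * (mass * L ^ U) = mass * M * L ^ U := by ring
        rw [this]
        apply mul_le_mul_of_nonneg_right _ hLU.le
        linarith
      linarith
    have e4 : (M : ℝ) ^ (2 * h) ≤ (2 * x * L ^ U) ^ (2 * h) := pow_le_pow_left₀ hMpos.le e3 _
    have e5 : (2 * (x : ℝ) * L ^ U) ^ (2 * h) = 4 ^ h * x ^ (2 * h) * L ^ (2 * h * U) := by
      rw [mul_pow, mul_pow, ← pow_mul, pow_mul 2 2 h]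
      norm_num
      left
      ring_nf
    have e6 : (4 : ℝ) ^ h ≤ L ^ h := pow_le_pow_left₀ (by norm_num) hL _
    have hx0 : (0 : ℝ) ≤ x := by positivity
    calc (energy h x s : ℝ) * N ≤ M ^ (2 * h) * Ew h T w * N :=
          mul_le_mul_of_nonneg_right (e1.trans e2) hNpos.le
      _ = M ^ (2 * h) * (Ew h T w * N) := by ring
      _ ≤ M ^ (2 * h) * L ^ C := mul_le_mul_of_nonneg_left hE (by positivity)
      _ ≤ (4 ^ h * x ^ (2 * h) * L ^ (2 * h * U)) * L ^ C := by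
          rw [← e5]
          exact mul_le_mul_of_nonneg_right e4 (by positivity)
      _ ≤ (L ^ h * x ^ (2 * h) * L ^ (2 * h * U)) * L ^ C := by
          gcongr
      _ = L ^ (C + 2 * h * U + h) * (x : ℝ) ^ (2 * h) := by
          rw [pow_add, pow_add]
          ring
  have hev : ∀ m ∈ Icc 1 x, s m ≤ B * N ∧ 2 ∣ s m := by
    intro m hm'
    have h1 := hs1 m hm'
    refine ⟨by omega, ?_⟩
    by_contra hodd
    have h2 := hs2 (s m) h1
    rw [hw2 _ hodd, zero_mul, Nat.floor_zero, card_eq_zero] at h2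
    have h3 : m ∈ (Icc 1 x).filter (fun i => s i = s m) := mem_filter.2 ⟨hm', rfl⟩
    rw [h2] at h3
    simp at h3
  have hmain := hfam N hN1 x s hev hen ((Icc 1 x).filter (fun i => s i ∈ S)) (filter_subset _ _)
    (fun m hm' => hS _ (mem_filter.1 hm').2)
  have hcard : (((Icc 1 x).filter (fun i => s i ∈ S)).card : ℝ) = ∑ v ∈ S, (⌊w v * M⌋₊ : ℝ) := by
    have hmap : ∀ i ∈ (Icc 1 x).filter (fun i => s i ∈ S), s i ∈ S := fun i hi => (mem_filter.1 hi).2
    rw [card_eq_sum_card_fiberwise hmap]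
    push_cast
    apply sum_congr rfl
    intro v hv
    rw [← hs2 v (mem_range.1 (hST hv))]
    congr 2
    ext i
    simp only [mem_filter]
    constructor
    · rintro ⟨⟨h1, _⟩, h3⟩
      exact ⟨h1, h3⟩
    · rintro ⟨h1, h3⟩
      refine ⟨⟨h1, ?_⟩, h3⟩
      rw [h3]
      exact hv
  rw [hcard] at hmain
  have hlow : (∑ v ∈ S, w v) * M - T ≤ ∑ v ∈ S, (⌊w v * M⌋₊ : ℝ) := by
    have h1 : ∑ v ∈ S, (w v * M - 1) ≤ ∑ v ∈ S, (⌊w v * M⌋₊ : ℝ) := sum_le_sum (fun v _ => hfg v)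
    rw [sum_sub_distrib, ← sum_mul, sum_const, nsmul_eq_mul, mul_one] at h1
    have h2 : (S.card : ℝ) ≤ T := by
      have := card_le_card hST
      rw [card_range] at this
      exact_mod_cast this
    linarith
  have hup : (x : ℝ) / L ^ (U + 1) ≤ M / L ^ (U + 1) := by
    gcongr
  have hq : (M : ℝ) / L ^ (U + 1) ≤ M * (1 / (4 * L ^ U)) := by
    rw [mul_one_div, div_le_div_iff₀ (by positivity) (by positivity), pow_succ]
    have : 0 ≤ (M : ℝ) * L ^ U := by positivity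
    nlinarith
  have hT2 : (T : ℝ) ≤ M * (1 / (2 * L ^ U)) := by
    rw [mul_one_div, le_div_iff₀ (by positivity)]
    linarith
  have hfin : (∑ v ∈ S, w v) * M ≤ (1 / L ^ U) * M := by
    have e : (1 / L ^ U) * (M : ℝ) = M * (1 / (2 * L ^ U)) + M * (1 / (4 * L ^ U)) + M * (1 / (4 * L ^ U)) := by
      field_simp
      ring
    have : 0 ≤ (M : ℝ) * (1 / (4 * L ^ U)) := by positivity
    linarith
  exact le_of_mul_le_mul_right hfin hMpos

end Pool.Agent.W91.GM
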