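import Mathlib

set_option autoImplicit false

/-! Small balls and characteristic functions. -/

namespace Pool.Agent.W91.GM

open MeasureTheory Set

/-- the kernel -/
noncomputable def G (u y : ℝ) : ℝ := ∫ t in (0 : ℝ)..u, (1 - t / u) * Real.cos (t * y)

lemma G_nonneg (u y : ℝ) (hu : 0 < u) : 0 ≤ G u y := by
  unfold G
  by_cases hy : y = 0
  · subst hy
    apply intervalIntegral.integral_nonneg hu.le
    intro t ht
    rw [mul_zero, Real.cos_zero, mul_one, sub_nonneg, div_le_one hu]
    exact ht.2
  · have h1 : ∀ t ∈ uIcc (0 : ℝ) u, HasDerivAt (fun t => (1 - t / u) * (Real.sin (t * y) / y) - Real.cos (t * y) / (u * y ^ 2))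
        ((1 - t / u) * Real.cos (t * y)) t := by
      intro t _
      have a1 : HasDerivAt (fun t : ℝ => 1 - t / u) (-(1 / u)) t := by
        have := ((hasDerivAt_id t).div_const u).const_sub 1
        simpa using this
      have a2 : HasDerivAt (fun t : ℝ => t * y) y t := by
        simpa using (hasDerivAt_id t).mul_const y
      have a3 : HasDerivAt (fun t : ℝ => Real.sin (t * y) / y) (Real.cos (t * y) * y / y) t := a2.sin.div_const y
      have a4 : HasDerivAt (fun t : ℝ => Real.cos (t * y) / (u * y ^ 2)) (-Real.sin (t * y) * y / (u * y ^ 2)) t :=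
        a2.cos.div_const _
      have a5 := (a1.mul a3).sub a4
      have hu' : u ≠ 0 := hu.ne'
      have e : -(1 / u) * (Real.sin (t * y) / y) + (1 - t / u) * (Real.cos (t * y) * y / y) -
          -Real.sin (t * y) * y / (u * y ^ 2) = (1 - t / u) * Real.cos (t * y) := by
        field_simp
        ring
      rw [← e]
      exact a5
    rw [intervalIntegral.integral_eq_sub_of_hasDerivAt h1]
    · have e : (1 - u / u) * (Real.sin (u * y) / y) - Real.cos (u * y) / (u * y ^ 2) -
          ((1 - 0 / u) * (Real.sin (0 * y) / y) - Real.cos (0 * y) / (u * y ^ 2)) =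
          (1 - Real.cos (u * y)) / (u * y ^ 2) := by
        rw [div_self hu.ne', zero_mul, Real.sin_zero, Real.cos_zero]
        ring
      rw [e]
      apply div_nonneg
      · linarith [Real.cos_le_one (u * y)]
      · positivity
    · apply Continuous.intervalIntegrable
      fun_prop

lemma G_lower (u y : ℝ) (hu : 0 < u) (hy : |y| * u ≤ 1) : u / 4 ≤ G u y := by
  unfold G
  have h1 : ∫ t in (0 : ℝ)..u, (1 - t / u) * (1 / 2) = u / 4 := by
    have : ∀ t : ℝ, (1 - t / u) * (1 / 2) = 1 / 2 - t * (1 / (2 * u)) := by
      intro t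
      field_simp
    simp_rw [this]
    rw [intervalIntegral.integral_sub, intervalIntegral.integral_const, intervalIntegral.integral_mul_const, integral_id]
    · simp
      field_simp
      ring
    · exact intervalIntegrable_const
    · apply Continuous.intervalIntegrable
      fun_prop
  rw [← h1]
  apply intervalIntegral.integral_mono_on hu.le
  · apply Continuous.intervalIntegrable
    fun_prop
  · apply Continuous.intervalIntegrable
    fun_prop
  · intro t ht
    apply mul_le_mul_of_nonneg_left
    · have h2 : |t * y| ≤ 1 := by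
        rw [abs_mul, abs_of_nonneg ht.1]
        have h3 : t * |y| ≤ u * |y| := mul_le_mul_of_nonneg_right ht.2 (abs_nonneg y)
        linarith
      have h3 := Real.one_sub_sq_div_two_le_cos (x := t * y)
      have h4 : (t * y) ^ 2 ≤ 1 := by
        rw [← sq_abs]
        have := abs_nonneg (t * y)
        nlinarith
      linarith
    · rw [sub_nonneg, div_le_one hu]
      exact ht.2

variable {Ω : Type*} [MeasurableSpace Ω]

/-- the characteristic function -/
noncomputable def ph (P : Measure Ω) (X : Ω → ℝ) (t : ℝ) : ℂ := ∫ ω, Complex.exp (t * X ω * Complex.I) ∂P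

lemma ph_cont (P : Measure Ω) [IsProbabilityMeasure P] (X : Ω → ℝ) (hX : Measurable X) : Continuous (ph P X) := by
  unfold ph
  apply continuous_of_dominated (bound := fun _ => (1 : ℝ))
  · intro t
    apply Measurable.aestronglyMeasurable
    fun_prop
  · intro t
    filter_upwards with ω
    rw [← Complex.ofReal_mul, Complex.norm_exp_ofReal_mul_I]
  · exact integrable_const _
  · filter_upwards with ω
    fun_prop

lemma ph_le_one (P : Measure Ω) [IsProbabilityMeasure P] (X : Ω → ℝ) (t : ℝ) : ‖ph P X t‖ ≤ 1 := by
  unfold ph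
  have := norm_integral_le_of_norm_le_const (μ := P) (f := fun ω => Complex.exp (t * X ω * Complex.I)) (C := 1) (by
    filter_upwards with ω
    rw [← Complex.ofReal_mul, Complex.norm_exp_ofReal_mul_I])
  simpa using this

lemma ph_neg (P : Measure Ω) (X : Ω → ℝ) (t : ℝ) : ‖∫ ω, Complex.exp (t * (-X ω) * Complex.I) ∂P‖ = ‖ph P X t‖ := by
  unfold ph
  have : ∀ ω, Complex.exp ((t : ℂ) * (-(X ω : ℂ)) * Complex.I) =
      (starRingEnd ℂ) (Complex.exp ((t : ℂ) * (X ω : ℂ) * Complex.I)) := by
    intro ω
    rw [← Complex.exp_conj]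
    congr 1
    simp
  simp_rw [this]
  rw [integral_conj]
  exact RCLike.norm_conj _

/-- the sum of independent copies minus the sum of further independent copies -/
noncomputable def YY (h : ℕ) (X : Ω → ℝ) (z : (Fin h → Ω) × (Fin h → Ω)) : ℝ := (∑ i, X (z.1 i)) - ∑ i, X (z.2 i)

/-- the product measure -/
noncomputable def PP (h : ℕ) (P : Measure Ω) : Measure ((Fin h → Ω) × (Fin h → Ω)) :=
  (Measure.pi fun _ : Fin h => P).prod (Measure.pi fun _ : Fin h => P)

instance (h : ℕ) (P : Measure Ω) [IsProbabilityMeasure P] : IsProbabilityMeasure (PP h P) := by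
  unfold PP
  infer_instance

lemma YY_meas (h : ℕ) (X : Ω → ℝ) (hX : Measurable X) : Measurable (YY h X) := by
  unfold YY
  apply Measurable.sub
  · apply Finset.measurable_sum
    intro i _
    exact hX.comp ((measurable_pi_apply i).comp measurable_fst)
  · apply Finset.measurable_sum
    intro i _
    exact hX.comp ((measurable_pi_apply i).comp measurable_snd)

lemma char_YY (h : ℕ) (P : Measure Ω) [IsProbabilityMeasure P] (X : Ω → ℝ) (t : ℝ) :
    ‖∫ z, Complex.exp (t * YY h X z * Complex.I) ∂(PP h P)‖ = ‖ph P X t‖ ^ (2 * h) := by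
  have h1 : ∀ z : (Fin h → Ω) × (Fin h → Ω), Complex.exp (t * YY h X z * Complex.I) =
      (∏ i, Complex.exp (t * X (z.1 i) * Complex.I)) * (∏ i, Complex.exp (t * (-X (z.2 i)) * Complex.I)) := by
    intro z
    rw [← Complex.exp_sum, ← Complex.exp_sum, ← Complex.exp_add]
    congr 1
    unfold YY
    push_cast
    rw [← Finset.sum_mul, ← Finset.sum_mul, ← Finset.mul_sum, ← Finset.mul_sum, Finset.sum_neg_distrib]
    ring
  simp_rw [h1]
  unfold PP
  rw [integral_prod_mul (fun x : Fin h → Ω => ∏ i, Complex.exp (t * X (x i) * Complex.I))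
    (fun y : Fin h → Ω => ∏ i, Complex.exp (t * (-X (y i)) * Complex.I))]
  rw [integral_fintype_prod_eq_prod (fun (_ : Fin h) (ω : Ω) => Complex.exp (t * X ω * Complex.I)),
    integral_fintype_prod_eq_prod (fun (_ : Fin h) (ω : Ω) => Complex.exp (t * (-X ω) * Complex.I))]
  rw [Finset.prod_const, Finset.prod_const, norm_mul, norm_pow, norm_pow, ph_neg]
  unfold ph
  rw [Finset.card_univ, Fintype.card_fin, ← pow_add]
  congr 1
  ring

lemma cos_YY (h : ℕ) (P : Measure Ω) [IsProbabilityMeasure P] (X : Ω → ℝ) (hX : Measurable X) (t : ℝ) :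
    ∫ z, Real.cos (t * YY h X z) ∂(PP h P) ≤ ‖ph P X t‖ ^ (2 * h) := by
  rw [← char_YY]
  have hint : Integrable (fun z => Complex.exp (t * YY h X z * Complex.I)) (PP h P) := by
    apply Integrable.mono' (integrable_const (1 : ℝ))
    · have := YY_meas h X hX
      apply Measurable.aestronglyMeasurable
      fun_prop
    · filter_upwards with z
      rw [← Complex.ofReal_mul, Complex.norm_exp_ofReal_mul_I]
  have h1 : ∫ z, Real.cos (t * YY h X z) ∂(PP h P) = (∫ z, Complex.exp (t * YY h X z * Complex.I) ∂(PP h P)).re := by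
    have h2 := integral_re hint
    simp only [RCLike.re_to_complex] at h2
    rw [← h2]
    apply integral_congr_ae
    filter_upwards with z
    rw [← Complex.ofReal_mul, Complex.exp_ofReal_mul_I_re]
  rw [h1]
  exact Complex.re_le_norm _

/-- the probability of a small ball -/
lemma small_ball (h : ℕ) (P : Measure Ω) [IsProbabilityMeasure P] (X : Ω → ℝ) (hX : Measurable X) (u r : ℝ)
    (hu : 0 < u) (hr : r * u ≤ 1) :
    (PP h P).real {z | |YY h X z| ≤ r} ≤ 4 / u * ∫ t in (0 : ℝ)..u, ‖ph P X t‖ ^ (2 * h) := by
  have hY := YY_meas h X hX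
  have hint2 : Integrable (Function.uncurry fun z t => (1 - t / u) * Real.cos (t * YY h X z))
      ((PP h P).prod (volume.restrict (Ioc 0 u))) := by
    apply Integrable.mono' (g := fun _ => (1 : ℝ)) (integrable_const _)
    · apply Measurable.aestronglyMeasurable
      unfold Function.uncurry
      simp only
      have h1 : Measurable fun p : ((Fin h → Ω) × (Fin h → Ω)) × ℝ => YY h X p.1 := hY.comp measurable_fst
      fun_prop
    · have e : (PP h P).prod (volume.restrict (Ioc 0 u)) = ((PP h P).prod volume).restrict (univ ×ˢ Ioc 0 u) := by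
        rw [← Measure.prod_restrict, Measure.restrict_univ]
      rw [e, ae_restrict_iff' (MeasurableSet.univ.prod measurableSet_Ioc)]
      filter_upwards with a ha
      unfold Function.uncurry
      simp only
      have ht := (Set.mem_prod.1 ha).2
      rw [norm_mul, Real.norm_eq_abs, Real.norm_eq_abs]
      have h1 : |1 - a.2 / u| ≤ 1 := by
        have h3 : 0 ≤ a.2 / u := div_nonneg ht.1.le hu.le
        have h4 : a.2 / u ≤ 1 := (div_le_one hu).2 ht.2
        rw [abs_le]
        constructor <;> linarith
      have h2 := Real.abs_cos_le_one (a.2 * YY h X a.1)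
      calc |1 - a.2 / u| * |Real.cos (a.2 * YY h X a.1)| ≤ 1 * 1 :=
            mul_le_mul h1 h2 (abs_nonneg _) zero_le_one
        _ = 1 := one_mul 1
  have hswap : ∫ z, G u (YY h X z) ∂(PP h P) = ∫ t in (0 : ℝ)..u, (1 - t / u) * ∫ z, Real.cos (t * YY h X z) ∂(PP h P) := by
    unfold G
    simp_rw [intervalIntegral.integral_of_le hu.le]
    rw [integral_integral_swap hint2]
    apply integral_congr_ae
    filter_upwards with t
    rw [integral_const_mul]
  have hint : Integrable (fun z => G u (YY h X z)) (PP h P) := by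
    unfold G
    simp_rw [intervalIntegral.integral_of_le hu.le]
    exact hint2.integral_prod_left
  have hle : u / 4 * (PP h P).real {z | |YY h X z| ≤ r} ≤ ∫ z, G u (YY h X z) ∂(PP h P) := by
    have hms : MeasurableSet {z | |YY h X z| ≤ r} := measurableSet_le hY.abs measurable_const
    have h1 : ∫ z, Set.indicator {z | |YY h X z| ≤ r} (fun _ => u / 4) z ∂(PP h P) =
        u / 4 * (PP h P).real {z | |YY h X z| ≤ r} := by
      rw [integral_indicator hms, setIntegral_const, smul_eq_mul, mul_comm]
    rw [← h1]
    apply integral_mono _ hint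
    · intro z
      simp only [Set.indicator]
      split_ifs with hz
      · apply G_lower u _ hu
        exact (mul_le_mul_of_nonneg_right hz hu.le).trans hr
      · exact G_nonneg u _ hu
    · exact (integrable_const _).indicator hms
  have hup : ∫ z, G u (YY h X z) ∂(PP h P) ≤ ∫ t in (0 : ℝ)..u, ‖ph P X t‖ ^ (2 * h) := by
    rw [hswap]
    apply intervalIntegral.integral_mono_on hu.le
    · rw [intervalIntegrable_iff_integrableOn_Ioc_of_le hu.le]
      have := hint2.integral_prod_right
      unfold Function.uncurry at this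
      simp only [integral_const_mul] at this
      exact this
    · apply Continuous.intervalIntegrable
      exact ((ph_cont P X hX).norm).pow _
    · intro t ht
      have h1 := cos_YY h P X hX t
      have h2 : 0 ≤ 1 - t / u := by
        rw [sub_nonneg, div_le_one hu]
        exact ht.2
      have h3 : 1 - t / u ≤ 1 := by
        have : 0 ≤ t / u := div_nonneg ht.1 hu.le
        linarith
      have h4 : 0 ≤ ‖ph P X t‖ ^ (2 * h) := by positivity
      calc (1 - t / u) * ∫ z, Real.cos (t * YY h X z) ∂(PP h P) ≤ (1 - t / u) * ‖ph P X t‖ ^ (2 * h) :=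
            mul_le_mul_of_nonneg_left h1 h2
        _ ≤ 1 * ‖ph P X t‖ ^ (2 * h) := mul_le_mul_of_nonneg_right h3 h4
        _ = _ := one_mul _
  have h5 := hle.trans hup
  rw [div_mul_eq_mul_div, le_div_iff₀ hu]
  linarith

end Pool.Agent.W91.GM
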