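import Mathlib
import Pool.Agent.W91.GM1
import Pool.Agent.W91.GM3

set_option autoImplicit false

/-! The even integers near a random real number. -/

namespace Pool.Agent.W91.GM

open MeasureTheory Set

variable {Ω : Type*} [MeasurableSpace Ω]

/-- an even integer near `X` -/
noncomputable def nn (X : Ω → ℝ) (j : ℤ) (ω : Ω) : ℤ := 2 * ⌊X ω / 2⌋ + 2 * j

lemma nn_meas (X : Ω → ℝ) (hX : Measurable X) (j : ℤ) : Measurable (nn X j) := by
  unfold nn
  exact ((hX.div_const 2).floor.const_mul 2).add_const (2 * j)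

lemma nn_near (X : Ω → ℝ) (j : ℤ) (ω : Ω) : (nn X j ω : ℝ) - 2 * j ≤ X ω ∧ X ω < (nn X j ω : ℝ) - 2 * j + 2 := by
  unfold nn
  have h1 := Int.floor_le (X ω / 2)
  have h2 := Int.lt_floor_add_one (X ω / 2)
  push_cast
  constructor <;> linarith

/-- the distribution -/
noncomputable def wd (P : Measure Ω) (X : Ω → ℝ) (j : ℤ) (v : ℕ) : ℝ := P.real {ω | nn X j ω = (v : ℤ)}

lemma wd_nonneg (P : Measure Ω) (X : Ω → ℝ) (j : ℤ) (v : ℕ) : 0 ≤ wd P X j v := measureReal_nonneg

lemma wd_odd (P : Measure Ω) (X : Ω → ℝ) (j : ℤ) (v : ℕ) (hv : ¬ 2 ∣ v) : wd P X j v = 0 := by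
  unfold wd
  have : {ω | nn X j ω = (v : ℤ)} = ∅ := by
    rw [Set.eq_empty_iff_forall_notMem]
    intro ω hω
    apply hv
    have h1 : nn X j ω = (v : ℤ) := hω
    unfold nn at h1
    omega
  rw [this, measureReal_empty]

lemma wd_sum (P : Measure Ω) [IsProbabilityMeasure P] (X : Ω → ℝ) (hX : Measurable X) (j : ℤ) (S : Finset ℕ) :
    ∑ v ∈ S, wd P X j v = P.real {ω | ∃ v ∈ S, nn X j ω = (v : ℤ)} := by
  unfold wd
  have e : {ω | ∃ v ∈ S, nn X j ω = (v : ℤ)} = ⋃ v ∈ S, {ω | nn X j ω = (v : ℤ)} := by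
    ext ω
    simp
  rw [e, measureReal_biUnion_finset]
  · intro u _ v _ huv
    simp only [Function.onFun]
    rw [Set.disjoint_left]
    intro ω h1 h2
    apply huv
    have h1' : nn X j ω = (u : ℤ) := h1
    have h2' : nn X j ω = (v : ℤ) := h2
    rw [h1'] at h2'
    exact_mod_cast h2'
  · intro v _
    exact nn_meas X hX j (measurableSet_singleton (v : ℤ))

lemma wd_energy (h T : ℕ) (P : Measure Ω) [IsProbabilityMeasure P] (X : Ω → ℝ) (hX : Measurable X) (j : ℤ) :
    Ew h T (wd P X j) ≤ (PP h P).real {z | |YY h X z| ≤ 2 * h} := by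
  classical
  unfold Ew
  set F := ((Fintype.piFinset fun _ : Fin h => Finset.range T) ×ˢ (Fintype.piFinset fun _ : Fin h => Finset.range T)).filter
    (fun q => ∑ i, q.1 i = ∑ i, q.2 i) with hF
  let Bq : (Fin h → ℕ) × (Fin h → ℕ) → Set ((Fin h → Ω) × (Fin h → Ω)) := fun q =>
    (Set.univ.pi fun i => {ω | nn X j ω = (q.1 i : ℤ)}) ×ˢ (Set.univ.pi fun i => {ω | nn X j ω = (q.2 i : ℤ)})
  have hB : ∀ q, (∏ i, wd P X j (q.1 i)) * ∏ i, wd P X j (q.2 i) = (PP h P).real (Bq q) := by
    intro q
    unfold PP wd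
    simp only [Measure.real, Bq]
    rw [Measure.prod_prod, Measure.pi_pi, Measure.pi_pi, ENNReal.toReal_mul, ENNReal.toReal_prod, ENNReal.toReal_prod]
  have hmeasB : ∀ q, MeasurableSet (Bq q) := by
    intro q
    apply MeasurableSet.prod
    · apply MeasurableSet.univ_pi
      intro i
      exact nn_meas X hX j (measurableSet_singleton _)
    · apply MeasurableSet.univ_pi
      intro i
      exact nn_meas X hX j (measurableSet_singleton _)
  calc ∑ q ∈ F, (∏ i, wd P X j (q.1 i)) * ∏ i, wd P X j (q.2 i) = ∑ q ∈ F, (PP h P).real (Bq q) :=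
        Finset.sum_congr rfl (fun q _ => hB q)
    _ = (PP h P).real (⋃ q ∈ F, Bq q) := by
        rw [measureReal_biUnion_finset]
        · intro p _ q _ hpq
          simp only [Function.onFun]
          rw [Set.disjoint_left]
          intro z h1 h2
          apply hpq
          have h11 : ∀ i, nn X j (z.1 i) = (p.1 i : ℤ) := fun i => h1.1 i (Set.mem_univ i)
          have h12 : ∀ i, nn X j (z.2 i) = (p.2 i : ℤ) := fun i => h1.2 i (Set.mem_univ i)
          have h21 : ∀ i, nn X j (z.1 i) = (q.1 i : ℤ) := fun i => h2.1 i (Set.mem_univ i)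
          have h22 : ∀ i, nn X j (z.2 i) = (q.2 i : ℤ) := fun i => h2.2 i (Set.mem_univ i)
          apply Prod.ext
          · funext i
            have := (h11 i).symm.trans (h21 i)
            exact_mod_cast this
          · funext i
            have := (h12 i).symm.trans (h22 i)
            exact_mod_cast this
        · intro q _
          exact hmeasB q
    _ ≤ (PP h P).real {z | |YY h X z| ≤ 2 * h} := by
        refine measureReal_mono ?_ (measure_ne_top _ _)
        intro z hz
        rw [Set.mem_iUnion₂] at hz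
        obtain ⟨q, hq, hz⟩ := hz
        have h11 : ∀ i, nn X j (z.1 i) = (q.1 i : ℤ) := fun i => hz.1 i (Set.mem_univ i)
        have h12 : ∀ i, nn X j (z.2 i) = (q.2 i : ℤ) := fun i => hz.2 i (Set.mem_univ i)
        have hs : ∑ i, q.1 i = ∑ i, q.2 i := (Finset.mem_filter.1 hq).2
        have hs' : ∑ i, (q.1 i : ℝ) = ∑ i, (q.2 i : ℝ) := by exact_mod_cast hs
        have e1 : YY h X z = ∑ i, (X (z.1 i) - q.1 i + 2 * j) - ∑ i, (X (z.2 i) - q.2 i + 2 * j) := by
          unfold YY
          rw [Finset.sum_add_distrib, Finset.sum_add_distrib, Finset.sum_sub_distrib, Finset.sum_sub_distrib, hs']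
          ring
        have b1 : ∀ i, 0 ≤ X (z.1 i) - q.1 i + 2 * j ∧ X (z.1 i) - q.1 i + 2 * j ≤ 2 := by
          intro i
          have h1 := nn_near X j (z.1 i)
          rw [h11 i] at h1
          push_cast at h1
          constructor <;> linarith [h1.1, h1.2]
        have b2 : ∀ i, 0 ≤ X (z.2 i) - q.2 i + 2 * j ∧ X (z.2 i) - q.2 i + 2 * j ≤ 2 := by
          intro i
          have h1 := nn_near X j (z.2 i)
          rw [h12 i] at h1
          push_cast at h1
          constructor <;> linarith [h1.1, h1.2]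
        have c1 : 0 ≤ ∑ i, (X (z.1 i) - q.1 i + 2 * j) := Finset.sum_nonneg (fun i _ => (b1 i).1)
        have c2 : 0 ≤ ∑ i, (X (z.2 i) - q.2 i + 2 * j) := Finset.sum_nonneg (fun i _ => (b2 i).1)
        have c3 : ∑ i, (X (z.1 i) - q.1 i + 2 * j) ≤ 2 * h := by
          refine (Finset.sum_le_sum (fun i _ => (b1 i).2)).trans ?_
          rw [Finset.sum_const, Finset.card_univ, Fintype.card_fin, nsmul_eq_mul]
          linarith
        have c4 : ∑ i, (X (z.2 i) - q.2 i + 2 * j) ≤ 2 * h := by
          refine (Finset.sum_le_sum (fun i _ => (b2 i).2)).trans ?_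
          rw [Finset.sum_const, Finset.card_univ, Fintype.card_fin, nsmul_eq_mul]
          linarith
        show |YY h X z| ≤ 2 * h
        rw [e1, abs_le]
        constructor <;> linarith

end Pool.Agent.W91.GM
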