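import Mathlib
import Pool.Agent.W91.GM2
import Pool.Agent.W91.GM4

set_option autoImplicit false

/-! The formula of Hardy and Littlewood near a random real number. -/

namespace Pool.Agent.W91.GM

open MeasureTheory Set Pool.Agent.H560R3.GB

universe u

theorem unif (h B C A U : ℕ) (hh : 1 ≤ h) (ε : ℝ) (hε : 0 < ε) :
    ∃ a₀ : ℝ, ∀ a : ℝ, a₀ ≤ a → ∀ (Ω : Type u) [MeasurableSpace Ω] (P : Measure Ω) [IsProbabilityMeasure P]
      (X : Ω → ℝ), Measurable X → ∫ t in (0 : ℝ)..1, ‖ph P X t‖ ^ (2 * h) ≤ Real.log a ^ C / a →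
        P.real {ω | |X ω| ≤ B * a ∧ ∃ n : ℕ, 0 < n ∧ Even n ∧ |(n : ℝ) - X ω| ≤ Real.log a ^ A ∧
          ¬ Pool.Agent.W93.GB.Good ε n} ≤ 1 / Real.log a ^ U := by
  classical
  obtain ⟨N0, hw⟩ := wts h (B + 1) (C + 1) (U + A + 1) hh ε hε
  -- growth
  have hgrow : ∀ᶠ a : ℝ in Filter.atTop, Real.log a ^ A ≤ a := by
    have := (isLittleO_log_rpow_atTop (r := 1 / ((A : ℝ) + 1)) (by positivity)).bound (c := 1) one_pos
    filter_upwards [this, Filter.eventually_ge_atTop 1] with a ha h1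
    rw [one_mul, Real.norm_eq_abs, Real.norm_eq_abs, abs_of_nonneg (Real.log_nonneg h1),
      abs_of_nonneg (Real.rpow_nonneg (by linarith) _)] at ha
    calc Real.log a ^ A ≤ (a ^ (1 / ((A : ℝ) + 1))) ^ A := pow_le_pow_left₀ (Real.log_nonneg h1) ha _
      _ = a ^ ((A : ℝ) / (A + 1)) := by
          rw [← Real.rpow_natCast, ← Real.rpow_mul (by linarith)]
          congr 1
          field_simp
      _ ≤ a ^ (1 : ℝ) := by
          apply Real.rpow_le_rpow_of_exponent_le h1
          rw [div_le_one (by positivity)]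
          linarith
      _ = a := Real.rpow_one a
  have hlog : ∀ᶠ a : ℝ in Filter.atTop, 64 * (h : ℝ) + 9 ≤ Real.log a :=
    Real.tendsto_log_atTop.eventually_ge_atTop _
  obtain ⟨a1, ha1⟩ := Filter.eventually_atTop.1 (hgrow.and hlog)
  refine ⟨max (max a1 1) N0, fun a ha Ω _ P _ X hX hF => ?_⟩
  have haa : a1 ≤ a := ((le_max_left _ _).trans (le_max_left _ _)).trans ha
  have ha1' : 1 ≤ a := ((le_max_right _ _).trans (le_max_left _ _)).trans ha
  obtain ⟨g1, g2⟩ := ha1 a haa
  set N := ⌈a⌉₊ with hN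
  have hNa : a ≤ N := Nat.le_ceil a
  have hN0 : N0 ≤ N := by
    have : (N0 : ℝ) ≤ N := ((le_max_right _ _).trans ha).trans hNa
    exact_mod_cast this
  have hN2 : (N : ℝ) ≤ 2 * a := by
    have := Nat.ceil_lt_add_one (a := a) (by linarith)
    linarith
  have hapos : 0 < a := by linarith
  have hhr : (1 : ℝ) ≤ h := by exact_mod_cast hh
  have hlogN : Real.log a ≤ Real.log N := Real.log_le_log hapos hNa
  have hla : 9 ≤ Real.log a := by linarith
  have hlN : 9 ≤ Real.log N := by linarith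
  set L := Real.log N with hL
  set l := Real.log a with hl
  have hl0 : 0 < l := by linarith
  have hL0 : 0 < L := by linarith
  -- the energy
  have hball : (PP h P).real {z | |YY h X z| ≤ 2 * h} ≤ 8 * h * (l ^ C / a) := by
    have h1 := small_ball h P X hX (1 / (2 * h)) (2 * h) (by positivity) (by
      rw [mul_one_div, div_self (by positivity)])
    have h2 : ∫ t in (0 : ℝ)..(1 / (2 * h)), ‖ph P X t‖ ^ (2 * h) ≤ ∫ t in (0 : ℝ)..1, ‖ph P X t‖ ^ (2 * h) := by
      apply intervalIntegral.integral_mono_interval le_rfl (by positivity)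
      · rw [div_le_one (by positivity)]
        linarith
      · filter_upwards with t
        positivity
      · apply Continuous.intervalIntegrable
        exact ((ph_cont P X hX).norm).pow _
    have h3 : 4 / (1 / (2 * (h : ℝ))) = 8 * h := by
      field_simp
      norm_num
    rw [h3] at h1
    refine h1.trans ?_
    apply mul_le_mul_of_nonneg_left (h2.trans hF) (by positivity)
  have hEn : ∀ j : ℤ, Ew h ((B + 1) * N + 1) (wd P X j) * N ≤ L ^ (C + 1) := by
    intro j
    have h1 := (wd_energy h ((B + 1) * N + 1) P X hX j).trans hball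
    have hN0' : (0 : ℝ) ≤ N := by positivity
    calc Ew h ((B + 1) * N + 1) (wd P X j) * N ≤ 8 * h * (l ^ C / a) * N := mul_le_mul_of_nonneg_right h1 hN0'
      _ ≤ 8 * h * (l ^ C / a) * (2 * a) := mul_le_mul_of_nonneg_left hN2 (by positivity)
      _ = 16 * h * l ^ C := by field_simp; ring
      _ ≤ L * l ^ C := by
          apply mul_le_mul_of_nonneg_right _ (by positivity)
          linarith
      _ ≤ L * L ^ C := by
          apply mul_le_mul_of_nonneg_left _ hL0.le
          exact pow_le_pow_left₀ hl0.le hlogN _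
      _ = L ^ (C + 1) := by ring
  -- the exceptional set
  set S := (Finset.range ((B + 1) * N + 1)).filter (fun v => ¬ Pool.Agent.W93.GB.Good ε v) with hS
  have hS1 : ∀ j : ℤ, P.real {ω | ∃ v ∈ S, nn X j ω = (v : ℤ)} ≤ 1 / L ^ (U + A + 1) := by
    intro j
    rw [← wd_sum P X hX j S]
    apply hw N hN0 (wd P X j) (wd_nonneg P X j) (wd_odd P X j) _ (hEn j) S (Finset.filter_subset _ _)
    · intro v hv
      exact (Finset.mem_filter.1 hv).2
    · rw [wd_sum P X hX j]
      exact measureReal_le_one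
  set J : ℤ := ⌈l ^ A⌉ + 2 with hJ
  have hJ0 : 0 ≤ J := by
    have : 0 ≤ ⌈l ^ A⌉ := Int.ceil_nonneg (by positivity)
    omega
  have hsub : {ω | |X ω| ≤ B * a ∧ ∃ n : ℕ, 0 < n ∧ Even n ∧ |(n : ℝ) - X ω| ≤ l ^ A ∧
      ¬ Pool.Agent.W93.GB.Good ε n} ⊆ ⋃ j ∈ Finset.Icc (-J) J, {ω | ∃ v ∈ S, nn X j ω = (v : ℤ)} := by
    rintro ω ⟨hω, n, _, ⟨m, hm⟩, hn2, hn3⟩
    have hnear := nn_near X 0 ω
    unfold nn at hnear
    rw [Set.mem_iUnion₂]
    refine ⟨(m : ℤ) - ⌊X ω / 2⌋, ?_, n, ?_, ?_⟩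
    · rw [Finset.mem_Icc]
      rw [abs_le] at hn2
      push_cast at hnear
      have hm' : (n : ℝ) = 2 * m := by
        rw [hm]
        push_cast
        ring
      have h1 : (((m : ℤ) - ⌊X ω / 2⌋ : ℤ) : ℝ) ≤ (J : ℤ) := by
        rw [hJ]
        push_cast
        have := Int.le_ceil (l ^ A)
        have h0 : 0 ≤ l ^ A := by positivity
        linarith [hn2.2, hnear.2]
      have h2 : ((-J : ℤ) : ℝ) ≤ (((m : ℤ) - ⌊X ω / 2⌋ : ℤ) : ℝ) := by
        rw [hJ]
        push_cast
        have := Int.le_ceil (l ^ A)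
        have h0 : 0 ≤ l ^ A := by positivity
        linarith [hn2.1, hnear.1]
      constructor
      · exact_mod_cast h2
      · exact_mod_cast h1
    · rw [hS, Finset.mem_filter, Finset.mem_range]
      refine ⟨?_, hn3⟩
      have h1 : (n : ℝ) ≤ (B + 1) * N := by
        have h2 := (abs_le.1 hn2).2
        have h3 := (abs_le.1 hω).2
        have hB : (0 : ℝ) ≤ B := by positivity
        nlinarith
      have h2 : n ≤ (B + 1) * N := by exact_mod_cast h1
      omega
    · unfold nn
      rw [hm]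
      push_cast
      ring
  have h1 := measureReal_mono hsub (measure_ne_top P _)
  have h2 := measureReal_biUnion_finset_le (μ := P) (Finset.Icc (-J) J) (fun j => {ω | ∃ v ∈ S, nn X j ω = (v : ℤ)})
  have h3 : ∑ j ∈ Finset.Icc (-J) J, P.real {ω | ∃ v ∈ S, nn X j ω = (v : ℤ)} ≤
      (2 * J + 1 : ℝ) * (1 / L ^ (U + A + 1)) := by
    refine (Finset.sum_le_sum (fun j _ => hS1 j)).trans ?_
    rw [Finset.sum_const, nsmul_eq_mul, Int.card_Icc]
    apply mul_le_mul_of_nonneg_right _ (by positivity)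
    have : ((J + 1 - -J).toNat : ℤ) = 2 * J + 1 := by
      rw [Int.toNat_of_nonneg (by omega)]
      ring
    have h4 : (((J + 1 - -J).toNat : ℤ) : ℝ) = 2 * J + 1 := by
      rw [this]
      push_cast
      ring
    rw [← h4, Int.cast_natCast]
  have h4 : (2 * J + 1 : ℝ) ≤ L ^ (A + 1) := by
    rw [hJ]
    push_cast
    have h5 := Int.ceil_lt_add_one (l ^ A)
    have h6 : (1 : ℝ) ≤ l ^ A := one_le_pow₀ (by linarith)
    have h7 : l ^ A ≤ L ^ A := pow_le_pow_left₀ hl0.le hlogN _
    rw [pow_succ]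
    nlinarith
  refine (h1.trans (h2.trans h3)).trans ?_
  calc (2 * J + 1 : ℝ) * (1 / L ^ (U + A + 1)) ≤ L ^ (A + 1) * (1 / L ^ (U + A + 1)) :=
        mul_le_mul_of_nonneg_right h4 (by positivity)
    _ = 1 / L ^ U := by
        rw [show U + A + 1 = (A + 1) + U by ring, pow_add]
        field_simp
        ring
    _ ≤ 1 / l ^ U := by
        apply one_div_le_one_div_of_le (by positivity)
        exact pow_le_pow_left₀ hl0.le hlogN _

end Pool.Agent.W91.GM
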