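import Mathlib
import Pool.Agent.W91.Final

set_option autoImplicit false
open scoped NumberField ComplexConjugate InnerProductSpace
open NumberField

namespace Pool.Agent.W91.PermExist

open Pool.Agent.W91.Geo Pool.Agent.W91.Final

variable {K : Type} [Field K] [NumberField K] {n : ℕ} (a : Fin n → 𝓞 K)

omit [NumberField K] in
lemma surj' (i : Fin n) (hI : ∀ i : Fin n, a i ∈ Ideal.span (Set.range fun j : {j // j ≠ i} => a j)) (y : 𝓞 K) :
    ∃ l : Fin n → 𝓞 K, ∑ j, a j * l j = 0 ∧ l i = y := by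
  classical
  obtain ⟨c, hc⟩ := Ideal.mem_span_range_iff_exists_fun.mp (hI i)
  refine ⟨fun j => if h : j = i then y else - (c ⟨j, h⟩ * y), ?_, by simp⟩
  rw [← Finset.add_sum_erase _ _ (Finset.mem_univ i)]
  have h1 : ∑ j ∈ Finset.univ.erase i, a j * (if h : j = i then y else - (c ⟨j, h⟩ * y)) =
      ∑ j : {j // j ≠ i}, - ((c j * a j) * y) := by
    rw [Finset.sum_subtype (Finset.univ.erase i) (p := fun j => j ≠ i) (fun j => by simp)]
    refine Finset.sum_congr rfl fun j _ => ?_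
    rw [dif_neg j.2]
    ring
  rw [h1, Finset.sum_neg_distrib, ← Finset.sum_mul, hc]
  dsimp only
  rw [dif_pos rfl]
  ring


lemma descent' (hn : 0 < n) (hA : ∀ v : NumberField.InfinitePlace K, ∀ i : Fin n,
      v (a i : K) < ∑ j ∈ Finset.univ.erase i, v (a j : K))
    (hI : ∀ i : Fin n, a i ∈ Ideal.span (Set.range fun j : {j // j ≠ i} => a j)) :
    ∃ θ C : ℝ, 0 ≤ θ ∧ θ < 1 ∧ 0 ≤ C ∧ ∀ (i : Fin n) (y : 𝓞 K), ∃ l : Fin n → 𝓞 K,
      ∑ j, a j * l j = 0 ∧ l i = y ∧ ∀ j, j ≠ i → N1 (l j) ≤ θ * N1 y + C := by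
  classical
  have hD : ∀ (i : Fin n) (φ : K →+* ℂ), 0 < ∑ k ∈ Finset.univ.erase i, ‖φ (a k : K)‖ :=
    fun i φ => (norm_nonneg _).trans_lt (arch_emb a hA φ i)
  obtain ⟨θ, hθ0, hθ1, hθ⟩ : ∃ θ : ℝ, 0 ≤ θ ∧ θ < 1 ∧ ∀ (i : Fin n) (φ : K →+* ℂ),
      ‖φ (a i : K)‖ / ∑ k ∈ Finset.univ.erase i, ‖φ (a k : K)‖ ≤ θ := by
    have : Nonempty (Fin n × (K →+* ℂ)) := ⟨⟨⟨0, hn⟩, Classical.arbitrary _⟩⟩
    obtain ⟨p, hp⟩ := Finite.exists_max (fun p : Fin n × (K →+* ℂ) =>
      ‖p.2 (a p.1 : K)‖ / ∑ k ∈ Finset.univ.erase p.1, ‖p.2 (a k : K)‖)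
    refine ⟨_, ?_, ?_, fun i φ => hp (i, φ)⟩
    · exact div_nonneg (norm_nonneg _) (hD _ _).le
    · rw [div_lt_one (hD _ _)]
      exact arch_emb a hA p.2 p.1
  choose r hr har using exists_pivot a hA
  refine ⟨θ, ∑ i, ∑ m, ∑ j, N1 (vv a i (r i) m j), hθ0, hθ1,
    Finset.sum_nonneg fun i _ => Finset.sum_nonneg fun m _ => Finset.sum_nonneg fun j _ =>
      N1_nonneg _, fun i y => ?_⟩
  obtain ⟨l0, hl0, hl0i⟩ := surj' a i hI y
  let z : Fin n → (K →+* ℂ) → ℂ := fun j φ => if j = i then φ (y : K) else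
    - (Gram.ph (φ (a j : K)) * φ (a i : K) * φ (y : K) /
      ((∑ k ∈ Finset.univ.erase i, ‖φ (a k : K)‖ : ℝ) : ℂ))
  obtain ⟨t, ht⟩ := real_comb2 a i (r i) (hr i) (har i) (fun j φ => z j φ - φ (l0 j : K))
    (by
      intro j φ
      simp only [z]
      rw [map_sub]
      simp only [conj_emb, RCLike.norm_conj, Gram.ph_conj]
      congr 1
      split_ifs
      · rfl
      · simp only [map_neg, map_div₀, map_mul, Complex.conj_ofReal])
    (by
      intro φ
      simp only [mul_sub, Finset.sum_sub_distrib]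
      have h1 : ∑ j, φ (a j : K) * φ (l0 j : K) = 0 := by
        have := congrArg (fun w : 𝓞 K => φ (w : K)) hl0
        simpa using this
      rw [h1, sub_zero, ← Finset.add_sum_erase _ _ (Finset.mem_univ i)]
      have h2 : ∑ j ∈ Finset.univ.erase i, φ (a j : K) * z j φ =
          ∑ j ∈ Finset.univ.erase i, -(((‖φ (a j : K)‖ : ℝ) : ℂ) * (φ (a i : K) * φ (y : K) /
      ((∑ k ∈ Finset.univ.erase i, ‖φ (a k : K)‖ : ℝ) : ℂ))) := by
        refine Finset.sum_congr rfl fun j hj => ?_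
        simp only [z]
        rw [if_neg (Finset.mem_erase.mp hj).1, ← Gram.mul_ph]
        ring
      rw [h2, Finset.sum_neg_distrib, ← Finset.sum_mul, ← Complex.ofReal_sum, mul_div_cancel₀]
      · simp [z]
      · exact_mod_cast (hD i φ).ne')
    (by
      intro φ
      simp only [z]
      rw [if_pos trivial, hl0i, sub_self])
  have hl : ∀ j, (l0 + ∑ m, round (t m) • vv a i (r i) m) j =
      l0 j + ∑ m, round (t m) • vv a i (r i) m j := by
    intro j
    rw [Pi.add_apply, Finset.sum_apply]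
    rfl
  refine ⟨l0 + ∑ m, round (t m) • vv a i (r i) m, ?_, ?_, fun j hj => ?_⟩
  · simp only [hl, mul_add, Finset.sum_add_distrib, hl0, zero_add, Finset.mul_sum]
    rw [Finset.sum_comm]
    refine Finset.sum_eq_zero fun m _ => ?_
    have : ∑ j, a j * round (t m) • vv a i (r i) m j =
        round (t m) • ∑ j, a j * vv a i (r i) m j := by
      rw [Finset.smul_sum]
      exact Finset.sum_congr rfl fun j _ => mul_smul_comm _ _ _
    rw [this, vv_rel, smul_zero]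
  · rw [hl, hl0i]
    simp [vv_i a i (r i) (hr i)]
  · rw [hl]
    have hC : (0 : ℝ) ≤ ∑ i, ∑ m, ∑ j, N1 (vv a i (r i) m j) :=
      Finset.sum_nonneg fun i _ => Finset.sum_nonneg fun m _ => Finset.sum_nonneg fun j _ =>
        N1_nonneg _
    refine (pi_norm_le_iff_of_nonneg (add_nonneg (mul_nonneg hθ0 (N1_nonneg _)) hC)).mpr fun φ => ?_
    have h3 : φ ((l0 j + ∑ m, round (t m) • vv a i (r i) m j : 𝓞 K) : K) =
        z j φ + ∑ m, ((round (t m) - t m : ℝ) : ℂ) * φ (vv a i (r i) m j : K) := by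
      have h4 : φ ((l0 j + ∑ m, round (t m) • vv a i (r i) m j : 𝓞 K) : K) =
          φ (l0 j : K) + ∑ m, (round (t m) : ℂ) * φ (vv a i (r i) m j : K) := by
        simp
      rw [h4]
      have h5 := ht j φ
      rw [sub_eq_iff_eq_add] at h5
      rw [h5]
      push_cast
      simp only [sub_mul, Finset.sum_sub_distrib]
      ring
    rw [h3]
    refine (norm_add_le _ _).trans (add_le_add ?_ ?_)
    · simp only [z]
      rw [if_neg hj, norm_neg, norm_div, norm_mul, norm_mul, Gram.ph_norm, one_mul,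
        Complex.norm_real, Real.norm_of_nonneg (hD i φ).le]
      calc ‖φ (a i : K)‖ * ‖φ (y : K)‖ / ∑ k ∈ Finset.univ.erase i, ‖φ (a k : K)‖
          = ‖φ (a i : K)‖ / (∑ k ∈ Finset.univ.erase i, ‖φ (a k : K)‖) * ‖φ (y : K)‖ := by ring
        _ ≤ θ * N1 y := mul_le_mul (hθ i φ) (norm_le_N1 y φ) (norm_nonneg _) hθ0
    · calc ‖∑ m, ((round (t m) - t m : ℝ) : ℂ) * φ (vv a i (r i) m j : K)‖
          ≤ ∑ m, ‖((round (t m) - t m : ℝ) : ℂ) * φ (vv a i (r i) m j : K)‖ := norm_sum_le _ _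
        _ ≤ ∑ m, N1 (vv a i (r i) m j) := by
            refine Finset.sum_le_sum fun m _ => ?_
            rw [norm_mul, Complex.norm_real, Real.norm_eq_abs]
            calc |(round (t m) : ℝ) - t m| * ‖φ (vv a i (r i) m j : K)‖
                ≤ 1 * N1 (vv a i (r i) m j) := by
                  refine mul_le_mul ?_ (norm_le_N1 _ φ) (norm_nonneg _) zero_le_one
                  rw [abs_sub_comm]
                  exact (abs_sub_round (t m)).trans (by norm_num)
              _ = _ := one_mul _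
        _ ≤ ∑ m, ∑ j, N1 (vv a i (r i) m j) := by
            refine Finset.sum_le_sum fun m _ => ?_
            exact Finset.single_le_sum (f := fun j => N1 (vv a i (r i) m j))
              (fun j _ => N1_nonneg _) (Finset.mem_univ j)
        _ ≤ ∑ i, ∑ m, ∑ j, N1 (vv a i (r i) m j) :=
            Finset.single_le_sum (f := fun i => ∑ m, ∑ j, N1 (vv a i (r i) m j))
              (fun i _ => Finset.sum_nonneg fun m _ => Finset.sum_nonneg fun j _ => N1_nonneg _)
              (Finset.mem_univ i)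


theorem exists_relation (hn : 0 < n) (hA : ∀ v : NumberField.InfinitePlace K, ∀ i : Fin n,
      v (a i : K) < ∑ j ∈ Finset.univ.erase i, v (a j : K))
    (hI : ∀ i : Fin n, a i ∈ Ideal.span (Set.range fun j : {j // j ≠ i} => a j)) :
    ∃ (Ω : Type) (_ : Fintype Ω) (v : Ω → 𝓞 K) (σ : Fin n → Equiv.Perm Ω), v ≠ 0 ∧
      ∀ ω, ∑ i, a i * v (σ i ω) = 0 := by
  classical
  -- heights
  obtain ⟨θ, C, hθ0, hθ1, hC, hdesc⟩ := descent' a hn hA hI
  obtain ⟨ht, R0, C1, p, hC1, hht1, hht2, hht3⟩ :=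
    exists_height (N1 : 𝓞 K → ℝ) N1_nonneg θ C hθ0 hθ1 hC n
  have hfinB : Finite (Core.B ht) := by
    refine Set.Finite.to_subtype (s := {y | ht y = 0}) ((finite_N1 (K := K) R0).subset ?_)
    intro y hy
    exact hht2 y hy
  have : Fintype (Core.B ht) := Fintype.ofFinite _
  -- the quadratic form
  choose T hT using fun φ : K →+* ℂ => Gram.decomp (fun j => φ (a j : K)) (arch_emb a hA φ)
  let τ : Lam a →+ PiLp 2 (fun _ : K →+* ℂ => EuclideanSpace ℂ (Fin 2 ⊕ Fin n)) :=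
    AddMonoidHom.mk' (fun l => WithLp.toLp 2 fun φ => T φ fun j => φ (l.1 j : K)) (by
      intro l l'
      ext φ : 1
      have h1 : (fun j => φ ((l + l').1 j : K)) = (fun j => φ (l.1 j : K)) + fun j => φ (l'.1 j : K) := by
        funext j
        simp
      show T φ (fun j => φ ((l + l').1 j : K)) = T φ (fun j => φ (l.1 j : K)) +
        T φ (fun j => φ (l'.1 j : K))
      rw [h1, map_add])
  have hτ : ∀ l φ, τ l φ = T φ fun j => φ (l.1 j : K) := fun l φ => rfl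
  have hrel : ∀ (l : Lam a) (φ : K →+* ℂ), ∑ j, φ (a j : K) * φ (l.1 j : K) = 0 := by
    intro l φ
    have h1 : ∑ j, a j * l.1 j = 0 := l.2
    have := congrArg (fun w : 𝓞 K => φ (w : K)) h1
    simpa using this
  choose r hr har using exists_pivot a hA
  let v : Fin n → Fin n × Ib K → Lam a := fun i m => ⟨vv a i (r i) m, vv_rel a i (r i) m⟩
  have hv0 : ∀ i m, pr a i (v i m) = 0 := fun i m => vv_i a i (r i) (hr i) m
  set R : ℝ := 1 + ∑ i, ∑ m, ‖τ (v i m)‖ ^ 2 with hR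
  have hR0 : 0 < R := by positivity
  have hv : ∀ i m, ‖τ (v i m)‖ ^ 2 ≤ R := by
    intro i m
    have h1 : ‖τ (v i m)‖ ^ 2 ≤ ∑ m, ‖τ (v i m)‖ ^ 2 :=
      Finset.single_le_sum (f := fun m => ‖τ (v i m)‖ ^ 2) (fun _ _ => sq_nonneg _)
        (Finset.mem_univ m)
    have h2 : ∑ m, ‖τ (v i m)‖ ^ 2 ≤ ∑ i, ∑ m, ‖τ (v i m)‖ ^ 2 :=
      Finset.single_le_sum (f := fun i => ∑ m, ‖τ (v i m)‖ ^ 2)
        (fun _ _ => Finset.sum_nonneg fun _ _ => sq_nonneg _) (Finset.mem_univ i)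
    linarith
  let Q : 𝓞 K → ℝ := fun y => ∑ φ : K →+* ℂ, ‖φ (y : K)‖ ^ 2
  have hsurj : ∀ i (y : 𝓞 K), ∃ l : Lam a, pr a i l = y := by
    intro i y
    obtain ⟨l, hl, hli⟩ := surj' a i hI y
    exact ⟨⟨l, hl⟩, hli⟩
  have hQ : ∀ i y, ∃ l0, pr a i l0 = y ∧ ∃ t : Fin n × Ib K → ℝ, ∀ μ, pr a i μ = 0 →
      ‖τ (l0 + μ)‖ ^ 2 = Q y + ‖τ μ + ∑ m, t m • τ (v i m)‖ ^ 2 := by
    intro i y
    obtain ⟨l0, hl0⟩ := hsurj i y
    refine ⟨l0, hl0, ?_⟩
    have hl0' : l0.1 i = y := hl0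
    obtain ⟨t, ht'⟩ := real_comb2 a i (r i) (hr i) (har i)
      (fun j φ => φ (l0.1 j : K) - φ (y : K) * Gram.gm (fun j => φ (a j : K)) i j)
      (by
        intro j φ
        have h1 := Gram.gm_conj (fun j => φ (a j : K)) i j
        simp only [conj_emb, map_sub, map_mul]
        rw [h1])
      (by
        intro φ
        simp only [mul_sub, Finset.sum_sub_distrib]
        rw [hrel l0 φ]
        have h2 : ∑ j, φ (a j : K) * (φ (y : K) * Gram.gm (fun j => φ (a j : K)) i j) =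
            φ (y : K) * ∑ j, φ (a j : K) * Gram.gm (fun j => φ (a j : K)) i j := by
          rw [Finset.mul_sum]
          exact Finset.sum_congr rfl fun j _ => by ring
        rw [h2, Gram.gm_sum _ (arch_emb a hA φ)]
        simp)
      (by
        intro φ
        rw [Gram.gm_diag _ (arch_emb a hA φ), hl0']
        ring)
    refine ⟨t, fun μ hμ => ?_⟩
    have hμ' : μ.1 i = 0 := hμ
    rw [PiLp.norm_sq_eq_of_L2, PiLp.norm_sq_eq_of_L2, ← Finset.sum_add_distrib]
    refine Finset.sum_congr rfl fun φ _ => ?_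
    rw [hτ]
    have h1 := hT φ (fun j => φ ((l0 + μ).1 j : K)) (hrel (l0 + μ) φ) i
    rw [h1]
    have h3 : (l0 + μ).1 i = y := by
      show l0.1 i + μ.1 i = y
      rw [hl0', hμ', add_zero]
    congr 2
    · rw [h3]
    · congr 1
      have h4 : (τ μ + ∑ m, t m • τ (v i m)) φ = T φ ((fun j => φ (μ.1 j : K)) +
          ∑ m, (t m : ℂ) • fun j => φ ((v i m).1 j : K)) := by
        rw [map_add, map_sum]
        simp only [map_smul]
        rw [PiLp.add_apply, hτ]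
        congr 1
        rw [WithLp.ofLp_sum, Finset.sum_apply]
        refine Finset.sum_congr rfl fun m _ => ?_
        rw [PiLp.smul_apply, hτ, Complex.coe_smul]
      rw [h4]
      congr 1
      funext j
      have h5 := ht' j φ
      simp only [Pi.sub_apply, Pi.smul_apply, Pi.add_apply, Finset.sum_apply, smul_eq_mul]
      have h6 : φ ((l0 + μ).1 j : K) = φ (l0.1 j : K) + φ (μ.1 j : K) := by
        simp
      rw [h3, h6]
      linear_combination h5
  obtain ⟨d, hd⟩ := exists_summable n K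
  have hNτ : ∀ l : Lam a, ‖psi l.1‖ ^ 2 ≤ ‖τ l‖ ^ 2 := by
    intro l
    refine pow_le_pow_left₀ (norm_nonneg _) ?_ 2
    rw [pi_norm_le_iff_of_nonneg (norm_nonneg _)]
    intro j
    rw [pi_norm_le_iff_of_nonneg (norm_nonneg _)]
    intro φ
    rw [psi_apply]
    have h1 := hT φ (fun j => φ (l.1 j : K)) (hrel l φ) j
    have h2 : ‖φ (l.1 j : K)‖ ^ 2 ≤ ‖T φ (fun j => φ (l.1 j : K))‖ ^ 2 := by
      rw [h1]
      have := sq_nonneg ‖T φ ((fun j => φ (l.1 j : K)) - φ (l.1 j : K) • Gram.gm (fun j => φ (a j : K)) j)‖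
      linarith
    have h3 : ‖T φ (fun j => φ (l.1 j : K))‖ ^ 2 ≤ ‖τ l‖ ^ 2 := by
      rw [PiLp.norm_sq_eq_of_L2 _ (τ l)]
      exact Finset.single_le_sum (f := fun φ => ‖τ l φ‖ ^ 2) (fun _ _ => sq_nonneg _)
        (Finset.mem_univ φ)
    exact (pow_le_pow_iff_left₀ (norm_nonneg _) (norm_nonneg _) two_ne_zero).mp (h2.trans h3)
  have hwt := Hw.hw (pr a) τ hn ht v hv0 R hR0 hv Q hQ (fun l => ‖psi l.1‖)
    (fun l => norm_nonneg _) hNτ p d C1 hC1 (fun i l => by
      refine (hht3 (pr a i l)).trans ?_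
      have h1 : N1 (pr a i l) ≤ ‖psi l.1‖ := N1_le l.1 i
      have h2 := N1_nonneg (pr a i l)
      gcongr) (hd.comp_injective (i := fun l : Lam a => l.1) Subtype.val_injective)
  obtain ⟨l1, hl1⟩ := hsurj ⟨0, hn⟩ 1
  obtain ⟨μ, hμ0, hμ1, hμ⟩ := Core.main (fun i (l : Lam a) => pr a i l) ht (by
      intro i y hy
      obtain ⟨l, hl, hli, hlj⟩ := hdesc i y
      exact ⟨⟨l, hl⟩, hli, fun j hj => hht1 y (l j) hy (hlj j hj)⟩) hwt l1
  obtain ⟨Ω, hΩ, lam, σ, hσ, ω1, hω1⟩ := PermOf.perm_of hn (fun i (l : Lam a) => pr a i l) μ hμ0 l1 hμ1 hμ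
  refine ⟨Ω, hΩ, fun ω => pr a ⟨0, hn⟩ (lam ω), σ, ?_, fun ω => ?_⟩
  · intro h
    have h1 := congrFun h ω1
    simp only [hω1, hl1] at h1
    exact one_ne_zero h1
  · have h2 : ∀ i, pr a ⟨0, hn⟩ (lam (σ i ω)) = pr a i (lam ω) := fun i => hσ i ω
    simp only [h2]
    exact (lam ω).2

end Pool.Agent.W91.PermExist
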