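import Mathlib
import Pool.Agent.W91.PermExist

set_option autoImplicit false
open scoped NumberField
open NumberField

namespace Pool.Agent.W91.Mul

/-- one coordinate dominates -/
def CondA {d : ℕ} (b : Fin d → ℤ) : Prop := ∃ i, ∑ j ∈ Finset.univ.erase i, |b j| < |b i|

/-- one coordinate is a unit at `p` and the others are not -/
def CondB {d : ℕ} (b : Fin d → ℤ) : Prop :=
  ∃ i, ∃ p : ℕ, p.Prime ∧ ¬ (p : ℤ) ∣ b i ∧ ∀ j, j ≠ i → (p : ℤ) ∣ b j

/-- one coordinate has strictly smaller valuation at `p` than all the others -/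
def CondB' {d : ℕ} (b : Fin d → ℤ) : Prop :=
  ∃ i, ∃ p : ℕ, p.Prime ∧ ∃ k : ℕ, ¬ (p : ℤ) ^ k ∣ b i ∧ ∀ j, j ≠ i → (p : ℤ) ^ k ∣ b j

lemma mem_span_int {d : ℕ} (b : Fin d → ℤ) (hB : ¬ CondB' b) (i : Fin d) :
    b i ∈ Ideal.span (Set.range fun j : {j // j ≠ i} => b j) := by
  set I := Ideal.span (Set.range fun j : {j // j ≠ i} => b j) with hI
  have hg := Ideal.span_singleton_generator I
  set g := Submodule.IsPrincipal.generator I
  have hgj : ∀ j, j ≠ i → g ∣ b j := by
    intro j hj
    rw [← Ideal.mem_span_singleton, hg]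
    exact Ideal.subset_span ⟨⟨j, hj⟩, rfl⟩
  rw [← hg, Ideal.mem_span_singleton]
  rw [← Int.natAbs_dvd_natAbs, Nat.dvd_iff_prime_pow_dvd_dvd]
  intro p k hp hk
  by_contra hcon
  refine hB ⟨i, p, hp, k, fun h => hcon ?_, fun j hj => ?_⟩
  · have := Int.natAbs_dvd_natAbs.mpr h
    rwa [Int.natAbs_pow, Int.natAbs_natCast] at this
  · have h1 : ((p : ℤ) ^ k) ∣ g := by
      rw [← Int.natAbs_dvd_natAbs, Int.natAbs_pow, Int.natAbs_natCast]
      exact hk
    exact h1.trans (hgj j hj)

theorem perm_int {d : ℕ} (hd : 0 < d) (b : Fin d → ℤ) (hA : ¬ CondA b) (hB : ¬ CondB' b) :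
    ∃ (Ω : Type) (_ : Fintype Ω) (v : Ω → ℤ) (σ : Fin d → Equiv.Perm Ω), v ≠ 0 ∧
      ∀ ω, ∑ i, b i * v (σ i ω) = 0 := by
  classical
  unfold CondA at hA
  push Not at hA
  by_cases heq : ∃ i, |b i| = ∑ j ∈ Finset.univ.erase i, |b j|
  · obtain ⟨i, hi⟩ := heq
    -- signs
    let s : Fin d → Bool := fun j => if j = i then decide (0 ≤ b j) else decide (b j < 0)
    refine ⟨Bool, inferInstance, fun x => if x then 1 else -1,
      fun j => if s j then 1 else Equiv.swap true false, ?_, fun ω => ?_⟩
    · intro h
      have := congrFun h true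
      simp at this
    · have h1 : ∀ j, b j * (fun x : Bool => if x then (1 : ℤ) else -1)
          ((if s j then (1 : Equiv.Perm Bool) else Equiv.swap true false) ω) =
          (if ω then (1 : ℤ) else -1) * (if j = i then |b j| else - |b j|) := by
        intro j
        by_cases hj : j = i
        · by_cases hb : 0 ≤ b j
          · have hs : s j = true := by simp [s, hj, hj ▸ hb]
            rw [hs, if_pos hj, abs_of_nonneg hb]
            cases ω <;> simp
          · have hs : s j = false := by
              simp only [s, if_pos hj]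
              simpa using hb
            rw [hs, if_pos hj, abs_of_neg (by linarith)]
            cases ω <;> simp
        · by_cases hb : b j < 0
          · have hs : s j = true := by simp [s, hj, hb]
            rw [hs, if_neg hj, abs_of_neg hb]
            cases ω <;> simp
          · have hs : s j = false := by
              simp only [s, if_neg hj]
              simpa using hb
            rw [hs, if_neg hj, abs_of_nonneg (by linarith)]
            cases ω <;> simp
      rw [Finset.sum_congr rfl fun j _ => h1 j, ← Finset.mul_sum,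
        ← Finset.add_sum_erase _ _ (Finset.mem_univ i), if_pos rfl, hi]
      have h2 : ∑ j ∈ Finset.univ.erase i, (if j = i then |b j| else - |b j|) =
          - ∑ j ∈ Finset.univ.erase i, |b j| := by
        rw [← Finset.sum_neg_distrib]
        refine Finset.sum_congr rfl fun j hj => ?_
        rw [if_neg (Finset.mem_erase.mp hj).1]
      rw [h2]
      ring
  · push Not at heq
    have hlt : ∀ i, |b i| < ∑ j ∈ Finset.univ.erase i, |b j| :=
      fun i => lt_of_le_of_ne (hA i) (heq i)
    have hcast : ∀ z : ℤ, (((z : 𝓞 ℚ) : ℚ)) = (z : ℚ) := by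
      intro z
      simp
    obtain ⟨Ω, hΩ, v, σ, hv, hσ⟩ := PermExist.exists_relation (K := ℚ) (fun i => ((b i : ℤ) : 𝓞 ℚ)) hd
      (by
        intro w i
        have h1 : ∀ z : ℤ, w ((z : 𝓞 ℚ) : ℚ) = ((|z| : ℤ) : ℝ) := by
          intro z
          rw [hcast]
          rw [← InfinitePlace.mk_embedding w, InfinitePlace.apply]
          simp
        simp only [h1]
        exact_mod_cast hlt i)
      (by
        intro i
        obtain ⟨c, hc⟩ := Ideal.mem_span_range_iff_exists_fun.mp (mem_span_int b hB i)
        rw [Ideal.mem_span_range_iff_exists_fun]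
        refine ⟨fun j => ((c j : ℤ) : 𝓞 ℚ), ?_⟩
        dsimp only
        rw [← hc]
        push_cast
        rfl)
    refine ⟨Ω, hΩ, fun ω => Rat.ringOfIntegersEquiv (v ω), σ, ?_, fun ω => ?_⟩
    · intro h
      apply hv
      funext ω
      have := congrFun h ω
      simpa using this
    · have h1 := congrArg Rat.ringOfIntegersEquiv (hσ ω)
      rw [map_sum, map_zero] at h1
      rw [← h1]
      refine Finset.sum_congr rfl fun i _ => ?_
      rw [map_mul, map_intCast]
      simp

end Pool.Agent.W91.Mul
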