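import Mathlib
import Pool.Agent.W91.MulPerm

set_option autoImplicit false
open Polynomial

namespace Pool.Agent.W91.Mul

lemma abs_nec {S : Type} [Finite S] {d : ℕ} (n : S → ℤ) (hn : n ≠ 0) (b : Fin d → ℤ)
    (h : ∀ i y, ∃ Y : Fin d → S, Y i = y ∧ ∑ j, b j * n (Y j) = 0) :
    ¬ CondA b ∧ ¬ CondB' b := by
  classical
  obtain ⟨x0, hx0⟩ : ∃ x, n x ≠ 0 := Function.ne_iff.mp hn
  have : Nonempty S := ⟨x0⟩
  constructor
  · rintro ⟨i, hi⟩
    obtain ⟨x, hx⟩ := Finite.exists_max (fun x => |n x|)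
    have hxpos : 0 < |n x| := (abs_pos.mpr hx0).trans_le (hx x0)
    obtain ⟨Y, hY, hsum⟩ := h i x
    rw [← Finset.add_sum_erase _ _ (Finset.mem_univ i), hY] at hsum
    have h1 : b i * n x = - ∑ j ∈ Finset.univ.erase i, b j * n (Y j) := by linarith
    have h2 : |b i| * |n x| ≤ (∑ j ∈ Finset.univ.erase i, |b j|) * |n x| := by
      rw [← abs_mul, h1, abs_neg, Finset.sum_mul]
      refine (Finset.abs_sum_le_sum_abs _ _).trans (Finset.sum_le_sum fun j _ => ?_)
      rw [abs_mul]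
      exact mul_le_mul_of_nonneg_left (hx (Y j)) (abs_nonneg _)
    nlinarith
  · rintro ⟨i, p, hp, k, hk, hj⟩
    have hpp : Prime (p : ℤ) := Nat.prime_iff_prime_int.mp hp
    have hex : ∃ m : ℕ, ∃ y, ¬ (p : ℤ) ^ (m + 1) ∣ n y := by
      by_contra hcon
      push Not at hcon
      have h1 : ∀ m : ℕ, (p : ℤ) ^ m ∣ n x0 := fun m => (pow_dvd_pow _ (Nat.le_succ m)).trans (hcon m x0)
      exact hx0 (by
        by_contra hne
        have hf := Int.finiteMultiplicity_iff.mpr ⟨by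
          rw [Int.natAbs_natCast]; exact hp.one_lt.ne', hne⟩
        obtain ⟨m, hm⟩ := hf
        exact hm (h1 (m + 1)))
    obtain ⟨x, hx⟩ := Nat.find_spec hex
    set m := Nat.find hex with hm
    have hall : ∀ y, (p : ℤ) ^ m ∣ n y := by
      intro y
      rcases Nat.eq_zero_or_pos m with h0 | h0
      · rw [h0]; simp
      · have := Nat.find_min hex (m := m - 1) (by omega)
        push Not at this
        have h2 := this y
        rwa [Nat.sub_add_cancel h0] at h2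
    obtain ⟨Y, hY, hsum⟩ := h i x
    rw [← Finset.add_sum_erase _ _ (Finset.mem_univ i), hY] at hsum
    have h1 : b i * n x = - ∑ j ∈ Finset.univ.erase i, b j * n (Y j) := by linarith
    have h2 : (p : ℤ) ^ (k + m) ∣ b i * n x := by
      rw [h1, dvd_neg, pow_add]
      exact Finset.dvd_sum fun j hj' => mul_dvd_mul (hj j (Finset.mem_erase.mp hj').1) (hall _)
    -- factor b i
    have hb0 : b i ≠ 0 := by
      intro h0; exact hk (by rw [h0]; exact dvd_zero _)
    obtain ⟨c, hc⟩ := hall x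
    have hc' : ¬ (p : ℤ) ∣ c := by
      rintro ⟨e, he⟩
      apply hx
      rw [hc, he]
      exact ⟨e, by ring⟩
    have h3 : (p : ℤ) ^ k ∣ b i := by
      have h4 : (p : ℤ) ^ k * (p : ℤ) ^ m ∣ (b i * c) * (p : ℤ) ^ m := by
        rw [← pow_add]
        refine h2.trans (dvd_of_eq ?_)
        rw [hc]; ring
      have h5 := Int.dvd_of_mul_dvd_mul_right (pow_ne_zero m hpp.ne_zero) h4
      exact hpp.pow_dvd_of_dvd_mul_right k hc' h5
    exact hk h3

lemma exists_functional (M : Type) [AddCommGroup M] [Module.Finite ℤ M] (x : M)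
    (hx : ∀ m : ℤ, m ≠ 0 → m • x ≠ 0) : ∃ f : M →ₗ[ℤ] ℤ, f x ≠ 0 := by
  let Q := M ⧸ Submodule.torsion ℤ M
  let B := Module.Free.chooseBasis ℤ Q
  have h1 : Submodule.Quotient.mk (p := Submodule.torsion ℤ M) x ≠ 0 := by
    rw [Ne, Submodule.Quotient.mk_eq_zero, Submodule.mem_torsion_iff]
    rintro ⟨m, hm⟩
    exact hx m (nonZeroDivisors.coe_ne_zero m) hm
  have h2 : B.repr (Submodule.Quotient.mk x) ≠ 0 := by
    intro h
    exact h1 ((map_eq_zero_iff _ B.repr.injective).mp h)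
  obtain ⟨k, hk⟩ := Finsupp.ne_iff.mp h2
  exact ⟨(B.coord k).comp (Submodule.torsion ℤ M).mkQ, hk⟩

theorem nec_mul (E : Type) [Field E] [Algebra ℚ E] [Normal ℚ E] {d : ℕ} (b : Fin d → ℤ) (γ : E)
    (hγ0 : γ ≠ 0) (hγ : ∀ m : ℕ, 0 < m → γ ^ m ≠ 1) (g : Fin d → (E ≃ₐ[ℚ] E))
    (h : ∏ i, (g i γ) ^ b i = 1) : ¬ CondA b ∧ ¬ CondB' b := by
  classical
  let S : Type := (minpoly ℚ γ).rootSet E
  have hint : IsIntegral ℚ γ := Normal.isIntegral inferInstance γ
  have hmp : minpoly ℚ γ ≠ 0 := minpoly.ne_zero hint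
  have hroot : ∀ τ : E ≃ₐ[ℚ] E, τ γ ∈ (minpoly ℚ γ).rootSet E := by
    intro τ
    rw [mem_rootSet]
    refine ⟨hmp, ?_⟩
    rw [← minpoly.algEquiv_eq τ γ]
    exact minpoly.aeval ℚ (τ γ)
  have htrans : ∀ y : S, ∃ τ : E ≃ₐ[ℚ] E, τ γ = (y : E) := by
    intro y
    have hy := (mem_rootSet.mp y.2).2
    have hy' : minpoly ℚ (y : E) = minpoly ℚ γ := by
      symm
      exact minpoly.eq_of_irreducible_of_monic (minpoly.irreducible hint) hy (minpoly.monic hint)
    obtain ⟨τ, hτ⟩ := minpoly.exists_algEquiv_of_root (K := ℚ) (x := γ) (y := (y : E))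
      (Normal.isIntegral inferInstance (y : E)).isAlgebraic (by rw [hy']; exact minpoly.aeval ℚ γ)
    exact ⟨τ, hτ⟩
  have hne : ∀ y : S, (y : E) ≠ 0 := by
    intro y h0
    obtain ⟨τ, hτ⟩ := htrans y
    rw [h0, map_eq_zero] at hτ
    exact hγ0 hτ
  let u : S → Additive Eˣ := fun y => Additive.ofMul (Units.mk0 (y : E) (hne y))
  let M : Submodule ℤ (Additive Eˣ) := Submodule.span ℤ (Set.range u)
  have hMf : Module.Finite ℤ M := Module.Finite.span_of_finite ℤ (Set.finite_range u)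
  have hu : ∀ y, u y ∈ M := fun y => Submodule.subset_span ⟨y, rfl⟩
  let γS : S := ⟨γ, hroot AlgEquiv.refl⟩
  obtain ⟨f, hf⟩ := exists_functional M ⟨u γS, hu γS⟩ (by
    intro m hm h0
    have h1 : m • u γS = 0 := congrArg Subtype.val h0
    have h2 : (Units.mk0 γ hγ0) ^ m = 1 := h1
    have h3 : γ ^ m = 1 := by
      have := congrArg Units.val h2
      simpa using this
    have h4 : γ ^ m.natAbs = 1 := by
      rcases Int.natAbs_eq m with h5 | h5
      · rw [h5, zpow_natCast] at h3; exact h3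
      · rw [h5, zpow_neg, zpow_natCast, inv_eq_one] at h3; exact h3
    exact hγ _ (Int.natAbs_pos.mpr hm) h4)
  refine abs_nec (fun y : S => f ⟨u y, hu y⟩) (fun h0 => hf (congrFun h0 γS)) b fun i y => ?_
  obtain ⟨τ, hτ⟩ := htrans y
  let ρ : E ≃ₐ[ℚ] E := (g i).symm.trans τ
  let Y : Fin d → S := fun j => ⟨ρ (g j γ), hroot ((g j).trans ρ)⟩
  have hYi : Y i = y := by
    apply Subtype.ext
    show τ ((g i).symm (g i γ)) = (y : E)
    rw [AlgEquiv.symm_apply_apply, hτ]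
  refine ⟨Y, hYi, ?_⟩
  have h1 : ∑ j, b j • u (Y j) = 0 := by
    have h2 : ∏ j, (Units.mk0 (Y j : E) (hne (Y j))) ^ b j = 1 := by
      apply Units.ext
      have h3 := congrArg ρ h
      rw [map_prod, map_one] at h3
      rw [Units.coe_prod, Units.val_one, ← h3]
      refine Finset.prod_congr rfl fun j _ => ?_
      rw [map_zpow₀, Units.val_zpow_eq_zpow_val, Units.val_mk0]
    exact h2
  have h4 : ∑ j, b j • (⟨u (Y j), hu (Y j)⟩ : M) = 0 := by
    apply Subtype.ext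
    rw [Submodule.coe_sum, Submodule.coe_zero, ← h1]
    rfl
  have h5 := congrArg f h4
  rw [map_sum, map_zero] at h5
  rw [← h5]
  refine Finset.sum_congr rfl fun j _ => ?_
  rw [map_smul, smul_eq_mul]

end Pool.Agent.W91.Mul
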