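import Mathlib
import Pool.Agent.W91.SymGal2

set_option autoImplicit false
open Polynomial NumberField

namespace Pool.Agent.W91.Mul

lemma zpow_split {E : Type} [Field E] (x : E) (hx : x ≠ 0) (v : ℤ) :
    x ^ v * x ^ (-v).toNat = x ^ v.toNat := by
  rw [← zpow_natCast, ← zpow_natCast, ← zpow_add₀ hx]
  congr 1
  omega

lemma prod_zpow_exp {E ι : Type} [Field E] [Fintype ι] (x : E) (hx : x ≠ 0) (f : ι → ℤ) :
    ∏ i, x ^ f i = x ^ ∑ i, f i := by
  classical
  have : ∀ s : Finset ι, ∏ i ∈ s, x ^ f i = x ^ ∑ i ∈ s, f i := by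
    intro s
    induction s using Finset.induction_on with
    | empty => simp
    | insert a s ha ih => rw [Finset.prod_insert ha, Finset.sum_insert ha, ih, zpow_add₀ hx]
  exact this _

/-- not all the products are roots of unity -/
lemma exists_shift (E : Type) [Field E] [Algebra ℚ E] [Algebra.IsAlgebraic ℚ E] {Ω : Type}
    [Fintype Ω] (β : Ω → E) (hβ : Function.Injective β) (hne : ∀ ω (t : ℕ), β ω + t ≠ 0)
    (v : Ω → ℤ) (hv : v ≠ 0) : ∃ t : ℕ, ∀ m : ℕ, 0 < m → (∏ ω, (β ω + t) ^ v ω) ^ m ≠ 1 := by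
  classical
  by_contra hcon
  push Not at hcon
  have : CharZero E := algebraRat.charZero E
  let F : IntermediateField ℚ E := IntermediateField.adjoin ℚ (Set.range β)
  have hfd : FiniteDimensional ℚ F := by
    have : Finite (Set.range β) := Set.finite_range β
    exact IntermediateField.finiteDimensional_adjoin
      (fun x _ => Algebra.IsIntegral.isIntegral x)
  have hNF : NumberField F :=
    { to_charZero := inferInstance, to_finiteDimensional := by
        convert hfd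
        exact Subsingleton.elim _ _ }
  have hmem : ∀ ω, β ω ∈ F := fun ω => IntermediateField.subset_adjoin _ _ ⟨ω, rfl⟩
  let γ : ℕ → F := fun t => ∏ ω, ((⟨β ω, hmem ω⟩ : F) + t) ^ v ω
  have hγ : ∀ t, (γ t : E) = ∏ ω, (β ω + t) ^ v ω := by
    intro t
    simp only [γ]
    push_cast
    rfl
  have hU := Embeddings.finite_of_norm_le F ℂ 1
  have hγU : ∀ t, γ t ∈ {x : F | IsIntegral ℤ x ∧ ∀ φ : F →+* ℂ, ‖φ x‖ ≤ 1} := by
    intro t
    obtain ⟨m, hm, h1⟩ := hcon t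
    rw [← hγ] at h1
    have h2 : (γ t) ^ m = 1 := by
      apply Subtype.ext
      push_cast
      exact h1
    refine ⟨?_, fun φ => ?_⟩
    · refine ⟨X ^ m - 1, monic_X_pow_sub_C 1 hm.ne', ?_⟩
      simp [h2]
    · have h3 : (φ (γ t)) ^ m = 1 := by rw [← map_pow, h2, map_one]
      exact (Complex.norm_eq_one_of_pow_eq_one h3 hm.ne').le
  have hfin : Finite {x : F | IsIntegral ℤ x ∧ ∀ φ : F →+* ℂ, ‖φ x‖ ≤ 1} := hU.to_subtype
  obtain ⟨⟨ζ, hζ⟩, hinf⟩ := Finite.exists_infinite_fiber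
    (fun t : ℕ => (⟨γ t, hγU t⟩ : {x : F | IsIntegral ℤ x ∧ ∀ φ : F →+* ℂ, ‖φ x‖ ≤ 1}))
  have hinf' : {t : ℕ | γ t = ζ}.Infinite := by
    rw [Set.infinite_coe_iff] at hinf
    refine hinf.mono ?_
    intro t ht
    have := Set.mem_preimage.mp ht
    exact congrArg Subtype.val (Set.mem_singleton_iff.mp this)
  let P : E[X] := ∏ ω, (X + C (β ω)) ^ (v ω).toNat
  let Q : E[X] := ∏ ω, (X + C (β ω)) ^ (-v ω).toNat
  have hPQ : P = C (ζ : E) * Q := by
    refine Polynomial.eq_of_infinite_eval_eq _ _ ?_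
    have h1 : ((fun t : ℕ => (t : E)) '' {t : ℕ | γ t = ζ}).Infinite :=
      hinf'.image (fun a _ b _ h => Nat.cast_injective h)
    refine h1.mono ?_
    rintro _ ⟨t, ht, rfl⟩
    have ht' : γ t = ζ := ht
    show eval (t : E) P = eval (t : E) (C (ζ : E) * Q)
    rw [eval_mul, eval_C, ← ht', hγ]
    simp only [P, Q, eval_prod, eval_pow, eval_add, eval_X, eval_C]
    rw [← Finset.prod_mul_distrib]
    refine Finset.prod_congr rfl fun ω _ => ?_
    rw [add_comm (t : E), zpow_split _ (hne ω t)]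
  have hζ0 : (ζ : E) ≠ 0 := by
    obtain ⟨t, ht⟩ := hinf'.nonempty
    have ht' : γ t = ζ := ht
    rw [← ht', hγ]
    exact Finset.prod_ne_zero_iff.mpr fun ω _ => zpow_ne_zero _ (hne ω t)
  obtain ⟨ω0, hω0⟩ : ∃ ω, v ω ≠ 0 := Function.ne_iff.mp hv
  have hev := congrArg (eval (-β ω0)) hPQ
  rw [eval_mul, eval_C] at hev
  simp only [P, Q, eval_prod, eval_pow, eval_add, eval_X, eval_C] at hev
  rcases lt_or_gt_of_ne hω0 with hneg | hpos
  · have h1 : ∏ ω, (-β ω0 + β ω) ^ (-v ω).toNat = 0 := by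
      refine Finset.prod_eq_zero (Finset.mem_univ ω0) ?_
      rw [neg_add_cancel, zero_pow]
      omega
    rw [h1, mul_zero, Finset.prod_eq_zero_iff] at hev
    obtain ⟨ω, -, h2⟩ := hev
    have h3 := (pow_eq_zero_iff').mp h2
    have h4 : ω0 = ω := hβ (by linear_combination -h3.1)
    subst h4
    omega
  · have h1 : ∏ ω, (-β ω0 + β ω) ^ (v ω).toNat = 0 := by
      refine Finset.prod_eq_zero (Finset.mem_univ ω0) ?_
      rw [neg_add_cancel, zero_pow]
      omega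
    rw [h1, eq_comm, mul_eq_zero, Finset.prod_eq_zero_iff] at hev
    obtain ⟨ω, -, h2⟩ := hev.resolve_left hζ0
    have h3 := (pow_eq_zero_iff').mp h2
    have h4 : ω0 = ω := hβ (by linear_combination -h3.1)
    subst h4
    omega

theorem realize_mul (E : Type) [Field E] [Algebra ℚ E] [IsAlgClosed E] [Algebra.IsAlgebraic ℚ E]
    {d : ℕ} (b : Fin d → ℤ) (Ω : Type) [Fintype Ω] (v : Ω → ℤ) (hv : v ≠ 0)
    (σ : Fin d → Equiv.Perm Ω) (h : ∀ ω, ∑ i, b i * v (σ i ω) = 0) :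
    ∃ γ : E, γ ≠ 0 ∧ (∀ m : ℕ, 0 < m → γ ^ m ≠ 1) ∧
      ∃ g : Fin d → (E ≃ₐ[ℚ] E), ∏ i, (g i γ) ^ b i = 1 := by
  classical
  obtain ⟨p, hple, hp⟩ := Nat.exists_infinite_primes (Fintype.card Ω + 3)
  obtain ⟨f, hirr, hdeg, hbij⟩ := SymGal.exists_full p hp (by omega)
  have hcard : Fintype.card (f.rootSet E) = p := by rw [SymGal.card_rootSet f hirr E, hdeg]
  obtain ⟨ι⟩ : Nonempty (Ω ↪ f.rootSet E) := by
    rw [Function.Embedding.nonempty_iff_card_le, hcard]
    omega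
  have hne : ∀ ω (t : ℕ), (ι ω : E) + t ≠ 0 := by
    intro ω t h0
    have h1 : (ι ω : E) = algebraMap ℚ E (-t) := by
      rw [map_neg, map_natCast]
      linear_combination h0
    have h2 := (mem_rootSet.mp (ι ω).2).2
    rw [h1, aeval_algebraMap_apply, map_eq_zero_iff _ (algebraMap ℚ E).injective] at h2
    have h3 := degree_eq_one_of_irreducible_of_root hirr (x := (-t : ℚ)) h2
    have h4 : f.natDegree = 1 := natDegree_eq_of_degree_eq_some h3
    omega
  obtain ⟨t, ht⟩ := exists_shift E (fun ω => (ι ω : E)) (fun a b hab => ι.injective (Subtype.ext hab))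
    hne v hv
  have hτ : ∀ i, ∃ g : E ≃ₐ[ℚ] E, ∀ ω, g (ι ω : E) = (ι ((σ i)⁻¹ ω) : E) := by
    intro i
    obtain ⟨g, hg⟩ := SymGal.exists_aut f hirr hbij E (((σ i)⁻¹).viaFintypeEmbedding ι)
    refine ⟨g, fun ω => ?_⟩
    rw [hg, Equiv.Perm.viaFintypeEmbedding_apply_image]
  choose g hg using hτ
  refine ⟨∏ ω, ((ι ω : E) + t) ^ v ω, ?_, ht, g, ?_⟩
  · exact Finset.prod_ne_zero_iff.mpr fun ω _ => zpow_ne_zero _ (hne ω t)
  · have h1 : ∀ i, g i (∏ ω, ((ι ω : E) + t) ^ v ω) = ∏ ω, ((ι ω : E) + t) ^ v (σ i ω) := by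
      intro i
      rw [map_prod, ← Equiv.prod_comp (σ i)]
      refine Finset.prod_congr rfl fun ω _ => ?_
      have h3 : (σ i)⁻¹ (σ i ω) = ω := (σ i).symm_apply_apply ω
      rw [map_zpow₀, map_add, hg, map_natCast, h3]
    simp only [h1, ← Finset.prod_zpow]
    rw [Finset.prod_comm]
    refine Finset.prod_eq_one fun ω _ => ?_
    have h2 : ∀ i, (((ι ω : E) + t) ^ v (σ i ω)) ^ b i = ((ι ω : E) + t) ^ (b i * v (σ i ω)) := by
      intro i
      rw [← zpow_mul, mul_comm]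
    simp only [h2]
    rw [prod_zpow_exp _ (hne ω t), h ω, zpow_zero]

end Pool.Agent.W91.Mul
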